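import Pool.Agent.SMx.Defs

/-! MP_72ffec_pr: growth classes, Gaussian expectations, Stein, interpolation. -/

open MeasureTheory ProbabilityTheory Real
open scoped BigOperators ENNReal

namespace SMx

variable {n : ℕ} {ι : Type} [Fintype ι]

/-! growth -/

-- BEGIN gr_const
theorem Gr.const (c : ℝ) : Gr (fun _ : ι → ℝ => c) :=
  ⟨continuous_const, |c|, 0, abs_nonneg _, le_refl _, fun x => by simp⟩
-- END gr_const

-- BEGIN gr_add
theorem Gr.add {f g : (ι → ℝ) → ℝ} (hf : Gr f) (hg : Gr g) : Gr (fun x => f x + g x) := by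
  obtain ⟨cf, C1, K1, hC1, hK1, h1⟩ := hf
  obtain ⟨cg, C2, K2, hC2, hK2, h2⟩ := hg
  refine ⟨cf.add cg, C1 + C2, max K1 K2, add_nonneg hC1 hC2, le_max_of_le_left hK1, fun x => ?_⟩
  have hS : 0 ≤ ∑ i, |x i| := Finset.sum_nonneg fun i _ => abs_nonneg _
  have e1 : exp (K1 * ∑ i, |x i|) ≤ exp (max K1 K2 * ∑ i, |x i|) :=
    exp_le_exp.mpr (mul_le_mul_of_nonneg_right (le_max_left _ _) hS)
  have e2 : exp (K2 * ∑ i, |x i|) ≤ exp (max K1 K2 * ∑ i, |x i|) :=
    exp_le_exp.mpr (mul_le_mul_of_nonneg_right (le_max_right _ _) hS)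
  calc |f x + g x| ≤ |f x| + |g x| := abs_add_le _ _
    _ ≤ C1 * exp (K1 * ∑ i, |x i|) + C2 * exp (K2 * ∑ i, |x i|) := add_le_add (h1 x) (h2 x)
    _ ≤ C1 * exp (max K1 K2 * ∑ i, |x i|) + C2 * exp (max K1 K2 * ∑ i, |x i|) :=
        add_le_add (mul_le_mul_of_nonneg_left e1 hC1) (mul_le_mul_of_nonneg_left e2 hC2)
    _ = (C1 + C2) * exp (max K1 K2 * ∑ i, |x i|) := by ring
-- END gr_add

-- BEGIN gr_mul
theorem Gr.mul {f g : (ι → ℝ) → ℝ} (hf : Gr f) (hg : Gr g) : Gr (fun x => f x * g x) := by
  obtain ⟨cf, C1, K1, hC1, hK1, h1⟩ := hf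
  obtain ⟨cg, C2, K2, hC2, hK2, h2⟩ := hg
  refine ⟨cf.mul cg, C1 * C2, K1 + K2, mul_nonneg hC1 hC2, add_nonneg hK1 hK2, fun x => ?_⟩
  calc |f x * g x| = |f x| * |g x| := abs_mul _ _
    _ ≤ (C1 * exp (K1 * ∑ i, |x i|)) * (C2 * exp (K2 * ∑ i, |x i|)) :=
        mul_le_mul (h1 x) (h2 x) (abs_nonneg _) (mul_nonneg hC1 (exp_pos _).le)
    _ = C1 * C2 * exp ((K1 + K2) * ∑ i, |x i|) := by
        rw [add_mul, exp_add]
        ring
-- END gr_mul

/-- combinations -/
theorem Gr.const_mul (c : ℝ) {f : (ι → ℝ) → ℝ} (hf : Gr f) : Gr (fun x => c * f x) :=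
  (Gr.const c).mul hf

theorem Gr.neg {f : (ι → ℝ) → ℝ} (hf : Gr f) : Gr (fun x => -f x) := by
  have := hf.const_mul (-1)
  simpa using this

theorem Gr.sub {f g : (ι → ℝ) → ℝ} (hf : Gr f) (hg : Gr g) : Gr (fun x => f x - g x) := by
  have := hf.add hg.neg
  simpa [sub_eq_add_neg] using this

theorem Gr.sq {f : (ι → ℝ) → ℝ} (hf : Gr f) : Gr (fun x => f x ^ 2) := by
  have := hf.mul hf
  simpa [_root_.sq] using this

theorem Gr.sum {κ : Type} (s : Finset κ) {f : κ → (ι → ℝ) → ℝ} (hf : ∀ i, Gr (f i)) :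
    Gr (fun x => ∑ i ∈ s, f i x) := by
  classical
  induction s using Finset.induction_on with
  | empty => simpa using Gr.const (ι := ι) 0
  | insert a s ha ih =>
    have := (hf a).add ih
    simpa [Finset.sum_insert ha] using this

/-- averages -/
theorem Gr.avf {f : Fin n → (ι → ℝ) → ℝ} (hf : ∀ i, Gr (f i)) :
    Gr (fun x => SMx.av (fun i => f i x)) := by
  have := (Gr.sum Finset.univ hf).mul (Gr.const (1 / (n : ℝ)))
  simpa [SMx.av, div_eq_mul_inv] using this

-- BEGIN gr_coord
theorem Gr.coord (i : ι) : Gr (fun x : ι → ℝ => x i) := by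
  refine ⟨continuous_apply i, 1, 1, zero_le_one, zero_le_one, fun x => ?_⟩
  have h1 : |x i| ≤ ∑ j, |x j| :=
    Finset.single_le_sum (f := fun j => |x j|) (fun j _ => abs_nonneg _) (Finset.mem_univ i)
  have h2 := add_one_le_exp (∑ j, |x j|)
  rw [one_mul, one_mul]
  linarith

theorem Gr.abs {f : (ι → ℝ) → ℝ} (hf : Gr f) : Gr (fun x => |f x|) := by
  obtain ⟨cf, C, K, hC, hK, h⟩ := hf
  refine ⟨cf.abs, C, K, hC, hK, fun x => ?_⟩
  rw [abs_abs]
  exact h x
-- END gr_coord

-- BEGIN gr_explin
/-- exponentials of linear forms -/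
theorem Gr.explin (u : ι → ℝ) : Gr (fun x : ι → ℝ => exp (∑ i, u i * x i)) := by
  refine ⟨by fun_prop, 1, ∑ i, |u i|, zero_le_one, Finset.sum_nonneg fun i _ => abs_nonneg _,
    fun x => ?_⟩
  rw [abs_of_pos (exp_pos _), one_mul]
  apply exp_le_exp.mpr
  calc ∑ i, u i * x i ≤ ∑ i, |u i| * |x i| := by
        refine Finset.sum_le_sum fun i _ => ?_
        rw [← abs_mul]
        exact le_abs_self _
    _ ≤ ∑ i, (∑ j, |u j|) * |x i| := by
        refine Finset.sum_le_sum fun i _ => mul_le_mul_of_nonneg_right ?_ (abs_nonneg _)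
        exact Finset.single_le_sum (f := fun j => |u j|) (fun j _ => abs_nonneg _)
          (Finset.mem_univ i)
    _ = (∑ i, |u i|) * ∑ i, |x i| := by rw [Finset.mul_sum]
-- END gr_explin

-- BEGIN gr_expbar
theorem Gr.exp1 (β : ℝ) (i : ι) : Gr (fun x : ι → ℝ => exp (β * x i)) := by
  classical
  have h := Gr.explin (fun j : ι => if j = i then β else 0)
  have e : (fun x : ι → ℝ => exp (∑ j, (if j = i then β else 0) * x j)) =
      fun x : ι → ℝ => exp (β * x i) := by
    funext x
    congr 1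
    rw [Finset.sum_eq_single i]
    · rw [if_pos rfl]
    · intro j _ hj
      rw [if_neg hj, zero_mul]
    · intro h; exact absurd (Finset.mem_univ _) h
  rw [e] at h
  exact h

theorem Gr.expbar (c : ℝ) : Gr (fun x : Fin n → ℝ => exp (c * SMx.av x)) := by
  have h := Gr.explin (fun _ : Fin n => c / n)
  have e : (fun x : Fin n → ℝ => exp (∑ j, c / n * x j)) =
      fun x : Fin n → ℝ => exp (c * SMx.av x) := by
    funext x
    congr 1
    unfold SMx.av
    rw [← Finset.mul_sum]
    ring
  rw [e] at h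
  exact h
-- END gr_expbar

-- BEGIN gr_pw
theorem Gr.pw (β : ℝ) (i : Fin n) : Gr (fun x : Fin n → ℝ => SMx.pw β x i) := by
  have hS : ∀ x : Fin n → ℝ, 0 < ∑ k, exp (β * x k) := fun x =>
    Finset.sum_pos (fun k _ => exp_pos _) ⟨i, Finset.mem_univ i⟩
  refine ⟨?_, 1, 0, zero_le_one, le_refl _, fun x => ?_⟩
  · unfold SMx.pw SMx.Sm
    exact Continuous.div (by fun_prop) (by fun_prop) fun x => (hS x).ne'
  · unfold SMx.pw SMx.Sm
    rw [zero_mul, exp_zero, one_mul, abs_of_pos (div_pos (exp_pos _) (hS x)), div_le_one (hS x)]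
    exact Finset.single_le_sum (f := fun k => exp (β * x k)) (fun k _ => (exp_pos _).le)
      (Finset.mem_univ i)
-- END gr_pw

-- BEGIN gr_Lg
/-- `log ∑ exp` (for `n = 0` it is constant) -/
theorem Gr.Lg (β : ℝ) : Gr (fun x : Fin n → ℝ => SMx.Lg β x) := by
  rcases Nat.eq_zero_or_pos n with h0 | h0
  · subst h0
    have h1 : (fun x : Fin 0 → ℝ => SMx.Lg β x) = fun _ => 0 := by
      funext x; simp [SMx.Lg, Sm]
    rw [h1]
    exact ⟨continuous_const, 0, 0, le_rfl, le_rfl, fun x => by simp⟩
  · have : NeZero n := ⟨h0.ne'⟩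
    have hpos : ∀ x : Fin n → ℝ, 0 < Sm β x := fun x =>
      Finset.sum_pos (fun k _ => Real.exp_pos _) Finset.univ_nonempty
    have hn1 : (1 : ℝ) ≤ n := by exact_mod_cast h0
    have hlog : 0 ≤ log (n : ℝ) := Real.log_nonneg hn1
    refine ⟨?_, log n + 1, |β|, by linarith, abs_nonneg β, ?_⟩
    · unfold SMx.Lg
      apply Continuous.log _ fun x => (hpos x).ne'
      unfold Sm
      fun_prop
    · intro x
      have hle : ∀ k, |β * x k| ≤ |β| * ∑ i, |x i| := by
        intro k
        rw [abs_mul]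
        exact mul_le_mul_of_nonneg_left
          (Finset.single_le_sum (f := fun i => |x i|) (fun i _ => abs_nonneg _) (Finset.mem_univ k)) (abs_nonneg β)
      have h1 : exp (-(|β| * ∑ i, |x i|)) ≤ Sm β x := by
        have h2 : exp (β * x 0) ≤ Sm β x :=
          Finset.single_le_sum (f := fun k => exp (β * x k)) (fun i _ => (Real.exp_pos _).le) (Finset.mem_univ 0)
        refine le_trans (Real.exp_le_exp.2 ?_) h2
        exact (abs_le.1 (hle 0)).1
      have h3 : Sm β x ≤ n * exp (|β| * ∑ i, |x i|) := by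
        have h4 : Sm β x ≤ ∑ _k : Fin n, exp (|β| * ∑ i, |x i|) :=
          Finset.sum_le_sum fun k _ => Real.exp_le_exp.2 (abs_le.1 (hle k)).2
        simpa using h4
      have h5 : -(|β| * ∑ i, |x i|) ≤ SMx.Lg β x := by
        unfold SMx.Lg
        rw [Real.le_log_iff_exp_le (hpos x)]
        exact h1
      have h6 : SMx.Lg β x ≤ log n + |β| * ∑ i, |x i| := by
        unfold SMx.Lg
        rw [Real.log_le_iff_le_exp (hpos x), Real.exp_add, Real.exp_log (by linarith)]
        exact h3
      have h7 : 0 ≤ |β| * ∑ i, |x i| :=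
        mul_nonneg (abs_nonneg β) (Finset.sum_nonneg fun i _ => abs_nonneg _)
      have h8 : |β| * ∑ i, |x i| + 1 ≤ exp (|β| * ∑ i, |x i|) := Real.add_one_le_exp _
      have h9 : log n * 1 ≤ log n * exp (|β| * ∑ i, |x i|) :=
        mul_le_mul_of_nonneg_left (by linarith) hlog
      rw [add_mul, one_mul]
      exact abs_le.2 ⟨by linarith, by linarith⟩
-- END gr_Lg

-- BEGIN gr_Zf
theorem Gr.Zf (β : ℝ) : Gr (fun x : Fin n → ℝ => SMx.Zf β x) := by
  have h := (Gr.sum Finset.univ (fun k : Fin n => Gr.exp1 β k)).mul (Gr.const (1 / (n : ℝ)))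
  simpa [SMx.Zf, SMx.Sm, div_eq_mul_inv] using h

theorem Gr.av : Gr (fun x : Fin n → ℝ => SMx.av x) :=
  Gr.avf (fun i : Fin n => Gr.coord i)
-- END gr_Zf

-- BEGIN gr_logW
theorem Gr.logW (hn : 0 < n) (β : ℝ) : Gr (fun x : Fin n → ℝ => log (Wf β x)) := by
  have hn' : (0 : ℝ) < n := by exact_mod_cast hn
  have hS : ∀ x : Fin n → ℝ, 0 < SMx.Sm β x := fun x =>
    Finset.sum_pos (fun k _ => exp_pos _) ⟨⟨0, hn⟩, Finset.mem_univ _⟩
  have e : (fun x : Fin n → ℝ => log (SMx.Wf β x)) =
      fun x => SMx.Lg β x - (log n + β ^ 2 / 2) := by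
    funext x
    unfold SMx.Wf SMx.Zf SMx.Lg
    rw [log_mul (div_pos (hS x) hn').ne' (exp_pos _).ne', log_div (hS x).ne' hn'.ne', log_exp]
    ring
  rw [e]
  exact (Gr.Lg β).sub (Gr.const _)
-- END gr_logW

theorem Gr.Wf (β : ℝ) : Gr (fun x : Fin n → ℝ => SMx.Wf β x) := by
  have := (Gr.Zf (n := n) β).mul (Gr.const (exp (-(β ^ 2 / 2))))
  simpa [SMx.Wf] using this

theorem Gr.qA (Δ : Fin n → Fin n → ℝ) (β : ℝ) : Gr (fun x => SMx.qA Δ β x) := by
  unfold SMx.qA
  exact Gr.sum _ fun i => Gr.sum _ fun j => ((Gr.pw β i).mul (Gr.pw β j)).const_mul _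

theorem Gr.qD (Δ : Fin n → Fin n → ℝ) (β : ℝ) : Gr (fun x => SMx.qD Δ β x) := by
  unfold SMx.qD
  exact Gr.sum _ fun i => Gr.sum _ fun j => ((Gr.pw β i).mul (Gr.pw β j)).const_mul _

theorem Gr.qN (Δ : Fin n → Fin n → ℝ) (β : ℝ) : Gr (fun x => SMx.qN Δ β x) := by
  unfold SMx.qN
  exact Gr.sum _ fun i => (Gr.pw β i).mul (Gr.sum _ fun j => (Gr.pw β j).const_mul _).sq

/-! integrability -/

-- BEGIN int_exp
theorem int_exp_one (K : ℝ) : Integrable (fun x : ℝ => exp (K * |x|)) (gaussianReal 0 1) := by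
  have h1 : Integrable (fun x : ℝ => exp (K * x) + exp (-K * x)) (gaussianReal 0 1) :=
    (integrable_exp_mul_gaussianReal K).add (integrable_exp_mul_gaussianReal (-K))
  refine h1.mono' (by fun_prop) (Filter.Eventually.of_forall fun x => ?_)
  rw [norm_eq_abs, abs_of_pos (exp_pos _)]
  rcases le_total 0 x with hx | hx
  · rw [abs_of_nonneg hx]
    linarith [exp_pos (-K * x)]
  · rw [abs_of_nonpos hx]
    have e : K * -x = -K * x := by ring
    rw [e]
    linarith [exp_pos (K * x)]

/-- `exp (K ∑ |z_i|)` is integrable -/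
theorem int_exp (K : ℝ) : Integrable (fun z : ι → ℝ => exp (K * ∑ i, |z i|)) (γ ι) := by
  have e : (fun z : ι → ℝ => exp (K * ∑ i, |z i|)) = fun z : ι → ℝ => ∏ i, exp (K * |z i|) := by
    funext z
    rw [Finset.mul_sum, exp_sum]
  rw [e]
  unfold γ
  exact Integrable.fintype_prod (fun _ => int_exp_one K)
-- END int_exp

-- BEGIN gr_lin
/-- composition with a linear map -/
theorem Gr.comp_lin {g : (Fin n → ℝ) → ℝ} (hg : Gr g) (A : Fin n → ι → ℝ) :
    Gr (fun z => g (lin A z)) := by
  obtain ⟨hc, C, K, hC, hK, hb⟩ := hg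
  refine ⟨hc.comp (by unfold lin; fun_prop), C, K * ∑ i, ∑ k, |A i k|, hC,
    mul_nonneg hK (Finset.sum_nonneg fun i _ => Finset.sum_nonneg fun k _ => abs_nonneg _),
    fun z => (hb _).trans ?_⟩
  apply mul_le_mul_of_nonneg_left _ hC
  apply exp_le_exp.2
  rw [mul_assoc]
  apply mul_le_mul_of_nonneg_left _ hK
  rw [Finset.sum_mul]
  apply Finset.sum_le_sum
  intro i _
  unfold lin
  refine (Finset.abs_sum_le_sum_abs _ _).trans ?_
  rw [Finset.sum_mul]
  apply Finset.sum_le_sum
  intro k _
  rw [abs_mul]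
  apply mul_le_mul_of_nonneg_left _ (abs_nonneg _)
  exact Finset.single_le_sum (f := fun i => |z i|) (fun j _ => abs_nonneg _) (Finset.mem_univ k)
-- END gr_lin

-- BEGIN gr_int
theorem Gr.int {g : (ι → ℝ) → ℝ} (hg : Gr g) : Integrable g (γ ι) := by
  obtain ⟨hc, C, K, hC, hK, hb⟩ := hg
  refine ((int_exp K).const_mul C).mono' hc.aestronglyMeasurable ?_
  exact Filter.Eventually.of_forall fun x => by rw [norm_eq_abs]; exact hb x
-- END gr_int

theorem Gr.integrable {g : (Fin n → ℝ) → ℝ} (hg : Gr g) (A : Fin n → ι → ℝ) :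
    Integrable (fun z => g (lin A z)) (γ ι) := (hg.comp_lin A).int

theorem EG_add {f g : (Fin n → ℝ) → ℝ} (hf : Gr f) (hg : Gr g) (A : Fin n → ι → ℝ) :
    EG A (fun x => f x + g x) = EG A f + EG A g :=
  integral_add (hf.integrable A) (hg.integrable A)

theorem EG_sub {f g : (Fin n → ℝ) → ℝ} (hf : Gr f) (hg : Gr g) (A : Fin n → ι → ℝ) :
    EG A (fun x => f x - g x) = EG A f - EG A g :=
  integral_sub (hf.integrable A) (hg.integrable A)

theorem EG_const_mul (c : ℝ) (f : (Fin n → ℝ) → ℝ) (A : Fin n → ι → ℝ) :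
    EG A (fun x => c * f x) = c * EG A f := integral_const_mul c _

theorem EG_const (c : ℝ) (A : Fin n → ι → ℝ) : EG A (fun _ => c) = c := by
  simp [EG]

theorem EG_sum {κ : Type} (s : Finset κ) {f : κ → (Fin n → ℝ) → ℝ} (hf : ∀ i, Gr (f i))
    (A : Fin n → ι → ℝ) : EG A (fun x => ∑ i ∈ s, f i x) = ∑ i ∈ s, EG A (f i) :=
  integral_finsetSum s fun i _ => (hf i).integrable A

theorem EG_mono {f g : (Fin n → ℝ) → ℝ} (hf : Gr f) (hg : Gr g) (h : ∀ x, f x ≤ g x)
    (A : Fin n → ι → ℝ) : EG A f ≤ EG A g :=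
  integral_mono (hf.integrable A) (hg.integrable A) fun z => h (lin A z)

/-! exponential moments -/

-- BEGIN mgf1
/-- moment generating function of the standard Gaussian measure -/
theorem mgf1 (v : ι → ℝ) : ∫ z, exp (∑ k, v k * z k) ∂(γ ι) = exp ((∑ k, v k ^ 2) / 2) := by
  have e : (fun z : ι → ℝ => exp (∑ k, v k * z k)) = fun z : ι → ℝ => ∏ k, exp (v k * z k) := by
    funext z
    rw [exp_sum]
  rw [e]
  unfold γ
  rw [integral_fintype_prod_eq_prod (fun k x => exp (v k * x))]
  have h : ∀ k, ∫ x, exp (v k * x) ∂(gaussianReal 0 1) = exp (v k ^ 2 / 2) := by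
    intro k
    have h1 := congrFun (mgf_fun_id_gaussianReal (μ := 0) (v := 1)) (v k)
    have h2 : ∫ x, exp (v k * x) ∂(gaussianReal 0 1) =
        ProbabilityTheory.mgf (fun x => x) (gaussianReal 0 1) (v k) := rfl
    rw [h2, h1]
    simp
  rw [Finset.prod_congr rfl fun k _ => h k, ← exp_sum, Finset.sum_div]
-- END mgf1

-- BEGIN mgf
/-- moment generating function of `A z` -/
theorem mgf (A : Fin n → ι → ℝ) (u : Fin n → ℝ) :
    EG A (fun x => exp (∑ i, u i * x i)) = exp ((∑ i, ∑ j, u i * u j * cv A i j) / 2) := by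
  have h1 : ∀ z : ι → ℝ, ∑ i, u i * lin A z i = ∑ k, (∑ i, u i * A i k) * z k := by
    intro z
    unfold lin
    simp only [Finset.mul_sum, Finset.sum_mul]
    rw [Finset.sum_comm]
    exact Finset.sum_congr rfl fun k _ => Finset.sum_congr rfl fun i _ => by ring
  have h2 : ∑ k, (∑ i, u i * A i k) ^ 2 = ∑ i, ∑ j, u i * u j * cv A i j := by
    have h3 : ∀ k, (∑ i, u i * A i k) ^ 2 = ∑ i, ∑ j, u i * u j * (A i k * A j k) := by
      intro k
      rw [pow_two, Finset.sum_mul_sum]
      exact Finset.sum_congr rfl fun i _ => Finset.sum_congr rfl fun j _ => by ring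
    simp only [h3]
    rw [Finset.sum_comm]
    refine Finset.sum_congr rfl fun i _ => ?_
    rw [Finset.sum_comm]
    refine Finset.sum_congr rfl fun j _ => ?_
    unfold cv
    rw [Finset.mul_sum]
  unfold EG
  simp only [h1]
  rw [mgf1, h2]
-- END mgf

-- BEGIN mom2
private theorem mom2_g1 : ∫ x, x ∂(gaussianReal 0 1) = 0 := integral_id_gaussianReal

private theorem mom2_g2 : ∫ x, x * x ∂(gaussianReal 0 1) = 1 := by
  have h1 : Var[id; gaussianReal 0 1] = ((1 : NNReal) : ℝ) := variance_id_gaussianReal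
  have h2 : ∫ x, id x ∂(gaussianReal 0 1) = 0 := mom2_g1
  rw [variance_of_integral_eq_zero aemeasurable_id h2] at h1
  rw [show ((1 : NNReal) : ℝ) = 1 from rfl] at h1
  rw [← h1]
  refine integral_congr_ae (Filter.Eventually.of_forall fun x => ?_)
  simp only [id]
  ring

private theorem mom2_kl [DecidableEq ι] (k l : ι) :
    ∫ z, z k * z l ∂(γ ι) = if k = l then 1 else 0 := by
  have h1 : ∀ z : ι → ℝ, z k * z l =
      ∏ i, ((fun i (x : ℝ) => (if i = k then x else 1) * (if i = l then x else 1)) i (z i)) := by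
    intro z
    simp only [Finset.prod_mul_distrib, Finset.prod_ite_eq', Finset.mem_univ, if_true]
  have h2 : ∫ z, z k * z l ∂(γ ι) =
      ∏ i, ∫ x, (if i = k then x else 1) * (if i = l then x else 1) ∂(gaussianReal 0 1) := by
    simp only [h1]
    unfold γ
    exact integral_fintype_prod_eq_prod (𝕜 := ℝ)
      (fun i (x : ℝ) => (if i = k then x else 1) * (if i = l then x else 1))
  rw [h2]
  split_ifs with h
  · subst h
    refine Finset.prod_eq_one fun i _ => ?_
    by_cases hi : i = k
    · simp only [if_pos hi]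
      exact mom2_g2
    · simp [if_neg hi]
  · refine Finset.prod_eq_zero (Finset.mem_univ k) ?_
    simp only [if_true, if_neg h, mul_one]
    exact mom2_g1

private theorem mom2_k [DecidableEq ι] (k : ι) : ∫ z, z k ∂(γ ι) = 0 := by
  have h1 : ∀ z : ι → ℝ, z k = ∏ i, ((fun i (x : ℝ) => if i = k then x else 1) i (z i)) := by
    intro z
    simp only [Finset.prod_ite_eq', Finset.mem_univ, if_true]
  have h2 : ∫ z, z k ∂(γ ι) = ∏ i, ∫ x, (if i = k then x else 1) ∂(gaussianReal 0 1) := by
    have h3 : ∫ z : ι → ℝ, z k ∂(γ ι) =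
        ∫ z : ι → ℝ, ∏ i, ((fun i (x : ℝ) => if i = k then x else 1) i (z i)) ∂(γ ι) :=
      integral_congr_ae (Filter.Eventually.of_forall h1)
    rw [h3]
    unfold γ
    exact integral_fintype_prod_eq_prod (𝕜 := ℝ) (fun i (x : ℝ) => if i = k then x else 1)
  rw [h2]
  refine Finset.prod_eq_zero (Finset.mem_univ k) ?_
  simp only [if_true]
  exact mom2_g1

/-- first and second moments of `A z` -/
theorem mom1 (A : Fin n → ι → ℝ) (i : Fin n) : EG A (fun x => x i) = 0 := by
  classical
  unfold EG lin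
  rw [integral_finsetSum _ fun k _ => ((Gr.coord k).const_mul (A i k)).int]
  refine Finset.sum_eq_zero fun k _ => ?_
  rw [integral_const_mul, mom2_k, mul_zero]

theorem mom2 (A : Fin n → ι → ℝ) (i j : Fin n) : EG A (fun x => x i * x j) = cv A i j := by
  classical
  have h1 : ∀ z : ι → ℝ, lin A z i * lin A z j = ∑ k, ∑ l, A i k * A j l * (z k * z l) := by
    intro z
    unfold lin
    rw [Finset.sum_mul_sum]
    refine Finset.sum_congr rfl fun k _ => Finset.sum_congr rfl fun l _ => ?_
    ring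
  have hg : ∀ k l : ι, Integrable (fun z : ι → ℝ => A i k * A j l * (z k * z l)) (γ ι) :=
    fun k l => (((Gr.coord k).mul (Gr.coord l)).const_mul (A i k * A j l)).int
  unfold EG cv
  simp only [h1]
  rw [integral_finsetSum _ fun k _ => integrable_finsetSum _ fun l _ => hg k l]
  refine Finset.sum_congr rfl fun k _ => ?_
  rw [integral_finsetSum _ fun l _ => hg k l]
  simp only [integral_const_mul, mom2_kl]
  simp
-- END mom2

/-! Stein and interpolation -/

-- BEGIN stein1
private theorem stein1_int (g : ℝ → ℝ) (hg : Continuous g) (C K : ℝ)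
    (hb : ∀ x, |g x| ≤ C * exp (K * |x|)) : Integrable g (gaussianReal 0 1) := by
  have h1 : Integrable (fun x : ℝ => C * (exp (K * x) + exp (-K * x))) (gaussianReal 0 1) :=
    ((integrable_exp_mul_gaussianReal K).add (integrable_exp_mul_gaussianReal (-K))).const_mul C
  have hC : 0 ≤ C := by
    have h2 := (abs_nonneg (g 0)).trans (hb 0)
    rw [abs_zero, mul_zero, exp_zero, mul_one] at h2
    exact h2
  refine h1.mono' hg.aestronglyMeasurable (Filter.Eventually.of_forall fun x => ?_)
  rw [Real.norm_eq_abs]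
  refine (hb x).trans (mul_le_mul_of_nonneg_left ?_ hC)
  have e1 := exp_pos (K * x)
  have e2 := exp_pos (-K * x)
  rcases abs_cases x with ⟨h, _⟩ | ⟨h, _⟩
  · rw [h]
    linarith
  · rw [h, show K * -x = -K * x by ring]
    linarith

private theorem stein1_smul (g : ℝ → ℝ) (hg : Continuous g) (C K : ℝ)
    (hb : ∀ x, |g x| ≤ C * exp (K * |x|)) :
    Integrable (fun x => g x * gaussianPDFReal 0 1 x) := by
  have h := stein1_int g hg C K hb
  rw [gaussianReal_of_var_ne_zero _ one_ne_zero, integrable_withDensity_iff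
    (measurable_gaussianPDF _ _) (ae_of_all _ fun _ => gaussianPDF_lt_top)] at h
  simpa only [toReal_gaussianPDF] using h

private theorem stein1_deriv (x : ℝ) :
    HasDerivAt (gaussianPDFReal 0 1) (-(x * gaussianPDFReal 0 1 x)) x := by
  rw [gaussianPDFReal_def]
  have h1 : HasDerivAt (fun y : ℝ => -(y - 0) ^ 2 / (2 * ((1 : NNReal) : ℝ))) (-x) x := by
    have h2 := ((hasDerivAt_id x).pow 2).neg.div_const 2
    refine (h2.congr_deriv ?_).congr_of_eventuallyEq (Filter.Eventually.of_forall fun y => ?_)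
    · simp
      ring
    · simp
  refine (h1.exp.const_mul _).congr_deriv ?_
  ring

/-- Stein in dimension one -/
theorem stein1 (h h' : ℝ → ℝ) (hd : ∀ x, HasDerivAt h (h' x) x) (hc : Continuous h') (C K : ℝ)
    (hb : ∀ x, |h x| ≤ C * exp (K * |x|)) (hb' : ∀ x, |h' x| ≤ C * exp (K * |x|)) :
    ∫ x, x * h x ∂(gaussianReal 0 1) = ∫ x, h' x ∂(gaussianReal 0 1) := by
  have hcont : Continuous h := continuous_iff_continuousAt.2 fun x => (hd x).continuousAt
  have hb2 : ∀ x, |x * h x| ≤ C * exp ((K + 1) * |x|) := by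
    intro x
    rw [abs_mul, show (K + 1) * |x| = |x| + K * |x| by ring, exp_add]
    have h1 : |x| ≤ exp |x| := by
      have := add_one_le_exp |x|
      linarith
    calc |x| * |h x| ≤ exp |x| * (C * exp (K * |x|)) :=
          mul_le_mul h1 (hb x) (abs_nonneg _) (exp_pos _).le
      _ = C * (exp |x| * exp (K * |x|)) := by ring
  have i1 := stein1_smul (fun x => x * h x) (continuous_id.mul hcont) C (K + 1) hb2
  have i2 := stein1_smul h' hc C K hb'
  have i3 := stein1_smul h hcont C K hb
  have key := integral_mul_deriv_eq_deriv_mul_of_integrable (u := h) (v := gaussianPDFReal 0 1)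
    (u' := h') (v' := fun x => -(x * gaussianPDFReal 0 1 x)) (fun x _ => hd x)
    (fun x _ => stein1_deriv x) (by
      have := i1.neg
      refine this.congr (Filter.Eventually.of_forall fun x => ?_)
      simp only [Pi.neg_apply, Pi.mul_apply]
      ring) i2 i3
  rw [integral_gaussianReal_eq_integral_smul one_ne_zero,
    integral_gaussianReal_eq_integral_smul one_ne_zero]
  have e1 : ∫ x, gaussianPDFReal 0 1 x • (x * h x) = -∫ x, h x * -(x * gaussianPDFReal 0 1 x) := by
    rw [← integral_neg]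
    refine integral_congr_ae (Filter.Eventually.of_forall fun x => ?_)
    simp only [smul_eq_mul]
    ring
  have e2 : ∫ x, gaussianPDFReal 0 1 x • h' x = ∫ x, h' x * gaussianPDFReal 0 1 x := by
    refine integral_congr_ae (Filter.Eventually.of_forall fun x => ?_)
    simp only [smul_eq_mul]
    ring
  rw [e1, e2, key, neg_neg]
-- END stein1

-- BEGIN stein
private theorem stein_mp [DecidableEq ι] (k : ι) :
    MeasurePreserving (fun p : (ι → ℝ) × ℝ => Function.update p.1 k p.2)
      ((γ ι).prod (gaussianReal 0 1)) (γ ι) := by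
  refine ⟨measurable_update', ?_⟩
  symm
  refine Measure.pi_eq fun s hs => ?_
  rw [Measure.map_apply measurable_update' (MeasurableSet.univ_pi hs)]
  have e1 : (fun p : (ι → ℝ) × ℝ => Function.update p.1 k p.2) ⁻¹' (Set.univ.pi s) =
      (Set.univ.pi (Function.update s k Set.univ)) ×ˢ (s k) := by
    ext p
    simp only [Set.mem_preimage, Set.mem_pi, Set.mem_univ, true_implies, Set.mem_prod]
    constructor
    · intro h
      refine ⟨fun i => ?_, ?_⟩
      · by_cases hi : i = k
        · subst hi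
          simp
        · have := h i
          rw [Function.update_of_ne hi] at this
          rw [Function.update_of_ne hi]
          exact this
      · have := h k
        rw [Function.update_self] at this
        exact this
    · rintro ⟨h1, h2⟩ i
      by_cases hi : i = k
      · subst hi
        rw [Function.update_self]
        exact h2
      · have := h1 i
        rw [Function.update_of_ne hi] at this
        rw [Function.update_of_ne hi]
        exact this
  rw [e1, Measure.prod_prod, γ, Measure.pi_pi,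
    ← Finset.mul_prod_erase Finset.univ (fun i => (gaussianReal 0 1) (Function.update s k Set.univ i))
      (Finset.mem_univ k),
    ← Finset.mul_prod_erase Finset.univ (fun i => (gaussianReal 0 1) (s i)) (Finset.mem_univ k)]
  rw [Function.update_self, measure_univ, one_mul, mul_comm]
  congr 1
  refine Finset.prod_congr rfl fun i hi => ?_
  rw [Function.update_of_ne (Finset.ne_of_mem_erase hi)]

private theorem stein_fub [DecidableEq ι] (F : (ι → ℝ) → ℝ) (hF : Integrable F (γ ι)) (k : ι) :
    ∫ z, F z ∂(γ ι) = ∫ z, ∫ t, F (Function.update z k t) ∂(gaussianReal 0 1) ∂(γ ι) := by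
  have hmp := stein_mp (ι := ι) k
  have h1 : Integrable (fun p : (ι → ℝ) × ℝ => F (Function.update p.1 k p.2))
      ((γ ι).prod (gaussianReal 0 1)) := hmp.integrable_comp_of_integrable hF
  rw [← integral_prod _ h1]
  conv_lhs => rw [← hmp.map_eq]
  rw [integral_map hmp.measurable.aemeasurable]
  rw [hmp.map_eq]
  exact hF.aestronglyMeasurable

private theorem stein_sum [DecidableEq ι] (z : ι → ℝ) (k : ι) (t : ℝ) :
    ∑ i, |Function.update z k t i| ≤ ∑ i, |z i| + |t| := by
  have h1 : ∀ i, |Function.update z k t i| ≤ |z i| + (if i = k then |t| else 0) := by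
    intro i
    by_cases hi : i = k
    · subst hi
      rw [Function.update_self, if_pos rfl]
      have := abs_nonneg (z i)
      linarith
    · rw [Function.update_of_ne hi, if_neg hi, add_zero]
  refine (Finset.sum_le_sum fun i _ => h1 i).trans ?_
  rw [Finset.sum_add_distrib, Finset.sum_ite_eq' Finset.univ k, if_pos (Finset.mem_univ k)]

private theorem stein_bd [DecidableEq ι] {g : (ι → ℝ) → ℝ} {C K C' K' : ℝ} (hC : 0 ≤ C)
    (hK : 0 ≤ K) (hC' : 0 ≤ C') (hK' : 0 ≤ K')
    (hb : ∀ x, |g x| ≤ C * exp (K * ∑ i, |x i|)) (z : ι → ℝ) (k : ι) (t : ℝ) :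
    |g (Function.update z k t)| ≤ (C + C') * exp ((K + K') * ∑ i, |z i|) * exp ((K + K') * |t|) := by
  have hS : 0 ≤ ∑ i, |Function.update z k t i| := Finset.sum_nonneg fun i _ => abs_nonneg _
  rw [mul_assoc, ← exp_add]
  refine (hb _).trans (mul_le_mul (by linarith) (exp_le_exp.2 ?_) (exp_pos _).le (by linarith))
  calc K * ∑ i, |Function.update z k t i| ≤ (K + K') * ∑ i, |Function.update z k t i| :=
        mul_le_mul_of_nonneg_right (by linarith) hS
    _ ≤ (K + K') * (∑ i, |z i| + |t|) :=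
        mul_le_mul_of_nonneg_left (stein_sum z k t) (by linarith)
    _ = (K + K') * ∑ i, |z i| + (K + K') * |t| := by ring

/-- Stein for one coordinate of the product -/
theorem stein [DecidableEq ι] (g g1 : (ι → ℝ) → ℝ) (k : ι) (hg : Gr g) (hg1 : Gr g1)
    (hd : ∀ z, HasDerivAt (fun t => g (Function.update z k t)) (g1 z) (z k)) :
    ∫ z, z k * g z ∂(γ ι) = ∫ z, g1 z ∂(γ ι) := by
  have i1 : Integrable (fun z : ι → ℝ => z k * g z) (γ ι) := ((Gr.coord k).mul hg).int
  rw [stein_fub _ i1 k, stein_fub _ hg1.int k]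
  refine integral_congr_ae (Filter.Eventually.of_forall fun z => ?_)
  obtain ⟨C, K, hC, hK, hb⟩ := hg.2
  obtain ⟨C', K', hC', hK', hb'⟩ := hg1.2
  have key := stein1 (fun t => g (Function.update z k t)) (fun t => g1 (Function.update z k t))
    (fun t => by
      have h1 := hd (Function.update z k t)
      rw [Function.update_self] at h1
      simpa only [Function.update_idem] using h1)
    (hg1.1.comp (continuous_const.update k continuous_id))
    ((C + C') * exp ((K + K') * ∑ i, |z i|)) (K + K')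
    (fun t => stein_bd hC hK hC' hK' hb z k t)
    (fun t => by
      have h1 := stein_bd hC' hK' hC hK hb' z k t
      rw [add_comm C' C, add_comm K' K] at h1
      exact h1)
  simp only [Function.update_self]
  exact key
-- END stein

-- BEGIN steinlin
/-- Stein at the linear image -/
theorem steinlin (A : Fin n → ι → ℝ) (h : (Fin n → ℝ) → ℝ) (h1 : Fin n → (Fin n → ℝ) → ℝ)
    (hd : Der h h1) (hg : Gr h) (hg1 : ∀ j, Gr (h1 j)) (k : ι) :
    ∫ z, z k * h (lin A z) ∂(γ ι) = ∑ j, A j k * EG A (h1 j) := by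
  classical
  have hG1 : ∀ j, Gr (fun z : ι → ℝ => A j k * h1 j (lin A z)) := fun j =>
    ((hg1 j).comp_lin A).const_mul (A j k)
  have hder : ∀ z : ι → ℝ, HasDerivAt (fun t => h (lin A (Function.update z k t)))
      (∑ j, A j k * h1 j (lin A z)) (z k) := by
    intro z
    have hlin : ∀ t : ℝ, lin A (Function.update z k t) = fun i => lin A z i + A i k * (t - z k) := by
      intro t
      funext i
      unfold lin
      rw [← Finset.add_sum_erase _ _ (Finset.mem_univ k), ← Finset.add_sum_erase Finset.univ (fun l => A i l * z l) (Finset.mem_univ k),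
        Function.update_self]
      have h2 : ∑ l ∈ Finset.univ.erase k, A i l * Function.update z k t l = ∑ l ∈ Finset.univ.erase k, A i l * z l := by
        apply Finset.sum_congr rfl
        intro l hl
        rw [Function.update_of_ne (Finset.ne_of_mem_erase hl)]
      rw [h2]; ring
    have h3 : HasDerivAt (fun t => lin A (Function.update z k t)) (fun i => A i k) (z k) := by
      rw [hasDerivAt_pi]
      intro i
      have h4 : (fun t => lin A (Function.update z k t) i) = fun t => lin A z i + A i k * (t - z k) := by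
        funext t; rw [hlin t]
      rw [h4]
      have h5 := (((hasDerivAt_id (z k)).sub_const (z k)).const_mul (A i k)).const_add (lin A z i)
      simpa using h5
    have h6 : HasFDerivAt h (∑ i, h1 i (lin A z) • (ContinuousLinearMap.proj i : (Fin n → ℝ) →L[ℝ] ℝ))
        (lin A (Function.update z k (z k))) := by
      rw [Function.update_eq_self]; exact hd (lin A z)
    have h7 := h6.comp_hasDerivAt (z k) h3
    have h8 : (∑ i, h1 i (lin A z) • (ContinuousLinearMap.proj i : (Fin n → ℝ) →L[ℝ] ℝ)) (fun i => A i k) =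
        ∑ j, A j k * h1 j (lin A z) := by
      rw [FunLike.coe_sum, Finset.sum_apply]
      apply Finset.sum_congr rfl
      intro i _
      simp [mul_comm]
    rw [h8] at h7
    exact h7
  rw [stein (fun z => h (lin A z)) (fun z => ∑ j, A j k * h1 j (lin A z)) k (hg.comp_lin A)
    (Gr.sum Finset.univ hG1) hder]
  rw [integral_finsetSum _ fun j _ => (hG1 j).int]
  apply Finset.sum_congr rfl
  intro j _
  exact integral_const_mul _ _
-- END steinlin

-- BEGIN dunder
private theorem dunder_path_le (a b : Fin n → Fin n → ℝ) (θ : ℝ) (i : Fin n) (k : Fin n ⊕ Fin n) :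
    |path a b θ i k| ≤ ∑ i, ∑ k, (|a i k| + |b i k|) := by
  have h0 : ∀ i k, |a i k| + |b i k| ≤ ∑ i, ∑ k, (|a i k| + |b i k|) := by
    intro i k
    have h1 : |a i k| + |b i k| ≤ ∑ k, (|a i k| + |b i k|) :=
      Finset.single_le_sum (f := fun k => |a i k| + |b i k|) (fun j _ => by positivity)
        (Finset.mem_univ k)
    have h2 : ∑ k, (|a i k| + |b i k|) ≤ ∑ i, ∑ k, (|a i k| + |b i k|) :=
      Finset.single_le_sum (f := fun i => ∑ k, (|a i k| + |b i k|))
        (fun j _ => Finset.sum_nonneg fun l _ => by positivity) (Finset.mem_univ i)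
    exact h1.trans h2
  rcases k with k | k
  · show |cos θ * a i k| ≤ _
    rw [abs_mul]
    have := abs_cos_le_one θ
    have h1 := abs_nonneg (a i k)
    have h2 := abs_nonneg (b i k)
    have h3 := h0 i k
    nlinarith
  · show |sin θ * b i k| ≤ _
    rw [abs_mul]
    have := abs_sin_le_one θ
    have h1 := abs_nonneg (a i k)
    have h2 := abs_nonneg (b i k)
    have h3 := h0 i k
    nlinarith

private theorem dunder_path'_le (a b : Fin n → Fin n → ℝ) (θ : ℝ) (i : Fin n) (k : Fin n ⊕ Fin n) :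
    |path' a b θ i k| ≤ ∑ i, ∑ k, (|a i k| + |b i k|) := by
  have h0 : ∀ i k, |a i k| + |b i k| ≤ ∑ i, ∑ k, (|a i k| + |b i k|) := by
    intro i k
    have h1 : |a i k| + |b i k| ≤ ∑ k, (|a i k| + |b i k|) :=
      Finset.single_le_sum (f := fun k => |a i k| + |b i k|) (fun j _ => by positivity)
        (Finset.mem_univ k)
    have h2 : ∑ k, (|a i k| + |b i k|) ≤ ∑ i, ∑ k, (|a i k| + |b i k|) :=
      Finset.single_le_sum (f := fun i => ∑ k, (|a i k| + |b i k|))
        (fun j _ => Finset.sum_nonneg fun l _ => by positivity) (Finset.mem_univ i)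
    exact h1.trans h2
  rcases k with k | k
  · show |-(sin θ * a i k)| ≤ _
    rw [abs_neg, abs_mul]
    have := abs_sin_le_one θ
    have h1 := abs_nonneg (a i k)
    have h2 := abs_nonneg (b i k)
    have h3 := h0 i k
    nlinarith
  · show |cos θ * b i k| ≤ _
    rw [abs_mul]
    have := abs_cos_le_one θ
    have h1 := abs_nonneg (a i k)
    have h2 := abs_nonneg (b i k)
    have h3 := h0 i k
    nlinarith

private theorem dunder_lin_le {κ : Type} [Fintype κ] (A : Fin n → κ → ℝ) (M : ℝ)
    (hM : ∀ i k, |A i k| ≤ M) (z : κ → ℝ) (i : Fin n) : |lin A z i| ≤ M * ∑ k, |z k| := by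
  unfold lin
  refine (Finset.abs_sum_le_sum_abs _ _).trans ?_
  rw [Finset.mul_sum]
  apply Finset.sum_le_sum
  intro k _
  rw [abs_mul]
  exact mul_le_mul_of_nonneg_right (hM i k) (abs_nonneg _)

/-- differentiation under the expectation along the path -/
theorem dunder (a b : Fin n → Fin n → ℝ) (g : (Fin n → ℝ) → ℝ) (g1 : Fin n → (Fin n → ℝ) → ℝ)
    (hd : Der g g1) (hg : Gr g) (hg1 : ∀ i, Gr (g1 i)) (θ : ℝ) :
    HasDerivAt (fun θ => EG (path a b θ) g)
      (∫ z, ∑ i, g1 i (lin (path a b θ) z) * lin (path' a b θ) z i ∂(γ (Fin n ⊕ Fin n))) θ := by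
  set M : ℝ := ∑ i, ∑ k, (|a i k| + |b i k|) with hM
  have hM0 : 0 ≤ M := Finset.sum_nonneg fun i _ => Finset.sum_nonneg fun k _ => by positivity
  choose hc C K hC hK hb using hg1
  have key := hasDerivAt_integral_of_dominated_loc_of_deriv_le (μ := γ (Fin n ⊕ Fin n))
    (F := fun θ z => g (lin (path a b θ) z))
    (F' := fun θ z => ∑ i, g1 i (lin (path a b θ) z) * lin (path' a b θ) z i)
    (x₀ := θ) (s := Set.univ)
    (bound := fun z => ∑ i, C i * M * exp ((K i * (n * M) + 1) * ∑ k, |z k|))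
    Filter.univ_mem
    (Filter.Eventually.of_forall fun t => (hg.comp_lin (path a b t)).1.aestronglyMeasurable)
    (hg.integrable (path a b θ))
    ?_ ?_ ?_ ?_
  · exact key.2
  · apply Continuous.aestronglyMeasurable
    apply continuous_finsetSum
    intro i _
    have h1 : Continuous (fun z : (Fin n ⊕ Fin n) → ℝ => lin (path a b θ) z) := by
      unfold lin; fun_prop
    have h2 : Continuous (fun z : (Fin n ⊕ Fin n) → ℝ => lin (path' a b θ) z i) := by
      unfold lin; fun_prop
    exact ((hc i).comp h1).mul h2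
  · refine Filter.Eventually.of_forall fun z t _ => ?_
    rw [norm_eq_abs]
    refine (Finset.abs_sum_le_sum_abs _ _).trans ?_
    apply Finset.sum_le_sum
    intro i _
    rw [abs_mul]
    set S := ∑ k, |z k| with hS
    have hS0 : 0 ≤ S := Finset.sum_nonneg fun k _ => abs_nonneg _
    have h1 : |lin (path' a b t) z i| ≤ M * exp S := by
      refine (dunder_lin_le _ M (fun i k => dunder_path'_le a b t i k) z i).trans ?_
      apply mul_le_mul_of_nonneg_left _ hM0
      have := add_one_le_exp S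
      linarith
    have h2 : ∑ j, |lin (path a b t) z j| ≤ n * M * S := by
      have h3 : ∀ j ∈ (Finset.univ : Finset (Fin n)), |lin (path a b t) z j| ≤ M * S := fun j _ =>
        dunder_lin_le _ M (fun i k => dunder_path_le a b t i k) z j
      have h4 := Finset.sum_le_card_nsmul _ _ _ h3
      rw [Finset.card_univ, Fintype.card_fin, nsmul_eq_mul] at h4
      linarith
    have h5 : |g1 i (lin (path a b t) z)| ≤ C i * exp (K i * (n * M * S)) := by
      refine (hb i _).trans ?_
      apply mul_le_mul_of_nonneg_left _ (hC i)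
      exact exp_le_exp.2 (mul_le_mul_of_nonneg_left h2 (hK i))
    calc |g1 i (lin (path a b t) z)| * |lin (path' a b t) z i|
        ≤ (C i * exp (K i * (n * M * S))) * (M * exp S) :=
          mul_le_mul h5 h1 (abs_nonneg _) (mul_nonneg (hC i) (exp_pos _).le)
      _ = C i * M * exp ((K i * (n * M) + 1) * S) := by
          have e : (K i * (n * M) + 1) * S = K i * (n * M * S) + S := by ring
          rw [e, exp_add]
          ring
  · exact integrable_finsetSum _ fun i _ => (int_exp _).const_mul _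
  · refine Filter.Eventually.of_forall fun z t _ => ?_
    have h1 : HasDerivAt (fun t => lin (path a b t) z) (fun i => lin (path' a b t) z i) t := by
      rw [hasDerivAt_pi]
      intro i
      unfold lin
      apply HasDerivAt.fun_sum
      intro k _
      apply HasDerivAt.mul_const
      rcases k with k | k
      · show HasDerivAt (fun t => cos t * a i k) (-(sin t * a i k)) t
        have := (hasDerivAt_cos t).mul_const (a i k)
        rw [neg_mul] at this
        exact this
      · exact (hasDerivAt_sin t).mul_const (b i k)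
    have h2 := (hd (lin (path a b t) z)).comp_hasDerivAt t h1
    have e : (∑ i, g1 i (lin (path a b t) z) • (ContinuousLinearMap.proj i : (Fin n → ℝ) →L[ℝ] ℝ))
        (fun i => lin (path' a b t) z i) =
        ∑ i, g1 i (lin (path a b t) z) * lin (path' a b t) z i := by
      rw [ContinuousLinearMap.sum_apply]
      apply Finset.sum_congr rfl
      intro i _
      simp
    rw [e] at h2
    exact h2
-- END dunder

-- BEGIN pathcv
/-- the mixed covariance of velocity and position -/
theorem pathcv' (a b : Fin n → Fin n → ℝ) (θ : ℝ) (i j : Fin n) :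
    ∑ k, path' a b θ i k * path a b θ j k = sin θ * cos θ * dl a b i j := by
  unfold path' path dl cv
  rw [Fintype.sum_sum_type, ← Finset.sum_sub_distrib, Finset.mul_sum, ← Finset.sum_add_distrib]
  refine Finset.sum_congr rfl fun k _ => ?_
  simp only [Sum.elim_inl, Sum.elim_inr]
  ring

theorem pathcv (a b : Fin n → Fin n → ℝ) (θ : ℝ) (i j : Fin n) :
    cv (path a b θ) i j = cos θ ^ 2 * cv a i j + sin θ ^ 2 * cv b i j := by
  unfold cv path
  rw [Fintype.sum_sum_type, Finset.mul_sum, Finset.mul_sum, ← Finset.sum_add_distrib,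
    ← Finset.sum_add_distrib]
  refine Finset.sum_congr rfl fun k _ => ?_
  simp only [Sum.elim_inl, Sum.elim_inr]
  ring
-- END pathcv

-- BEGIN interp
/-- Gaussian interpolation -/
theorem interp (a b : Fin n → Fin n → ℝ) (g : (Fin n → ℝ) → ℝ) (g1 : Fin n → (Fin n → ℝ) → ℝ)
    (g2 : Fin n → Fin n → (Fin n → ℝ) → ℝ) (hd : Der g g1) (hd1 : ∀ i, Der (g1 i) (g2 i))
    (hg : Gr g) (hg1 : ∀ i, Gr (g1 i)) (hg2 : ∀ i j, Gr (g2 i j)) (θ : ℝ) :
    HasDerivAt (fun θ => EG (path a b θ) g)
      (sin θ * cos θ * ∑ i, ∑ j, dl a b i j * EG (path a b θ) (g2 i j)) θ := by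
  have h := dunder a b g g1 hd hg hg1 θ
  have e : ∫ z, ∑ i, g1 i (lin (path a b θ) z) * lin (path' a b θ) z i ∂(γ (Fin n ⊕ Fin n)) =
      sin θ * cos θ * ∑ i, ∑ j, dl a b i j * EG (path a b θ) (g2 i j) := by
    have gI : ∀ (i : Fin n) (k : Fin n ⊕ Fin n), Integrable (fun z : (Fin n ⊕ Fin n) → ℝ =>
        path' a b θ i k * (z k * g1 i (lin (path a b θ) z))) (γ (Fin n ⊕ Fin n)) := fun i k =>
      (((Gr.coord k).mul ((hg1 i).comp_lin (path a b θ))).const_mul _).int
    have e1 : ∀ z : (Fin n ⊕ Fin n) → ℝ, ∑ i, g1 i (lin (path a b θ) z) * lin (path' a b θ) z i =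
        ∑ i, ∑ k, path' a b θ i k * (z k * g1 i (lin (path a b θ) z)) := by
      intro z
      apply Finset.sum_congr rfl
      intro i _
      unfold lin
      rw [Finset.mul_sum]
      apply Finset.sum_congr rfl
      intro k _
      ring
    rw [integral_congr_ae (Filter.Eventually.of_forall e1)]
    rw [integral_finsetSum Finset.univ fun i _ => integrable_finsetSum Finset.univ fun k _ => gI i k]
    rw [Finset.mul_sum]
    apply Finset.sum_congr rfl
    intro i _
    rw [integral_finsetSum Finset.univ fun k _ => gI i k]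
    have e2 : ∀ k : Fin n ⊕ Fin n, ∫ z, path' a b θ i k * (z k * g1 i (lin (path a b θ) z))
        ∂(γ (Fin n ⊕ Fin n)) = ∑ j, path' a b θ i k * path a b θ j k * EG (path a b θ) (g2 i j) := by
      intro k
      rw [integral_const_mul, steinlin (path a b θ) (g1 i) (g2 i) (hd1 i) (hg1 i) (hg2 i) k,
        Finset.mul_sum]
      apply Finset.sum_congr rfl
      intro j _
      ring
    rw [Finset.sum_congr rfl fun k _ => e2 k, Finset.sum_comm, Finset.mul_sum]
    apply Finset.sum_congr rfl
    intro j _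
    rw [← Finset.sum_mul, pathcv']
    ring
  rw [← e]
  exact h
-- END interp

-- BEGIN path0
private theorem path0_inl (n : ℕ) : MeasurePreserving (fun z : (Fin n ⊕ Fin n) → ℝ => fun i =>
    z (Sum.inl i)) (γ (Fin n ⊕ Fin n)) (γ (Fin n)) := by
  have h1 := measurePreserving_sumPiEquivProdPi (X := fun _ : Fin n ⊕ Fin n => ℝ)
    (fun _ => gaussianReal 0 1)
  have h2 : MeasurePreserving (Prod.fst : (Fin n → ℝ) × (Fin n → ℝ) → (Fin n → ℝ))
      ((γ (Fin n)).prod (γ (Fin n))) (γ (Fin n)) := measurePreserving_fst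
  exact h2.comp h1

private theorem path0_inr (n : ℕ) : MeasurePreserving (fun z : (Fin n ⊕ Fin n) → ℝ => fun i =>
    z (Sum.inr i)) (γ (Fin n ⊕ Fin n)) (γ (Fin n)) := by
  have h1 := measurePreserving_sumPiEquivProdPi (X := fun _ : Fin n ⊕ Fin n => ℝ)
    (fun _ => gaussianReal 0 1)
  have h2 : MeasurePreserving (Prod.snd : (Fin n → ℝ) × (Fin n → ℝ) → (Fin n → ℝ))
      ((γ (Fin n)).prod (γ (Fin n))) (γ (Fin n)) := measurePreserving_snd
  exact h2.comp h1

/-- the end points of the path -/
theorem path_zero (a b : Fin n → Fin n → ℝ) {g : (Fin n → ℝ) → ℝ} (hg : Gr g) :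
    EG (path a b 0) g = EG a g := by
  unfold EG
  rw [← (path0_inl n).map_eq, integral_map (path0_inl n).measurable.aemeasurable
    (hg.comp_lin a).1.aestronglyMeasurable]
  apply integral_congr_ae
  refine Filter.Eventually.of_forall fun z => ?_
  show g (lin (path a b 0) z) = g (lin a fun i => z (Sum.inl i))
  congr 1
  funext i
  unfold lin path
  rw [Fintype.sum_sum_type]
  simp

theorem path_pi (a b : Fin n → Fin n → ℝ) {g : (Fin n → ℝ) → ℝ} (hg : Gr g) :
    EG (path a b (π / 2)) g = EG b g := by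
  unfold EG
  rw [← (path0_inr n).map_eq, integral_map (path0_inr n).measurable.aemeasurable
    (hg.comp_lin b).1.aestronglyMeasurable]
  apply integral_congr_ae
  refine Filter.Eventually.of_forall fun z => ?_
  show g (lin (path a b (π / 2)) z) = g (lin b fun i => z (Sum.inr i))
  congr 1
  funext i
  unfold lin path
  rw [Fintype.sum_sum_type]
  simp
-- END path0

end SMx
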