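import Pool.Agent.SMx.A

/-! MP_72ffec_pr: soft-max calculus. -/

open MeasureTheory ProbabilityTheory Real
open scoped BigOperators ENNReal

namespace SMx

variable {n : ℕ} {ι : Type} [Fintype ι]

-- BEGIN der_rules
theorem Der.const (c : ℝ) : Der (fun _ : Fin n → ℝ => c) (fun _ _ => 0) := by
  intro x
  simpa using hasFDerivAt_const c x

theorem Der.add {f g : (Fin n → ℝ) → ℝ} {f1 g1 : Fin n → (Fin n → ℝ) → ℝ}
    (hf : Der f f1) (hg : Der g g1) : Der (fun x => f x + g x) (fun i x => f1 i x + g1 i x) := by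
  intro x
  have h := (hf x).add (hg x)
  simp only [add_smul, Finset.sum_add_distrib]
  exact h

theorem Der.mul {f g : (Fin n → ℝ) → ℝ} {f1 g1 : Fin n → (Fin n → ℝ) → ℝ}
    (hf : Der f f1) (hg : Der g g1) :
    Der (fun x => f x * g x) (fun i x => f1 i x * g x + f x * g1 i x) := by
  intro x
  have h := (hf x).mul (hg x)
  have e : (∑ i, (f1 i x * g x + f x * g1 i x) • (ContinuousLinearMap.proj i : (Fin n → ℝ) →L[ℝ] ℝ))
      = f x • (∑ i, g1 i x • (ContinuousLinearMap.proj i : (Fin n → ℝ) →L[ℝ] ℝ)) +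
        g x • (∑ i, f1 i x • (ContinuousLinearMap.proj i : (Fin n → ℝ) →L[ℝ] ℝ)) := by
    rw [Finset.smul_sum, Finset.smul_sum, ← Finset.sum_add_distrib]
    apply Finset.sum_congr rfl
    intro i _
    rw [smul_smul, smul_smul, ← add_smul]
    congr 1
    ring
  rw [e]
  exact h

theorem Der.sum {κ : Type} [Fintype κ] {f : κ → (Fin n → ℝ) → ℝ}
    {f1 : κ → Fin n → (Fin n → ℝ) → ℝ} (hf : ∀ k, Der (f k) (f1 k)) :
    Der (fun x => ∑ k, f k x) (fun i x => ∑ k, f1 k i x) := by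
  intro x
  have h : HasFDerivAt (fun x => ∑ k, f k x)
      (∑ k, ∑ i, f1 k i x • (ContinuousLinearMap.proj i : (Fin n → ℝ) →L[ℝ] ℝ)) x :=
    HasFDerivAt.fun_sum fun k _ => hf k x
  have e : (∑ i, (∑ k, f1 k i x) • (ContinuousLinearMap.proj i : (Fin n → ℝ) →L[ℝ] ℝ))
      = ∑ k, ∑ i, f1 k i x • (ContinuousLinearMap.proj i : (Fin n → ℝ) →L[ℝ] ℝ) := by
    rw [Finset.sum_comm]
    apply Finset.sum_congr rfl
    intro i _
    rw [Finset.sum_smul]
  rw [e]
  exact h
-- END der_rules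

theorem Der.const_mul (c : ℝ) {f : (Fin n → ℝ) → ℝ} {f1 : Fin n → (Fin n → ℝ) → ℝ}
    (hf : Der f f1) : Der (fun x => c * f x) (fun i x => c * f1 i x) := by
  have := (Der.const (n := n) c).mul hf
  simpa using this

theorem Der.congr {f : (Fin n → ℝ) → ℝ} {f1 f2 : Fin n → (Fin n → ℝ) → ℝ}
    (hf : Der f f1) (h : ∀ i x, f1 i x = f2 i x) : Der f f2 := by
  have : f1 = f2 := by funext i x; exact h i x
  rwa [this] at hf

-- BEGIN der_pw
private theorem der_pw_coord (i : Fin n) :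
    Der (fun x : Fin n → ℝ => x i) (fun j _ => if i = j then 1 else 0) := by
  intro x
  have h : (∑ j, (if i = j then (1 : ℝ) else 0) •
      (ContinuousLinearMap.proj j : (Fin n → ℝ) →L[ℝ] ℝ)) = ContinuousLinearMap.proj i := by
    rw [Finset.sum_eq_single i]
    · simp
    · intro j _ hj
      rw [if_neg (Ne.symm hj), zero_smul]
    · intro h; exact absurd (Finset.mem_univ _) h
  rw [h]
  exact (ContinuousLinearMap.proj i : (Fin n → ℝ) →L[ℝ] ℝ).hasFDerivAt

private theorem der_pw_exp {f : (Fin n → ℝ) → ℝ} {f1 : Fin n → (Fin n → ℝ) → ℝ}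
    (hf : Der f f1) : Der (fun x => exp (f x)) (fun i x => exp (f x) * f1 i x) := by
  intro x
  have h := (hf x).exp
  rw [Finset.smul_sum] at h
  simpa only [smul_smul] using h

private theorem der_pw_log {f : (Fin n → ℝ) → ℝ} {f1 : Fin n → (Fin n → ℝ) → ℝ}
    (hf : Der f f1) (h0 : ∀ x, f x ≠ 0) : Der (fun x => log (f x)) (fun i x => (f x)⁻¹ * f1 i x) := by
  intro x
  have h := (hf x).log (h0 x)
  rw [Finset.smul_sum] at h
  simpa only [smul_smul] using h

private theorem der_pw_Sm_pos (hn : 0 < n) (β : ℝ) (x : Fin n → ℝ) : 0 < Sm β x := by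
  unfold Sm
  have : Nonempty (Fin n) := ⟨⟨0, hn⟩⟩
  exact Finset.sum_pos (fun i _ => exp_pos _) Finset.univ_nonempty

/-- derivative of `log ∑ exp` -/
theorem der_Lg (hn : 0 < n) (β : ℝ) :
    Der (fun x : Fin n → ℝ => Lg β x) (fun i x => β * pw β x i) := by
  have h1 : Der (fun x : Fin n → ℝ => ∑ k, exp (β * x k))
      (fun i x => ∑ k, exp (β * x k) * (β * (if k = i then 1 else 0))) :=
    Der.sum fun k => der_pw_exp ((der_pw_coord k).const_mul β)
  have h2 := der_pw_log h1 (fun x => (der_pw_Sm_pos hn β x).ne')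
  refine h2.congr fun i x => ?_
  have e2 : ∑ k, exp (β * x k) * (β * (if k = i then (1 : ℝ) else 0)) = exp (β * x i) * β := by
    rw [Finset.sum_eq_single i]
    · rw [if_pos rfl, mul_one]
    · intro j _ hj
      rw [if_neg hj, mul_zero, mul_zero]
    · intro h; exact absurd (Finset.mem_univ _) h
  rw [e2, pw, Sm]
  ring

/-- derivative of the Gibbs weights -/
theorem der_pw (β : ℝ) (i : Fin n) :
    Der (fun x : Fin n → ℝ => pw β x i)
      (fun j x => β * pw β x i * ((if i = j then 1 else 0) - pw β x j)) := by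
  have hn : 0 < n := i.pos
  have e : (fun x : Fin n → ℝ => pw β x i) = fun x => exp (β * x i + (-1) * Lg β x) := by
    funext x
    have h0 := der_pw_Sm_pos hn β x
    rw [pw, Lg, exp_add, neg_one_mul, exp_neg, exp_log h0]
    rfl
  rw [e]
  have h := der_pw_exp (((der_pw_coord i).const_mul β).add ((der_Lg hn β).const_mul (-1)))
  refine h.congr fun j x => ?_
  have e' : pw β x i = exp (β * x i + (-1) * Lg β x) := congrFun e x
  rw [← e']
  ring
-- END der_pw

-- BEGIN pw_basic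
theorem Sm_pos (hn : 0 < n) (β : ℝ) (x : Fin n → ℝ) : 0 < Sm β x := by
  unfold Sm
  have : Nonempty (Fin n) := ⟨⟨0, hn⟩⟩
  exact Finset.sum_pos (fun i _ => exp_pos _) Finset.univ_nonempty

theorem pw_nonneg (β : ℝ) (x : Fin n → ℝ) (i : Fin n) : 0 ≤ pw β x i :=
  div_nonneg (exp_pos _).le (Sm_pos i.pos β x).le

theorem pw_sum (hn : 0 < n) (β : ℝ) (x : Fin n → ℝ) : ∑ i, pw β x i = 1 := by
  have h := Sm_pos hn β x
  unfold pw
  rw [← Finset.sum_div]
  exact div_self h.ne'

theorem pw_le_one (β : ℝ) (x : Fin n → ℝ) (i : Fin n) : pw β x i ≤ 1 := by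
  rw [← pw_sum i.pos β x]
  exact Finset.single_le_sum (fun j _ => pw_nonneg β x j) (Finset.mem_univ i)
-- END pw_basic

/-- `(Δ π)_i` -/
noncomputable def vv {n : ℕ} (Δ : Fin n → Fin n → ℝ) (β : ℝ) (x : Fin n → ℝ) (i : Fin n) : ℝ :=
  ∑ j, Δ i j * pw β x j

theorem Gr.vv (Δ : Fin n → Fin n → ℝ) (β : ℝ) (i : Fin n) : Gr (fun x => SMx.vv Δ β x i) :=
  Gr.sum _ fun j => (Gr.pw β j).const_mul _

-- BEGIN der_vv
/-- derivative of `(Δ π)_i` -/
theorem der_vv (hn : 0 < n) (Δ : Fin n → Fin n → ℝ) (β : ℝ) (i : Fin n) :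
    Der (fun x => vv Δ β x i) (fun j x => β * pw β x j * (Δ i j - vv Δ β x i)) := by
  have h : Der (fun x => ∑ k, Δ i k * pw β x k)
      (fun j x => ∑ k, Δ i k * (β * pw β x k * ((if k = j then 1 else 0) - pw β x j))) :=
    Der.sum fun k => (der_pw β k).const_mul _
  refine Der.congr h fun j x => ?_
  have e : ∀ k, Δ i k * (β * pw β x k * ((if k = j then 1 else 0) - pw β x j)) =
      (if k = j then Δ i k * (β * pw β x k) else 0) - β * pw β x j * (Δ i k * pw β x k) := by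
    intro k
    split_ifs <;> ring
  rw [Finset.sum_congr rfl fun k _ => e k, Finset.sum_sub_distrib, ← Finset.mul_sum,
    Finset.sum_ite_eq' Finset.univ j, if_pos (Finset.mem_univ j)]
  unfold vv
  ring
-- END der_vv

-- BEGIN der_qA
/-- derivative of `A = π · Δ π` -/
theorem der_qA (hn : 0 < n) (Δ : Fin n → Fin n → ℝ) (hs : ∀ i j, Δ i j = Δ j i) (β : ℝ) :
    Der (fun x => qA Δ β x) (fun i x => 2 * β * pw β x i * (vv Δ β x i - qA Δ β x)) := by
  have eA : ∀ x, qA Δ β x = ∑ k, pw β x k * vv Δ β x k := by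
    intro x
    unfold qA vv
    apply Finset.sum_congr rfl
    intro k _
    rw [Finset.mul_sum]
    apply Finset.sum_congr rfl
    intro j _
    ring
  have e1 : (fun x => qA Δ β x) = fun x => ∑ k, pw β x k * vv Δ β x k := funext eA
  rw [e1]
  have h := Der.sum fun k => (der_pw β k).mul (der_vv hn Δ β k)
  refine h.congr fun j x => ?_
  have e : ∀ k, β * pw β x k * ((if k = j then 1 else 0) - pw β x j) * vv Δ β x k +
      pw β x k * (β * pw β x j * (Δ k j - vv Δ β x k)) =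
      (if k = j then β * pw β x k * vv Δ β x k else 0) -
        2 * (β * pw β x j) * (pw β x k * vv Δ β x k) + β * pw β x j * (Δ j k * pw β x k) := by
    intro k
    rw [hs j k]
    split_ifs <;> ring
  rw [Finset.sum_congr rfl fun k _ => e k, Finset.sum_add_distrib, Finset.sum_sub_distrib,
    ← Finset.mul_sum, ← Finset.mul_sum, ← eA x, Finset.sum_ite_eq' Finset.univ j,
    if_pos (Finset.mem_univ j)]
  have : ∑ k, Δ j k * pw β x k = vv Δ β x j := rfl
  rw [this]
  ring
-- END der_qA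

-- BEGIN der_LA1
/-- first derivatives of `L A` -/
theorem der_LA1 (hn : 0 < n) (Δ : Fin n → Fin n → ℝ) (hs : ∀ i j, Δ i j = Δ j i) (β : ℝ) :
    Der (fun x => Lg β x * qA Δ β x)
      (fun i x => β * pw β x i * (qA Δ β x + 2 * Lg β x * (vv Δ β x i - qA Δ β x))) :=
  ((der_Lg hn β).mul (der_qA hn Δ hs β)).congr fun i x => by ring
-- END der_LA1

-- BEGIN der_LA2
/-- second derivatives of `L A`, the diagonal corrected by the term with `if` -/
theorem der_LA2 (hn : 0 < n) (Δ : Fin n → Fin n → ℝ) (hs : ∀ i j, Δ i j = Δ j i) (β : ℝ)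
    (i : Fin n) :
    Der (fun x => β * pw β x i * (qA Δ β x + 2 * Lg β x * (vv Δ β x i - qA Δ β x)))
      (fun j x => β ^ 2 * (pw β x i * pw β x j) * (2 * Lg β x * Δ i j - (1 + 2 * Lg β x) * qA Δ β x
          + (2 - 4 * Lg β x) * ((vv Δ β x i - qA Δ β x) + (vv Δ β x j - qA Δ β x)))
        + (if i = j then β ^ 2 * pw β x i *
            (qA Δ β x + 2 * Lg β x * (vv Δ β x i - qA Δ β x)) else 0)) := by
  have h := ((der_pw β i).const_mul β).mul ((der_qA hn Δ hs β).add
    (((der_Lg hn β).const_mul 2).mul ((der_vv hn Δ β i).add ((der_qA hn Δ hs β).const_mul (-1)))))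
  have e : (fun x => β * pw β x i * (qA Δ β x + 2 * Lg β x * (vv Δ β x i - qA Δ β x))) =
      fun x => β * pw β x i * (qA Δ β x + 2 * Lg β x * (vv Δ β x i + (-1) * qA Δ β x)) := by
    funext x
    ring
  rw [e]
  refine h.congr fun j x => ?_
  split_ifs <;> ring
-- END der_LA2

-- BEGIN contrG
/-- the contraction for `(L+1)²` -/
theorem contrG (Δ : Fin n → Fin n → ℝ) (h0 : ∀ i, Δ i i = 0) (β : ℝ) (x : Fin n → ℝ) :
    ∑ i, ∑ j, Δ i j * (2 * β ^ 2 * (pw β x i * pw β x j) + 2 * (Lg β x + 1) *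
      (β * (β * pw β x i * ((if i = j then 1 else 0) - pw β x j)))) =
      -(2 * β ^ 2) * (Lg β x * qA Δ β x) := by
  unfold qA
  rw [Finset.mul_sum, Finset.mul_sum]
  apply Finset.sum_congr rfl
  intro i _
  rw [Finset.mul_sum, Finset.mul_sum]
  apply Finset.sum_congr rfl
  intro j _
  by_cases hij : i = j
  · subst hij
    rw [h0]; ring
  · rw [if_neg hij]; ring
-- END contrG

-- BEGIN contrA
/-- the contraction for `L A` -/
theorem contrA (hn : 0 < n) (Δ : Fin n → Fin n → ℝ) (h0 : ∀ i, Δ i i = 0) (hs : ∀ i j, Δ i j = Δ j i)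
    (β : ℝ) (x : Fin n → ℝ) :
    ∑ i, ∑ j, Δ i j * (β ^ 2 * (pw β x i * pw β x j) *
        (2 * Lg β x * Δ i j - (1 + 2 * Lg β x) * qA Δ β x
          + (2 - 4 * Lg β x) * ((vv Δ β x i - qA Δ β x) + (vv Δ β x j - qA Δ β x)))
        + (if i = j then β ^ 2 * pw β x i *
            (qA Δ β x + 2 * Lg β x * (vv Δ β x i - qA Δ β x)) else 0)) =
      β ^ 2 * (2 * Lg β x * qD Δ β x - 8 * Lg β x * qN Δ β x + 6 * Lg β x * qA Δ β x ^ 2
        + 4 * qN Δ β x - 5 * qA Δ β x ^ 2) := by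
  set L := Lg β x with hL
  set A := qA Δ β x with hA
  have eA : ∑ i, ∑ j, Δ i j * (pw β x i * pw β x j) = A := rfl
  have eD : ∑ i, ∑ j, Δ i j ^ 2 * (pw β x i * pw β x j) = qD Δ β x := rfl
  have eN1 : ∑ i, ∑ j, Δ i j * (pw β x i * pw β x j) * vv Δ β x i = qN Δ β x := by
    unfold qN
    apply Finset.sum_congr rfl
    intro i _
    have : ∀ j, Δ i j * (pw β x i * pw β x j) * vv Δ β x i =
        (pw β x i * vv Δ β x i) * (Δ i j * pw β x j) := fun j => by ring
    rw [Finset.sum_congr rfl fun j _ => this j, ← Finset.mul_sum]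
    show pw β x i * vv Δ β x i * vv Δ β x i = pw β x i * (vv Δ β x i) ^ 2
    ring
  have eN2 : ∑ i, ∑ j, Δ i j * (pw β x i * pw β x j) * vv Δ β x j = qN Δ β x := by
    rw [Finset.sum_comm, ← eN1]
    apply Finset.sum_congr rfl
    intro i _
    apply Finset.sum_congr rfl
    intro j _
    rw [hs j i]; ring
  have e : ∀ i j, Δ i j * (β ^ 2 * (pw β x i * pw β x j) *
        (2 * L * Δ i j - (1 + 2 * L) * A + (2 - 4 * L) * ((vv Δ β x i - A) + (vv Δ β x j - A)))
        + (if i = j then β ^ 2 * pw β x i * (A + 2 * L * (vv Δ β x i - A)) else 0)) =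
      β ^ 2 * (2 * L) * (Δ i j ^ 2 * (pw β x i * pw β x j)) +
      β ^ 2 * (-(1 + 2 * L) * A - 2 * (2 - 4 * L) * A) * (Δ i j * (pw β x i * pw β x j)) +
      β ^ 2 * (2 - 4 * L) * (Δ i j * (pw β x i * pw β x j) * vv Δ β x i) +
      β ^ 2 * (2 - 4 * L) * (Δ i j * (pw β x i * pw β x j) * vv Δ β x j) := by
    intro i j
    by_cases hij : i = j
    · subst hij
      rw [h0]; ring
    · rw [if_neg hij]; ring
  rw [Finset.sum_congr rfl fun i _ => Finset.sum_congr rfl fun j _ => e i j]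
  simp only [Finset.sum_add_distrib, ← Finset.mul_sum]
  rw [eA, eD, eN1, eN2]
  ring
-- END contrA

-- BEGIN derG
/-- contraction under the expectation -/
private theorem derG_contr {κ : Type} [Fintype κ] (A : Fin n → κ → ℝ) (Δ : Fin n → Fin n → ℝ)
    (g2 : Fin n → Fin n → (Fin n → ℝ) → ℝ) (hg2 : ∀ i j, Gr (g2 i j)) :
    ∑ i, ∑ j, Δ i j * EG A (g2 i j) = EG A (fun x => ∑ i, ∑ j, Δ i j * g2 i j x) := by
  rw [EG_sum Finset.univ (fun i => Gr.sum Finset.univ fun j => (hg2 i j).const_mul (Δ i j)) A]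
  apply Finset.sum_congr rfl
  intro i _
  rw [EG_sum Finset.univ (fun j => (hg2 i j).const_mul (Δ i j)) A]
  apply Finset.sum_congr rfl
  intro j _
  rw [EG_const_mul]

/-- the derivative of `E (L+1)²` along the path -/
theorem derG (hn : 0 < n) (a b : Fin n → Fin n → ℝ) (h0 : ∀ i, dl a b i i = 0) (β θ : ℝ) :
    HasDerivAt (fun θ => EG (path a b θ) (fun x => (Lg β x + 1) ^ 2))
      (-(2 * β ^ 2 * (sin θ * cos θ)) * EG (path a b θ) (fun x => Lg β x * qA (dl a b) β x)) θ := by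
  have gL : Gr (fun x : Fin n → ℝ => Lg β x) := Gr.Lg β
  have gL1 : Gr (fun x : Fin n → ℝ => Lg β x + 1) := gL.add (Gr.const 1)
  have hd : Der (fun x : Fin n → ℝ => (Lg β x + 1) ^ 2)
      (fun i x => 2 * (Lg β x + 1) * (β * pw β x i)) := by
    have h := ((der_Lg hn β).add (Der.const 1)).mul ((der_Lg hn β).add (Der.const 1))
    have e : (fun x : Fin n → ℝ => (Lg β x + 1) ^ 2) =
        fun x => (Lg β x + 1) * (Lg β x + 1) := by funext x; ring
    rw [e]
    exact h.congr fun i x => by ring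
  have hd1 : ∀ i, Der (fun x : Fin n → ℝ => 2 * (Lg β x + 1) * (β * pw β x i))
      (fun j x => 2 * β ^ 2 * (pw β x i * pw β x j) + 2 * (Lg β x + 1) *
        (β * (β * pw β x i * ((if i = j then 1 else 0) - pw β x j)))) := by
    intro i
    have h := (((der_Lg hn β).add (Der.const 1)).const_mul 2).mul ((der_pw β i).const_mul β)
    exact h.congr fun j x => by ring
  have hg2 : ∀ i j, Gr (fun x : Fin n → ℝ => 2 * β ^ 2 * (pw β x i * pw β x j) +
      2 * (Lg β x + 1) * (β * (β * pw β x i * ((if i = j then 1 else 0) - pw β x j)))) := by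
    intro i j
    exact (((Gr.pw β i).mul (Gr.pw β j)).const_mul _).add ((gL1.const_mul 2).mul
      ((((Gr.pw β i).const_mul β).mul ((Gr.const _).sub (Gr.pw β j))).const_mul β))
  have h := interp a b _ _ _ hd hd1 gL1.sq (fun i => (gL1.const_mul 2).mul ((Gr.pw β i).const_mul β))
    hg2 θ
  rw [derG_contr (path a b θ) (dl a b) _ hg2] at h
  have e : (fun x : Fin n → ℝ => ∑ i, ∑ j, dl a b i j * (2 * β ^ 2 * (pw β x i * pw β x j) +
      2 * (Lg β x + 1) * (β * (β * pw β x i * ((if i = j then 1 else 0) - pw β x j))))) =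
      fun x => -(2 * β ^ 2) * (Lg β x * qA (dl a b) β x) := by
    funext x
    exact contrG (dl a b) h0 β x
  rw [e, EG_const_mul] at h
  have e2 : sin θ * cos θ * (-(2 * β ^ 2) * EG (path a b θ) (fun x => Lg β x * qA (dl a b) β x)) =
      -(2 * β ^ 2 * (sin θ * cos θ)) * EG (path a b θ) (fun x => Lg β x * qA (dl a b) β x) := by
    ring
  rw [← e2]
  exact h
-- END derG

-- BEGIN derA
/-- the derivative of `E L A` along the path -/
theorem derA (hn : 0 < n) (a b : Fin n → Fin n → ℝ) (h0 : ∀ i, dl a b i i = 0) (β θ : ℝ) :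
    HasDerivAt (fun θ => EG (path a b θ) (fun x => Lg β x * qA (dl a b) β x))
      (β ^ 2 * (sin θ * cos θ) * EG (path a b θ) (fun x => 2 * Lg β x * qD (dl a b) β x
        - 8 * Lg β x * qN (dl a b) β x + 6 * Lg β x * qA (dl a b) β x ^ 2
        + 4 * qN (dl a b) β x - 5 * qA (dl a b) β x ^ 2)) θ := by
  have hs : ∀ i j, dl a b i j = dl a b j i := by
    intro i j
    unfold dl cv
    congr 1 <;> exact Finset.sum_congr rfl fun k _ => mul_comm _ _
  have gL : Gr (fun x : Fin n → ℝ => Lg β x) := Gr.Lg β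
  have gA : Gr (fun x : Fin n → ℝ => qA (dl a b) β x) := Gr.qA _ β
  have g1 : ∀ i, Gr (fun x : Fin n → ℝ => β * pw β x i *
      (qA (dl a b) β x + 2 * Lg β x * (vv (dl a b) β x i - qA (dl a b) β x))) := fun i =>
    ((Gr.pw β i).const_mul β).mul (gA.add ((gL.const_mul 2).mul ((Gr.vv _ β i).sub gA)))
  have hg2 : ∀ i j, Gr (fun x : Fin n → ℝ => β ^ 2 * (pw β x i * pw β x j) *
        (2 * Lg β x * dl a b i j - (1 + 2 * Lg β x) * qA (dl a b) β x
          + (2 - 4 * Lg β x) * ((vv (dl a b) β x i - qA (dl a b) β x) +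
            (vv (dl a b) β x j - qA (dl a b) β x)))
        + (if i = j then β ^ 2 * pw β x i *
            (qA (dl a b) β x + 2 * Lg β x * (vv (dl a b) β x i - qA (dl a b) β x)) else 0)) := by
    intro i j
    refine Gr.add ?_ ?_
    · exact (((Gr.pw β i).mul (Gr.pw β j)).const_mul _).mul
        ((((gL.const_mul 2).mul (Gr.const _)).sub (((Gr.const 1).add (gL.const_mul 2)).mul gA)).add
          (((Gr.const 2).sub (gL.const_mul 4)).mul (((Gr.vv _ β i).sub gA).add ((Gr.vv _ β j).sub gA))))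
    · by_cases hij : i = j
      · simp only [if_pos hij]
        exact ((Gr.pw β i).const_mul _).mul (gA.add ((gL.const_mul 2).mul ((Gr.vv _ β i).sub gA)))
      · simp only [if_neg hij]
        exact Gr.const 0
  have h := interp a b _ _ _ (der_LA1 hn (dl a b) hs β) (fun i => der_LA2 hn (dl a b) hs β i)
    (gL.mul gA) g1 hg2 θ
  have e0 : ∑ i, ∑ j, dl a b i j * EG (path a b θ) (fun x : Fin n → ℝ =>
      β ^ 2 * (pw β x i * pw β x j) *
        (2 * Lg β x * dl a b i j - (1 + 2 * Lg β x) * qA (dl a b) β x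
          + (2 - 4 * Lg β x) * ((vv (dl a b) β x i - qA (dl a b) β x) +
            (vv (dl a b) β x j - qA (dl a b) β x)))
        + (if i = j then β ^ 2 * pw β x i *
            (qA (dl a b) β x + 2 * Lg β x * (vv (dl a b) β x i - qA (dl a b) β x)) else 0)) =
      β ^ 2 * EG (path a b θ) (fun x => 2 * Lg β x * qD (dl a b) β x
        - 8 * Lg β x * qN (dl a b) β x + 6 * Lg β x * qA (dl a b) β x ^ 2
        + 4 * qN (dl a b) β x - 5 * qA (dl a b) β x ^ 2) := by
    rw [← EG_const_mul]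
    have e1 : (fun x : Fin n → ℝ => β ^ 2 * (2 * Lg β x * qD (dl a b) β x
        - 8 * Lg β x * qN (dl a b) β x + 6 * Lg β x * qA (dl a b) β x ^ 2
        + 4 * qN (dl a b) β x - 5 * qA (dl a b) β x ^ 2)) = fun x => ∑ i, ∑ j, dl a b i j *
        (β ^ 2 * (pw β x i * pw β x j) *
        (2 * Lg β x * dl a b i j - (1 + 2 * Lg β x) * qA (dl a b) β x
          + (2 - 4 * Lg β x) * ((vv (dl a b) β x i - qA (dl a b) β x) +
            (vv (dl a b) β x j - qA (dl a b) β x)))
        + (if i = j then β ^ 2 * pw β x i *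
            (qA (dl a b) β x + 2 * Lg β x * (vv (dl a b) β x i - qA (dl a b) β x)) else 0)) := by
      funext x
      exact (contrA hn (dl a b) h0 hs β x).symm
    rw [e1, EG_sum Finset.univ (fun i => Gr.sum Finset.univ fun j => (hg2 i j).const_mul (dl a b i j))]
    apply Finset.sum_congr rfl
    intro i _
    rw [EG_sum Finset.univ (fun j => (hg2 i j).const_mul (dl a b i j))]
    apply Finset.sum_congr rfl
    intro j _
    rw [EG_const_mul]
  rw [e0] at h
  have e2 : β ^ 2 * (sin θ * cos θ) * EG (path a b θ) (fun x => 2 * Lg β x * qD (dl a b) β x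
        - 8 * Lg β x * qN (dl a b) β x + 6 * Lg β x * qA (dl a b) β x ^ 2
        + 4 * qN (dl a b) β x - 5 * qA (dl a b) β x ^ 2) =
      sin θ * cos θ * (β ^ 2 * EG (path a b θ) (fun x => 2 * Lg β x * qD (dl a b) β x
        - 8 * Lg β x * qN (dl a b) β x + 6 * Lg β x * qA (dl a b) β x ^ 2
        + 4 * qN (dl a b) β x - 5 * qA (dl a b) β x ^ 2)) := by ring
  rw [e2]
  exact h
-- END derA

-- BEGIN Lbounds
/-- `log n + β x̄ ≤ L` (Jensen) and the like -/
theorem exp_bar_le_Zf (hn : 0 < n) (β : ℝ) (x : Fin n → ℝ) : exp (β * av x) ≤ Zf β x := by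
  have hn' : (0 : ℝ) < n := by exact_mod_cast hn
  have h1 : ∀ k : Fin n, exp (β * av x) * (1 + (β * x k - β * av x)) ≤ exp (β * x k) := by
    intro k
    have h2 := add_one_le_exp (β * x k - β * av x)
    have h3 : exp (β * x k) = exp (β * av x) * exp (β * x k - β * av x) := by
      rw [← exp_add]
      ring_nf
    rw [h3]
    exact mul_le_mul_of_nonneg_left (by linarith) (exp_pos _).le
  have h4 : ∑ k : Fin n, exp (β * av x) * (1 + (β * x k - β * av x)) = n * exp (β * av x) := by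
    rw [← Finset.mul_sum, Finset.sum_add_distrib, Finset.sum_sub_distrib, ← Finset.mul_sum]
    simp only [Finset.sum_const, Finset.card_univ, Fintype.card_fin, nsmul_eq_mul, mul_one]
    have h5 : ∑ i, x i = n * av x := by
      unfold av
      field_simp
    rw [h5]
    ring
  have h6 := Finset.sum_le_sum fun k (_ : k ∈ Finset.univ) => h1 k
  rw [h4] at h6
  unfold Zf Sm
  rw [le_div_iff₀ hn']
  linarith

theorem Zf_pos (hn : 0 < n) (β : ℝ) (x : Fin n → ℝ) : 0 < Zf β x :=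
  lt_of_lt_of_le (exp_pos _) (exp_bar_le_Zf hn β x)

theorem Lg_eq (hn : 0 < n) (β : ℝ) (x : Fin n → ℝ) : Lg β x = log n + log (Zf β x) := by
  have hn' : (0 : ℝ) < n := by exact_mod_cast hn
  unfold Lg Zf
  rw [log_div (Sm_pos hn β x).ne' hn'.ne']
  ring

theorem Lg_ge (hn : 0 < n) (β : ℝ) (x : Fin n → ℝ) : log n + β * av x ≤ Lg β x := by
  rw [Lg_eq hn]
  have h := log_le_log (exp_pos _) (exp_bar_le_Zf hn β x)
  rw [log_exp] at h
  linarith

theorem Lg_le (hn : 0 < n) (β : ℝ) (x : Fin n → ℝ) : Lg β x ≤ log n + Zf β x := by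
  rw [Lg_eq hn]
  have h := log_le_sub_one_of_pos (Zf_pos hn β x)
  linarith
-- END Lbounds

-- BEGIN ptw
private theorem ptw_AN (hn : 0 < n) (Δ : Fin n → Fin n → ℝ) (β : ℝ) (x : Fin n → ℝ) :
    qA Δ β x ^ 2 ≤ qN Δ β x := by
  have h0 : qA Δ β x = ∑ i, pw β x i * (∑ j, Δ i j * pw β x j) := by
    unfold qA
    refine Finset.sum_congr rfl fun i _ => ?_
    rw [Finset.mul_sum]
    exact Finset.sum_congr rfl fun j _ => by ring
  have h1 : 0 ≤ ∑ i, pw β x i * ((∑ j, Δ i j * pw β x j) - qA Δ β x) ^ 2 :=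
    Finset.sum_nonneg fun i _ => mul_nonneg (pw_nonneg β x i) (sq_nonneg _)
  have h2 : ∑ i, pw β x i * ((∑ j, Δ i j * pw β x j) - qA Δ β x) ^ 2 =
      qN Δ β x - 2 * qA Δ β x * (∑ i, pw β x i * (∑ j, Δ i j * pw β x j)) +
        qA Δ β x ^ 2 * ∑ i, pw β x i := by
    unfold qN
    rw [Finset.mul_sum, Finset.mul_sum, ← Finset.sum_sub_distrib, ← Finset.sum_add_distrib]
    exact Finset.sum_congr rfl fun i _ => by ring
  rw [← h0, pw_sum hn] at h2
  nlinarith

/-- the pointwise lower bound of the second derivative -/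
theorem ptw (hn : 0 < n) (Δ : Fin n → Fin n → ℝ) (β : ℝ) (x : Fin n → ℝ) :
    2 * (log n + β * av x) * qD Δ β x - (8 * (log n + Zf β x) + 1) * qN Δ β x ≤
      2 * Lg β x * qD Δ β x - 8 * Lg β x * qN Δ β x + 6 * Lg β x * qA Δ β x ^ 2
        + 4 * qN Δ β x - 5 * qA Δ β x ^ 2 := by
  have hAN := ptw_AN hn Δ β x
  have hD : 0 ≤ qD Δ β x := by
    unfold qD
    exact Finset.sum_nonneg fun i _ => Finset.sum_nonneg fun j _ =>
      mul_nonneg (sq_nonneg _) (mul_nonneg (pw_nonneg β x i) (pw_nonneg β x j))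
  have hA : 0 ≤ qA Δ β x ^ 2 := sq_nonneg _
  have hN : 0 ≤ qN Δ β x := le_trans hA hAN
  have h1 := Lg_ge hn β x
  have h2 := Lg_le hn β x
  have hlog : 0 ≤ log (n : ℝ) := log_natCast_nonneg n
  have hZ := Zf_pos hn β x
  have h3 : 0 ≤ (Lg β x - (log n + β * av x)) * qD Δ β x :=
    mul_nonneg (by linarith) hD
  rcases le_or_gt 0 (Lg β x) with hL | hL
  · have h4 : 0 ≤ (log n + Zf β x - Lg β x) * qN Δ β x := mul_nonneg (by linarith) hN
    have h5 : 0 ≤ Lg β x * qA Δ β x ^ 2 := mul_nonneg hL hA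
    nlinarith
  · have h4 : 0 ≤ (log n + Zf β x) * qN Δ β x := mul_nonneg (by linarith) hN
    have h5 : 0 ≤ (-Lg β x) * (qN Δ β x - qA Δ β x ^ 2) := mul_nonneg (by linarith) (by linarith)
    have h6 : 0 ≤ (-Lg β x) * qA Δ β x ^ 2 := mul_nonneg (by linarith) hA
    nlinarith
-- END ptw

end SMx
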