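import Pool.Agent.SMx.B

/-! MP_72ffec_pr: exponential moment estimates and the local lemma. -/

open MeasureTheory ProbabilityTheory Real
open scoped BigOperators ENNReal

namespace SMx

variable {n : ℕ} {ι : Type} [Fintype ι]

/-! averages -/

theorem av_add (f g : Fin n → ℝ) : av (fun i => f i + g i) = av f + av g := by
  simp [av, Finset.sum_add_distrib, add_div]

theorem av_mul_left (c : ℝ) (f : Fin n → ℝ) : av (fun i => c * f i) = c * av f := by
  simp [av, ← Finset.mul_sum, mul_div_assoc]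

theorem av_const (hn : 0 < n) (c : ℝ) : av (fun _ : Fin n => c) = c := by
  have : (n : ℝ) ≠ 0 := by positivity
  simp [av]
  field_simp

theorem av_mono {f g : Fin n → ℝ} (h : ∀ i, f i ≤ g i) : av f ≤ av g :=
  div_le_div_of_nonneg_right (Finset.sum_le_sum fun i _ => h i) (Nat.cast_nonneg _)

theorem av_nonneg {f : Fin n → ℝ} (h : ∀ i, 0 ≤ f i) : 0 ≤ av f :=
  div_nonneg (Finset.sum_nonneg fun i _ => h i) (Nat.cast_nonneg _)

theorem av2_eq (f : Fin n → Fin n → ℝ) : av2 f = av (fun i => av (fun j => f i j)) := by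
  simp only [av2, av]
  rw [← Finset.sum_div, div_div, _root_.sq]

/-! covariances -/

-- BEGIN psd
private theorem psd_sum (A : Fin n → ι → ℝ) (u : Fin n → ℝ) :
    ∑ i, (∑ j, cv A i j * u j) ^ 2 ≤
      √(∑ i, ∑ j, cv A i j ^ 2) * ∑ i, ∑ j, u i * u j * cv A i j := by
  set w : ι → ℝ := fun k => ∑ j, A j k * u j with hw
  set B : ι → ι → ℝ := fun k l => ∑ i, A i k * A i l with hB
  have h1 : ∀ i, ∑ j, cv A i j * u j = ∑ k, A i k * w k := by
    intro i
    simp only [hw, cv, Finset.sum_mul, Finset.mul_sum]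
    rw [Finset.sum_comm]
    refine Finset.sum_congr rfl fun k _ => Finset.sum_congr rfl fun j _ => by ring
  have h2 : ∑ i, ∑ j, u i * u j * cv A i j = ∑ k, w k ^ 2 := by
    calc ∑ i, ∑ j, u i * u j * cv A i j = ∑ i, ∑ j, ∑ k, (A i k * u i) * (A j k * u j) := by
          refine Finset.sum_congr rfl fun i _ => Finset.sum_congr rfl fun j _ => ?_
          simp only [cv, Finset.mul_sum]
          refine Finset.sum_congr rfl fun k _ => by ring
      _ = ∑ i, ∑ k, ∑ j, (A i k * u i) * (A j k * u j) := by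
          refine Finset.sum_congr rfl fun i _ => Finset.sum_comm
      _ = ∑ k, ∑ i, ∑ j, (A i k * u i) * (A j k * u j) := Finset.sum_comm
      _ = ∑ k, w k ^ 2 := by
          refine Finset.sum_congr rfl fun k _ => ?_
          rw [_root_.sq, hw, Finset.sum_mul_sum]
  have h3 : ∑ i, (∑ k, A i k * w k) ^ 2 = ∑ k, ∑ l, (w k * w l) * B k l := by
    calc ∑ i, (∑ k, A i k * w k) ^ 2 = ∑ i, ∑ k, ∑ l, (A i k * w k) * (A i l * w l) := by
          refine Finset.sum_congr rfl fun i _ => ?_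
          rw [_root_.sq, Finset.sum_mul_sum]
      _ = ∑ k, ∑ i, ∑ l, (A i k * w k) * (A i l * w l) := Finset.sum_comm
      _ = ∑ k, ∑ l, ∑ i, (A i k * w k) * (A i l * w l) := by
          refine Finset.sum_congr rfl fun k _ => Finset.sum_comm
      _ = ∑ k, ∑ l, (w k * w l) * B k l := by
          refine Finset.sum_congr rfl fun k _ => Finset.sum_congr rfl fun l _ => ?_
          simp only [hB, Finset.mul_sum]
          refine Finset.sum_congr rfl fun i _ => by ring
  have h4 : ∑ k, ∑ l, B k l ^ 2 = ∑ i, ∑ j, cv A i j ^ 2 := by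
    have e1 : ∑ k, ∑ l, B k l ^ 2 = ∑ k, ∑ l, ∑ i, ∑ j, (A i k * A i l) * (A j k * A j l) := by
      refine Finset.sum_congr rfl fun k _ => Finset.sum_congr rfl fun l _ => ?_
      rw [_root_.sq, hB, Finset.sum_mul_sum]
    have e2 : ∑ i, ∑ j, cv A i j ^ 2 = ∑ i, ∑ j, ∑ k, ∑ l, (A i k * A j k) * (A i l * A j l) := by
      refine Finset.sum_congr rfl fun i _ => Finset.sum_congr rfl fun j _ => ?_
      rw [_root_.sq, cv, Finset.sum_mul_sum]
    rw [e1, e2]
    calc ∑ k, ∑ l, ∑ i, ∑ j, (A i k * A i l) * (A j k * A j l)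
        = ∑ k, ∑ i, ∑ l, ∑ j, (A i k * A i l) * (A j k * A j l) := by
          refine Finset.sum_congr rfl fun k _ => Finset.sum_comm
      _ = ∑ i, ∑ k, ∑ l, ∑ j, (A i k * A i l) * (A j k * A j l) := Finset.sum_comm
      _ = ∑ i, ∑ k, ∑ j, ∑ l, (A i k * A i l) * (A j k * A j l) := by
          refine Finset.sum_congr rfl fun i _ => Finset.sum_congr rfl fun k _ => Finset.sum_comm
      _ = ∑ i, ∑ j, ∑ k, ∑ l, (A i k * A i l) * (A j k * A j l) := by
          refine Finset.sum_congr rfl fun i _ => Finset.sum_comm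
      _ = ∑ i, ∑ j, ∑ k, ∑ l, (A i k * A j k) * (A i l * A j l) := by
          refine Finset.sum_congr rfl fun i _ => Finset.sum_congr rfl fun j _ =>
            Finset.sum_congr rfl fun k _ => Finset.sum_congr rfl fun l _ => by ring
  have h5 : ∑ k, ∑ l, (w k * w l) * B k l ≤ √(∑ k, ∑ l, B k l ^ 2) * ∑ k, w k ^ 2 := by
    have c := Finset.sum_mul_sq_le_sq_mul_sq (Finset.univ : Finset (ι × ι))
      (fun p => w p.1 * w p.2) (fun p => B p.1 p.2)
    have d1 : ∑ p : ι × ι, (w p.1 * w p.2) * B p.1 p.2 = ∑ k, ∑ l, (w k * w l) * B k l :=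
      Fintype.sum_prod_type' (fun k l => (w k * w l) * B k l)
    have d2 : ∑ p : ι × ι, (w p.1 * w p.2) ^ 2 = (∑ k, w k ^ 2) ^ 2 := by
      rw [_root_.sq (∑ k, w k ^ 2), Finset.sum_mul_sum]
      rw [Fintype.sum_prod_type' (fun k l => (w k * w l) ^ 2)]
      refine Finset.sum_congr rfl fun k _ => Finset.sum_congr rfl fun l _ => by ring
    have d3 : ∑ p : ι × ι, B p.1 p.2 ^ 2 = ∑ k, ∑ l, B k l ^ 2 :=
      Fintype.sum_prod_type' (fun k l => B k l ^ 2)
    rw [d1, d2, d3] at c
    have hW : 0 ≤ ∑ k, w k ^ 2 := Finset.sum_nonneg fun k _ => sq_nonneg _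
    have hBB : 0 ≤ ∑ k, ∑ l, B k l ^ 2 :=
      Finset.sum_nonneg fun k _ => Finset.sum_nonneg fun l _ => sq_nonneg _
    apply le_of_sq_le_sq _ (mul_nonneg (sqrt_nonneg _) hW)
    rw [mul_pow, sq_sqrt hBB]
    linarith
  calc ∑ i, (∑ j, cv A i j * u j) ^ 2 = ∑ i, (∑ k, A i k * w k) ^ 2 := by
        refine Finset.sum_congr rfl fun i _ => by rw [h1 i]
    _ = ∑ k, ∑ l, (w k * w l) * B k l := h3
    _ ≤ √(∑ k, ∑ l, B k l ^ 2) * ∑ k, w k ^ 2 := h5
    _ = √(∑ i, ∑ j, cv A i j ^ 2) * ∑ i, ∑ j, u i * u j * cv A i j := by rw [h4, h2]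

/-- `avg_i (avg_j r_ij u_j)² ≤ ρ · avg_ij u_i u_j r_ij` for covariances -/
theorem psd (A : Fin n → ι → ℝ) (u : Fin n → ℝ) :
    av (fun i => (av (fun j => cv A i j * u j)) ^ 2) ≤
      rho A * av2 (fun i j => u i * u j * cv A i j) := by
  rcases Nat.eq_zero_or_pos n with h0 | hn
  · subst h0
    simp [av, av2]
  have hn' : (0 : ℝ) < n := by exact_mod_cast hn
  have h := psd_sum A u
  have e1 : av (fun i => (av (fun j => cv A i j * u j)) ^ 2) =
      (∑ i, (∑ j, cv A i j * u j) ^ 2) / (n : ℝ) ^ 3 := by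
    unfold av
    simp only [div_pow]
    rw [← Finset.sum_div, div_div]
    congr 1
  have e2 : rho A = √(∑ i, ∑ j, cv A i j ^ 2) / n := by
    unfold rho av2
    rw [sqrt_div' _ (by positivity), sqrt_sq hn'.le]
  rw [e1, e2, av2]
  calc (∑ i, (∑ j, cv A i j * u j) ^ 2) / (n : ℝ) ^ 3
      ≤ (√(∑ i, ∑ j, cv A i j ^ 2) * ∑ i, ∑ j, u i * u j * cv A i j) / (n : ℝ) ^ 3 :=
        div_le_div_of_nonneg_right h (by positivity)
    _ = √(∑ i, ∑ j, cv A i j ^ 2) / n * ((∑ i, ∑ j, u i * u j * cv A i j) / (n : ℝ) ^ 2) := by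
        field_simp
-- END psd

-- BEGIN psd_row
private theorem psd_row_symm (A : Fin n → ι → ℝ) (i j : Fin n) : cv A i j = cv A j i := by
  unfold cv
  exact Finset.sum_congr rfl fun k _ => mul_comm _ _

/-- `avg_j r_ij² ≤ ρ` -/
theorem psd_row (A : Fin n → ι → ℝ) (hA : ∀ i, cv A i i = 1) (i : Fin n) :
    av (fun j => cv A i j ^ 2) ≤ rho A := by
  have hn : 0 < n := i.pos
  have hn' : (0 : ℝ) < n := by exact_mod_cast hn
  have h := psd A (fun j => if j = i then 1 else 0)
  have e1 : ∀ k, av (fun j => cv A k j * (if j = i then 1 else 0)) = cv A i k / n := by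
    intro k
    unfold av
    simp only [mul_ite, mul_one, mul_zero]
    rw [Finset.sum_ite_eq' Finset.univ i]
    simp [psd_row_symm A k i]
  have e2 : av2 (fun k j => (if k = i then (1 : ℝ) else 0) * (if j = i then 1 else 0) * cv A k j) =
      1 / (n : ℝ) ^ 2 := by
    unfold av2
    congr 1
    rw [Finset.sum_eq_single i]
    · rw [Finset.sum_eq_single i]
      · simp [hA i]
      · intro b _ hb; simp [hb]
      · intro hb; exact absurd (Finset.mem_univ _) hb
    · intro b _ hb; simp [hb]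
    · intro hb; exact absurd (Finset.mem_univ _) hb
  simp only [e1] at h
  rw [e2] at h
  have e3 : av (fun k => (cv A i k / n) ^ 2) = av (fun k => cv A i k ^ 2) / (n : ℝ) ^ 2 := by
    unfold av
    simp only [div_pow]
    rw [← Finset.sum_div, div_div, div_div, mul_comm]
  rw [e3, mul_one_div] at h
  exact (div_le_div_iff_of_pos_right (by positivity)).mp h

/-- `avg_i m_i² ≤ ρ δ` -/
theorem psd_mean (A : Fin n → ι → ℝ) :
    av (fun i => (av (fun j => cv A i j)) ^ 2) ≤ rho A * del A := by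
  have h := psd A (fun _ => 1)
  simp only [mul_one, one_mul] at h
  exact h
-- END psd_row

-- BEGIN cv_basic
theorem cv_abs (A : Fin n → ι → ℝ) (hA : ∀ i, cv A i i = 1) (i j : Fin n) : |cv A i j| ≤ 1 := by
  have h := Finset.sum_mul_sq_le_sq_mul_sq (Finset.univ : Finset ι) (A i) (A j)
  have h1 := hA i
  have h2 := hA j
  unfold cv at h1 h2
  simp only [← _root_.sq] at h1 h2
  rw [h1, h2] at h
  have h3 : (cv A i j) ^ 2 ≤ 1 := by unfold cv; linarith
  exact abs_le_one_iff_mul_self_le_one.mpr (by nlinarith)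

private theorem cv_basic_av_le {f : Fin n → ℝ} (h : ∀ i, f i ≤ 1) : av f ≤ 1 := by
  refine le_trans (av_mono (g := fun _ => 1) h) ?_
  unfold av
  simp only [Finset.sum_const, Finset.card_univ, Fintype.card_fin, nsmul_eq_mul, mul_one]
  exact div_self_le_one _

theorem del_nonneg (A : Fin n → ι → ℝ) : 0 ≤ del A := by
  unfold del av2
  apply div_nonneg _ (by positivity)
  have : ∑ i, ∑ j, cv A i j = ∑ k, (∑ i, A i k) ^ 2 := by
    calc ∑ i, ∑ j, cv A i j = ∑ i, ∑ k, ∑ j, A i k * A j k := by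
          refine Finset.sum_congr rfl fun i _ => ?_
          unfold cv
          exact Finset.sum_comm
      _ = ∑ k, ∑ i, ∑ j, A i k * A j k := Finset.sum_comm
      _ = ∑ k, (∑ i, A i k) ^ 2 := by
          refine Finset.sum_congr rfl fun k _ => ?_
          rw [_root_.sq, Finset.sum_mul_sum]
  rw [this]
  exact Finset.sum_nonneg fun k _ => sq_nonneg _

theorem del_le (A : Fin n → ι → ℝ) (hA : ∀ i, cv A i i = 1) : del A ≤ 1 := by
  unfold del
  rw [av2_eq]
  exact cv_basic_av_le fun i => cv_basic_av_le fun j => (abs_le.mp (cv_abs A hA i j)).2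

theorem rho_nonneg (A : Fin n → ι → ℝ) : 0 ≤ rho A := by
  unfold rho
  exact sqrt_nonneg _

theorem rho_le (A : Fin n → ι → ℝ) (hA : ∀ i, cv A i i = 1) : rho A ≤ 1 := by
  unfold rho
  rw [sqrt_le_one, av2_eq]
  refine cv_basic_av_le fun i => cv_basic_av_le fun j => ?_
  rw [sq_le_one_iff_abs_le_one]
  exact cv_abs A hA i j

/-- the row means are at most one in absolute value -/
theorem mrow_abs (A : Fin n → ι → ℝ) (hA : ∀ i, cv A i i = 1) (i : Fin n) :
    |av (fun j => cv A i j)| ≤ 1 := by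
  rw [abs_le]
  constructor
  · have h : av (fun j => -cv A i j) ≤ 1 :=
      cv_basic_av_le fun j => by linarith [(abs_le.mp (cv_abs A hA i j)).1]
    have e : av (fun j => -cv A i j) = -av (fun j => cv A i j) := by
      unfold av
      rw [Finset.sum_neg_distrib, neg_div]
    linarith
  · exact cv_basic_av_le fun j => (abs_le.mp (cv_abs A hA i j)).2
-- END cv_basic

-- BEGIN mean_sq
/-- the variance of the mean -/
theorem mean_sq (A : Fin n → ι → ℝ) : EG A (fun x => av x ^ 2) = del A := by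
  have e1 : (fun x : Fin n → ℝ => av x ^ 2) =
      fun x => (1 / (n : ℝ) ^ 2) * ∑ i, ∑ j, x i * x j := by
    funext x
    unfold av
    rw [div_pow, _root_.sq (∑ i, x i), Finset.sum_mul_sum]
    ring
  have g : ∀ i j : Fin n, Gr (fun x : Fin n → ℝ => x i * x j) :=
    fun i j => (Gr.coord i).mul (Gr.coord j)
  have g' : ∀ i : Fin n, Gr (fun x : Fin n → ℝ => ∑ j, x i * x j) :=
    fun i => Gr.sum Finset.univ (g i)
  rw [e1, EG_const_mul, EG_sum Finset.univ g' A]
  have e2 : ∀ i : Fin n, EG A (fun x : Fin n → ℝ => ∑ j, x i * x j) = ∑ j, cv A i j := by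
    intro i
    rw [EG_sum Finset.univ (g i) A]
    exact Finset.sum_congr rfl fun j _ => mom2 A i j
  rw [Finset.sum_congr rfl fun i _ => e2 i]
  unfold del av2
  ring
-- END mean_sq

-- BEGIN var_bd
private theorem var_bd_symm (A : Fin n → ι → ℝ) (i j : Fin n) : cv A i j = cv A j i := by
  unfold cv
  exact Finset.sum_congr rfl fun k _ => mul_comm _ _

private theorem var_bd_key (b c : ℝ) (i j : Fin n) (g : Fin n → ℝ) :
    ∑ l, (b * ((if l = i then 1 else 0) + (if l = j then 1 else 0)) - c) *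
      g l = b * (g i + g j) - c * ∑ l, g l := by
  have h : ∀ l, (b * ((if l = i then 1 else 0) + (if l = j then 1 else 0)) - c) * g l =
      b * (if l = i then g l else 0) + b * (if l = j then g l else 0) - c * g l := by
    intro l
    split_ifs <;> ring
  rw [Finset.sum_congr rfl fun l _ => h l, Finset.sum_sub_distrib, Finset.sum_add_distrib,
    ← Finset.mul_sum, ← Finset.mul_sum, ← Finset.mul_sum,
    Finset.sum_ite_eq' Finset.univ i, Finset.sum_ite_eq' Finset.univ j]
  simp only [Finset.mem_univ, if_true]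
  ring

/-- `Var (x_i + x_j - 2 x̄) ≤ 16` as an exponential moment -/
theorem var_bd (A : Fin n → ι → ℝ) (hA : ∀ i, cv A i i = 1) (β : ℝ) (i j : Fin n) :
    EG A (fun x => exp (2 * β * (x i + x j - 2 * av x))) ≤ exp (32 * β ^ 2) := by
  have hn : 0 < n := i.pos
  have hn' : (0 : ℝ) < n := by exact_mod_cast hn
  set u : Fin n → ℝ := fun l => (2 * β) * ((if l = i then 1 else 0) + (if l = j then 1 else 0)) -
    4 * β / n with hu
  have h := mgf A u
  have f1 : (fun x : Fin n → ℝ => exp (∑ l, u l * x l)) =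
      fun x => exp (2 * β * (x i + x j - 2 * av x)) := by
    funext x
    rw [hu, var_bd_key (2 * β) (4 * β / n) i j x]
    congr 1
    unfold av
    ring
  rw [f1] at h
  rw [h]
  apply exp_le_exp.mpr
  have q1 : ∀ l, ∑ m, u l * u m * cv A l m =
      u l * (2 * β * (cv A l i + cv A l j) - 4 * β / n * ∑ m, cv A l m) := by
    intro l
    rw [← var_bd_key (2 * β) (4 * β / n) i j (fun m => cv A l m), Finset.mul_sum]
    exact Finset.sum_congr rfl fun m _ => by rw [hu]; ring
  rw [Finset.sum_congr rfl fun l _ => q1 l]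
  have q2 := var_bd_key (2 * β) (4 * β / n) i j
    (fun l => 2 * β * (cv A l i + cv A l j) - 4 * β / n * ∑ m, cv A l m)
  have q3 : ∑ l, u l * (2 * β * (cv A l i + cv A l j) - 4 * β / n * ∑ m, cv A l m) =
      ∑ l, (2 * β * ((if l = i then 1 else 0) + (if l = j then 1 else 0)) - 4 * β / n) *
        (2 * β * (cv A l i + cv A l j) - 4 * β / n * ∑ m, cv A l m) := rfl
  rw [q3, q2]
  have q4 : ∑ l, (2 * β * (cv A l i + cv A l j) - 4 * β / n * ∑ m, cv A l m) =
      2 * β * (∑ m, cv A i m + ∑ m, cv A j m) - 4 * β / n * ∑ l, ∑ m, cv A l m := by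
    rw [Finset.sum_sub_distrib, ← Finset.mul_sum, ← Finset.mul_sum, Finset.sum_add_distrib]
    congr 1
    congr 1
    rw [Finset.sum_congr rfl fun l _ => var_bd_symm A l i,
      Finset.sum_congr rfl fun l _ => var_bd_symm A l j]
  rw [q4, hA i, hA j, var_bd_symm A j i]
  have m1 := abs_le.mp (mrow_abs A hA i)
  have m2 := abs_le.mp (mrow_abs A hA j)
  have m3 := abs_le.mp (cv_abs A hA i j)
  have m4 := del_le A hA
  have s1 : ∑ m, cv A i m = n * av (fun m => cv A i m) := by
    unfold av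
    field_simp
  have s2 : ∑ m, cv A j m = n * av (fun m => cv A j m) := by
    unfold av
    field_simp
  have s3 : ∑ l, ∑ m, cv A l m = (n : ℝ) ^ 2 * del A := by
    unfold del av2
    field_simp
  rw [s1, s2, s3]
  have e : (2 * β * (2 * β * (1 + cv A i j) - 4 * β / ↑n * (↑n * av (fun m => cv A i m)) +
      (2 * β * (cv A i j + 1) - 4 * β / ↑n * (↑n * av (fun m => cv A j m)))) -
      4 * β / ↑n * (2 * β * (↑n * av (fun m => cv A i m) + ↑n * av (fun m => cv A j m)) -
        4 * β / ↑n * (↑n ^ 2 * del A))) / 2 =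
      β ^ 2 * (4 + 4 * cv A i j - 8 * av (fun m => cv A i m) - 8 * av (fun m => cv A j m) +
        8 * del A) := by
    field_simp
    ring
  rw [e]
  have h32 : 4 + 4 * cv A i j - 8 * av (fun m => cv A i m) - 8 * av (fun m => cv A j m) +
        8 * del A ≤ 32 := by linarith [m1.1, m2.1, m3.2]
  calc β ^ 2 * (4 + 4 * cv A i j - 8 * av (fun m => cv A i m) - 8 * av (fun m => cv A j m) +
        8 * del A) ≤ β ^ 2 * 32 := mul_le_mul_of_nonneg_left h32 (sq_nonneg _)
    _ = 32 * β ^ 2 := by ring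
-- END var_bd

-- BEGIN mgfZ
/-- the mean of `Z` -/
theorem mgfZ (hn : 0 < n) (A : Fin n → ι → ℝ) (hA : ∀ i, cv A i i = 1) (β : ℝ) :
    EG A (fun x => Zf β x) = exp (β ^ 2 / 2) := by
  have hn' : (0 : ℝ) < n := by exact_mod_cast hn
  have e1 : (fun x : Fin n → ℝ => Zf β x) = fun x => (1 / (n : ℝ)) * ∑ k, exp (β * x k) := by
    funext x
    unfold Zf Sm
    ring
  have e2 : ∀ k : Fin n, EG A (fun x : Fin n → ℝ => exp (β * x k)) = exp (β ^ 2 / 2) := by
    intro k
    have h := mgf A (fun i => if i = k then β else 0)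
    have f1 : (fun x : Fin n → ℝ => exp (∑ i, (if i = k then β else 0) * x i)) =
        fun x => exp (β * x k) := by
      funext x
      simp only [ite_mul, zero_mul]
      rw [Finset.sum_ite_eq' Finset.univ k]
      simp
    rw [f1] at h
    rw [h]
    congr 1
    have f2 : ∑ i, ∑ j, (if i = k then β else 0) * (if j = k then β else 0) * cv A i j = β ^ 2 := by
      rw [Finset.sum_eq_single k]
      · rw [Finset.sum_eq_single k]
        · simp [hA k]; ring
        · intro b _ hb; simp [hb]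
        · intro hb; exact absurd (Finset.mem_univ _) hb
      · intro b _ hb; simp [hb]
      · intro hb; exact absurd (Finset.mem_univ _) hb
    rw [f2]
  rw [e1, EG_const_mul, EG_sum Finset.univ (fun k => Gr.exp1 β k) A,
    Finset.sum_congr rfl fun k _ => e2 k]
  simp only [Finset.sum_const, Finset.card_univ, Fintype.card_fin, nsmul_eq_mul]
  field_simp
-- END mgfZ

-- BEGIN E1
private theorem E1_pt (hn : 0 < n) (β : ℝ) (x : Fin n → ℝ) (i j : Fin n) :
    exp (-β ^ 2) / (n : ℝ) ^ 2 *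
      (1 + (β * x i + β * x j) - 2 * (exp (-(β ^ 2 / 2)) * Zf β x - 1)) ≤
      pw β x i * pw β x j := by
  have hn' : (0 : ℝ) < n := by exact_mod_cast hn
  have hZ := Zf_pos hn β x
  have hS := Sm_pos hn β x
  have hSZ : Sm β x = n * Zf β x := by
    unfold Zf
    field_simp
  have h1 : pw β x i * pw β x j = exp (β * x i + β * x j - 2 * log (Zf β x)) / (n : ℝ) ^ 2 := by
    have h2 : exp (β * x i + β * x j - 2 * log (Zf β x)) =
        exp (β * x i) * exp (β * x j) / (Zf β x * Zf β x) := by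
      rw [exp_sub, exp_add, two_mul, exp_add, exp_log hZ]
    rw [h2]
    unfold pw
    rw [hSZ]
    field_simp
  rw [h1]
  have h3 : log (Zf β x) ≤ exp (-(β ^ 2 / 2)) * Zf β x - 1 + β ^ 2 / 2 := by
    have h4 : log (exp (-(β ^ 2 / 2)) * Zf β x) ≤ exp (-(β ^ 2 / 2)) * Zf β x - 1 :=
      log_le_sub_one_of_pos (by positivity)
    rw [log_mul (exp_pos _).ne' hZ.ne', log_exp] at h4
    linarith
  have h5 : exp (β * x i + β * x j - 2 * log (Zf β x)) =
      exp (-β ^ 2) * exp (β * x i + β * x j - 2 * log (Zf β x) + β ^ 2) := by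
    rw [← exp_add]
    ring_nf
  have h6 : 1 + (β * x i + β * x j) - 2 * (exp (-(β ^ 2 / 2)) * Zf β x - 1) ≤
      exp (β * x i + β * x j - 2 * log (Zf β x) + β ^ 2) := by
    have h7 := add_one_le_exp (β * x i + β * x j - 2 * log (Zf β x) + β ^ 2)
    linarith
  rw [h5, div_mul_eq_mul_div]
  apply div_le_div_of_nonneg_right _ (by positivity)
  exact mul_le_mul_of_nonneg_left h6 (exp_pos _).le

/-- lower bound of `E π_i π_j` -/
theorem E1 (hn : 0 < n) (A : Fin n → ι → ℝ) (hA : ∀ i, cv A i i = 1) (β : ℝ) (i j : Fin n) :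
    exp (-β ^ 2) / (n : ℝ) ^ 2 ≤ EG A (fun x => pw β x i * pw β x j) := by
  have g1 : Gr (fun x : Fin n → ℝ => β * x i) := (Gr.coord i).const_mul β
  have g2 : Gr (fun x : Fin n → ℝ => β * x j) := (Gr.coord j).const_mul β
  have g3 : Gr (fun x : Fin n → ℝ => exp (-(β ^ 2 / 2)) * Zf β x) := (Gr.Zf β).const_mul _
  have g4 : Gr (fun x : Fin n → ℝ => 1 + (β * x i + β * x j)) :=
    (Gr.const 1).add (g1.add g2)
  have g5 : Gr (fun x : Fin n → ℝ => exp (-(β ^ 2 / 2)) * Zf β x - 1) := g3.sub (Gr.const 1)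
  have g6 : Gr (fun x : Fin n → ℝ => 2 * (exp (-(β ^ 2 / 2)) * Zf β x - 1)) := g5.const_mul 2
  have g7 : Gr (fun x : Fin n → ℝ => 1 + (β * x i + β * x j) - 2 * (exp (-(β ^ 2 / 2)) * Zf β x - 1)) :=
    g4.sub g6
  have g8 : Gr (fun x : Fin n → ℝ => exp (-β ^ 2) / (n : ℝ) ^ 2 *
      (1 + (β * x i + β * x j) - 2 * (exp (-(β ^ 2 / 2)) * Zf β x - 1))) := g7.const_mul _
  have h := EG_mono g8 ((Gr.pw β i).mul (Gr.pw β j)) (fun x => E1_pt hn β x i j) A
  have e1 : EG A (fun x => exp (-β ^ 2) / (n : ℝ) ^ 2 *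
      (1 + (β * x i + β * x j) - 2 * (exp (-(β ^ 2 / 2)) * Zf β x - 1))) = exp (-β ^ 2) / (n : ℝ) ^ 2 := by
    rw [EG_const_mul (exp (-β ^ 2) / (n : ℝ) ^ 2)
        (fun x => 1 + (β * x i + β * x j) - 2 * (exp (-(β ^ 2 / 2)) * Zf β x - 1)) A,
      EG_sub g4 g6 A, EG_add (Gr.const 1) (g1.add g2) A, EG_add g1 g2 A, EG_const,
      EG_const_mul β (fun x => x i) A, EG_const_mul β (fun x => x j) A,
      EG_const_mul 2 (fun x => exp (-(β ^ 2 / 2)) * Zf β x - 1) A, EG_sub g3 (Gr.const 1) A,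
      EG_const, EG_const_mul (exp (-(β ^ 2 / 2))) (fun x => Zf β x) A, mgfZ hn A hA β, mom1, mom1,
      ← exp_add]
    have : -(β ^ 2 / 2) + β ^ 2 / 2 = 0 := by ring
    rw [this, exp_zero]
    ring
  rw [e1] at h
  exact h
-- END E1

-- BEGIN E2
private theorem E2_jensen (hn : 0 < n) (β : ℝ) (x : Fin n → ℝ) : (n : ℝ) * exp (β * av x) ≤ Sm β x := by
  have hn' : (0 : ℝ) < n := by exact_mod_cast hn
  have h1 : ∀ k, exp (β * av x) * (1 + (β * x k - β * av x)) ≤ exp (β * x k) := by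
    intro k
    have h2 : exp (β * x k) = exp (β * av x) * exp (β * x k - β * av x) := by
      rw [← Real.exp_add]; congr 1; ring
    rw [h2]
    apply mul_le_mul_of_nonneg_left _ (Real.exp_pos _).le
    have := Real.add_one_le_exp (β * x k - β * av x)
    linarith
  have h3 : ∑ k, exp (β * av x) * (1 + (β * x k - β * av x)) ≤ Sm β x :=
    Finset.sum_le_sum fun k _ => h1 k
  have h4 : ∑ k : Fin n, exp (β * av x) * (1 + (β * x k - β * av x)) = (n : ℝ) * exp (β * av x) := by
    rw [← Finset.mul_sum, Finset.sum_add_distrib, Finset.sum_sub_distrib, ← Finset.mul_sum]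
    simp only [Finset.sum_const, Finset.card_univ, Fintype.card_fin, nsmul_eq_mul, mul_one]
    have h5 : (n : ℝ) * (β * av x) = β * ∑ i, x i := by
      unfold av; field_simp
    rw [h5]; ring
  linarith

private theorem E2_pt (hn : 0 < n) (β : ℝ) (x : Fin n → ℝ) (i j : Fin n) :
    pw β x i * pw β x j ≤ 1 / (n : ℝ) ^ 2 * (exp (β * x i) * exp (β * x j) * exp (-(2 * β) * av x)) := by
  have hn' : (0 : ℝ) < n := by exact_mod_cast hn
  have h1 := E2_jensen hn β x
  have h2 : 0 < (n : ℝ) * exp (β * av x) := by positivity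
  have h3 : ∀ k, pw β x k ≤ exp (β * x k) / ((n : ℝ) * exp (β * av x)) := by
    intro k
    unfold pw
    exact div_le_div_of_nonneg_left (Real.exp_pos _).le h2 h1
  have h4 : 0 ≤ pw β x j := by unfold pw; exact div_nonneg (Real.exp_pos _).le (h2.le.trans h1)
  calc pw β x i * pw β x j ≤ (exp (β * x i) / ((n : ℝ) * exp (β * av x))) * (exp (β * x j) / ((n : ℝ) * exp (β * av x))) :=
        mul_le_mul (h3 i) (h3 j) h4 (by positivity)
    _ = 1 / (n : ℝ) ^ 2 * (exp (β * x i) * exp (β * x j) * exp (-(2 * β) * av x)) := by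
        have h5 : exp (-(2 * β) * av x) = (exp (β * av x) * exp (β * av x))⁻¹ := by
          rw [← Real.exp_add, ← Real.exp_neg]; congr 1; ring
        rw [h5]
        have h6 : exp (β * av x) ≠ 0 := (Real.exp_pos _).ne'
        field_simp

/-- upper bound of `E |x̄| π_i π_j` -/
theorem E2 (hn : 0 < n) (A : Fin n → ι → ℝ) (hA : ∀ i, cv A i i = 1) (β : ℝ) (i j : Fin n) :
    EG A (fun x => |av x| * (pw β x i * pw β x j)) ≤
      √(del A) * exp (16 * β ^ 2) / (n : ℝ) ^ 2 := by
  have hn' : (0 : ℝ) < n := by exact_mod_cast hn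
  set Y : (Fin n → ℝ) → ℝ := fun x => exp (β * x i) * exp (β * x j) * exp (-(2 * β) * av x) with hY
  have gY : Gr Y := ((Gr.exp1 β i).mul (Gr.exp1 β j)).mul (Gr.expbar (-(2 * β)))
  have gA : Gr (fun x : Fin n → ℝ => |av x|) := Gr.av.abs
  have gAY : Gr (fun x => |av x| * Y x) := gA.mul gY
  have hYsq : ∀ x, Y x ^ 2 = exp (2 * β * (x i + x j - 2 * av x)) := by
    intro x
    rw [hY]
    simp only
    rw [← Real.exp_add, ← Real.exp_add, ← Real.exp_nat_mul]
    congr 1
    push_cast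
    ring
  have hc : EG A (fun x => Y x ^ 2) ≤ exp (32 * β ^ 2) := by
    have := var_bd A hA β i j
    simpa only [hYsq] using this
  have hb : EG A (fun x => |av x| * Y x) ≤ √(del A) * exp (16 * β ^ 2) := by
    have hq : ∀ t : ℝ, 0 ≤ del A * (t * t) + (-(2 * EG A (fun x => |av x| * Y x))) * t + EG A (fun x => Y x ^ 2) := by
      intro t
      have h1 : 0 ≤ EG A (fun x => (t * |av x| - Y x) ^ 2) :=
        MeasureTheory.integral_nonneg fun z => sq_nonneg _
      have h2 : EG A (fun x => (t * |av x| - Y x) ^ 2) =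
          EG A (fun x => (t * t) * av x ^ 2 - (2 * t) * (|av x| * Y x) + Y x ^ 2) := by
        congr 1
        funext x
        have := sq_abs (av x)
        rw [← this]; ring
      have g1 : Gr (fun x : Fin n → ℝ => (t * t) * av x ^ 2) := Gr.av.sq.const_mul _
      have g2 : Gr (fun x => (2 * t) * (|av x| * Y x)) := gAY.const_mul _
      rw [h2, EG_add (g1.sub g2) gY.sq, EG_sub g1 g2, EG_const_mul, EG_const_mul, mean_sq] at h1
      linarith
    have hd := discrim_le_zero hq
    unfold discrim at hd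
    have h3 : (EG A (fun x => |av x| * Y x)) ^ 2 ≤ del A * EG A (fun x => Y x ^ 2) := by nlinarith
    have h4 : del A * EG A (fun x => Y x ^ 2) ≤ (√(del A) * exp (16 * β ^ 2)) ^ 2 := by
      rw [mul_pow, Real.sq_sqrt (del_nonneg A), ← Real.exp_nat_mul]
      have h5 : ((2 : ℕ) : ℝ) * (16 * β ^ 2) = 32 * β ^ 2 := by push_cast; ring
      rw [h5]
      exact mul_le_mul_of_nonneg_left hc (del_nonneg A)
    exact abs_le_of_sq_le_sq' (h3.trans h4) (by positivity) |>.2
  have gL : Gr (fun x : Fin n → ℝ => |av x| * (pw β x i * pw β x j)) := gA.mul ((Gr.pw β i).mul (Gr.pw β j))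
  have gR : Gr (fun x => 1 / (n : ℝ) ^ 2 * (|av x| * Y x)) := gAY.const_mul _
  calc EG A (fun x => |av x| * (pw β x i * pw β x j)) ≤ EG A (fun x => 1 / (n : ℝ) ^ 2 * (|av x| * Y x)) := by
        apply EG_mono gL gR
        intro x
        have h1 := mul_le_mul_of_nonneg_left (E2_pt hn β x i j) (abs_nonneg (av x))
        calc |av x| * (pw β x i * pw β x j) ≤ _ := h1
          _ = 1 / (n : ℝ) ^ 2 * (|av x| * Y x) := by rw [hY]; ring
    _ = 1 / (n : ℝ) ^ 2 * EG A (fun x => |av x| * Y x) := EG_const_mul _ _ A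
    _ ≤ 1 / (n : ℝ) ^ 2 * (√(del A) * exp (16 * β ^ 2)) := mul_le_mul_of_nonneg_left hb (by positivity)
    _ = √(del A) * exp (16 * β ^ 2) / (n : ℝ) ^ 2 := by ring
-- END E2

-- BEGIN N_le
private theorem N_le_eq (hn : 0 < n) (Δ : Fin n → Fin n → ℝ) (β : ℝ) (x : Fin n → ℝ) :
    qN Δ β x = (Zf β x ^ 3)⁻¹ *
      av (fun i => exp (β * x i) * (av (fun j => Δ i j * exp (β * x j))) ^ 2) := by
  have hn' : (0 : ℝ) < n := by exact_mod_cast hn
  have hZ := Zf_pos hn β x
  have hSZ : Sm β x = n * Zf β x := by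
    unfold Zf
    field_simp
  unfold qN av pw
  rw [hSZ, Finset.sum_div, Finset.mul_sum]
  refine Finset.sum_congr rfl fun i _ => ?_
  have h1 : ∑ j, Δ i j * (exp (β * x j) / (n * Zf β x)) =
      (∑ j, Δ i j * exp (β * x j)) / (n * Zf β x) := by
    rw [Finset.sum_div]
    exact Finset.sum_congr rfl fun j _ => by ring
  rw [h1]
  field_simp

private theorem N_le_nonneg (Δ : Fin n → Fin n → ℝ) (β : ℝ) (x : Fin n → ℝ) :
    0 ≤ av (fun i => exp (β * x i) * (av (fun j => Δ i j * exp (β * x j))) ^ 2) :=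
  av_nonneg fun i => mul_nonneg (exp_pos _).le (sq_nonneg _)

/-- pointwise bounds of `N` and `Z N` -/
theorem N_le (hn : 0 < n) (Δ : Fin n → Fin n → ℝ) (β : ℝ) (x : Fin n → ℝ) :
    qN Δ β x ≤ exp (-(3 * β * av x)) *
      av (fun i => exp (β * x i) * (av (fun j => Δ i j * exp (β * x j))) ^ 2) := by
  rw [N_le_eq hn]
  apply mul_le_mul_of_nonneg_right _ (N_le_nonneg Δ β x)
  have h1 := exp_bar_le_Zf hn β x
  have h2 : exp (3 * β * av x) ≤ Zf β x ^ 3 := by
    have : exp (3 * β * av x) = exp (β * av x) ^ 3 := by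
      rw [← exp_nat_mul]
      congr 1
      push_cast
      ring
    rw [this]
    exact pow_le_pow_left₀ (exp_pos _).le h1 3
  rw [exp_neg]
  exact inv_anti₀ (exp_pos _) h2

theorem ZN_le (hn : 0 < n) (Δ : Fin n → Fin n → ℝ) (β : ℝ) (x : Fin n → ℝ) :
    Zf β x * qN Δ β x ≤ exp (-(2 * β * av x)) *
      av (fun i => exp (β * x i) * (av (fun j => Δ i j * exp (β * x j))) ^ 2) := by
  have hZ := Zf_pos hn β x
  have h0 : Zf β x * qN Δ β x = (Zf β x ^ 2)⁻¹ *
      av (fun i => exp (β * x i) * (av (fun j => Δ i j * exp (β * x j))) ^ 2) := by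
    rw [N_le_eq hn]
    field_simp
  rw [h0]
  apply mul_le_mul_of_nonneg_right _ (N_le_nonneg Δ β x)
  have h1 := exp_bar_le_Zf hn β x
  have h2 : exp (2 * β * av x) ≤ Zf β x ^ 2 := by
    have : exp (2 * β * av x) = exp (β * av x) ^ 2 := by
      rw [← exp_nat_mul]
      congr 1
      push_cast
      ring
    rw [this]
    exact pow_le_pow_left₀ (exp_pos _).le h1 2
  rw [exp_neg]
  exact inv_anti₀ (exp_pos _) h2
-- END N_le

-- BEGIN mgf3
private theorem mgf3_symm (A : Fin n → ι → ℝ) (i j : Fin n) : cv A i j = cv A j i := by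
  unfold cv
  exact Finset.sum_congr rfl fun k _ => mul_comm _ _

private theorem mgf3_key (b c : ℝ) (i j k : Fin n) (g : Fin n → ℝ) :
    ∑ l, (b * ((if l = i then 1 else 0) + (if l = j then 1 else 0) + (if l = k then 1 else 0)) - c) *
      g l = b * (g i + g j + g k) - c * ∑ l, g l := by
  have h : ∀ l, (b * ((if l = i then 1 else 0) + (if l = j then 1 else 0) +
      (if l = k then 1 else 0)) - c) * g l =
      b * (if l = i then g l else 0) + b * (if l = j then g l else 0) +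
        b * (if l = k then g l else 0) - c * g l := by
    intro l
    split_ifs <;> ring
  rw [Finset.sum_congr rfl fun l _ => h l, Finset.sum_sub_distrib, Finset.sum_add_distrib,
    Finset.sum_add_distrib, ← Finset.mul_sum, ← Finset.mul_sum, ← Finset.mul_sum, ← Finset.mul_sum,
    Finset.sum_ite_eq' Finset.univ i, Finset.sum_ite_eq' Finset.univ j,
    Finset.sum_ite_eq' Finset.univ k]
  simp only [Finset.mem_univ, if_true]
  ring

/-- the exponential moment of `x_i + x_j + x_k - κ x̄`, factorised -/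
theorem mgf3 (A : Fin n → ι → ℝ) (hA : ∀ i, cv A i i = 1) (β κ : ℝ) (i j k : Fin n) :
    EG A (fun x => exp (β * x i) * exp (β * x j) * exp (β * x k) * exp (-(κ * β * av x))) =
      exp (β ^ 2 / 2 * (3 - 2 * κ * av (fun l => cv A i l) + κ ^ 2 * del A)) *
        exp (β ^ 2 * (cv A i j - κ * av (fun l => cv A j l))) *
        exp (β ^ 2 * (cv A i k - κ * av (fun l => cv A k l))) * exp (β ^ 2 * cv A j k) := by
  have hn : 0 < n := i.pos
  have hn' : (0 : ℝ) < n := by exact_mod_cast hn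
  set u : Fin n → ℝ := fun l => β * ((if l = i then 1 else 0) + (if l = j then 1 else 0) +
    (if l = k then 1 else 0)) - κ * β / n with hu
  have h := mgf A u
  have f1 : (fun x : Fin n → ℝ => exp (∑ l, u l * x l)) =
      fun x => exp (β * x i) * exp (β * x j) * exp (β * x k) * exp (-(κ * β * av x)) := by
    funext x
    rw [hu, mgf3_key β (κ * β / n) i j k x, ← exp_add, ← exp_add, ← exp_add]
    congr 1
    unfold av
    ring
  rw [f1] at h
  rw [h, ← exp_add, ← exp_add, ← exp_add]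
  congr 1
  have q1 : ∀ l, ∑ m, u l * u m * cv A l m =
      u l * (β * (cv A l i + cv A l j + cv A l k) - κ * β / n * ∑ m, cv A l m) := by
    intro l
    rw [← mgf3_key β (κ * β / n) i j k (fun m => cv A l m), Finset.mul_sum]
    exact Finset.sum_congr rfl fun m _ => by rw [hu]; ring
  rw [Finset.sum_congr rfl fun l _ => q1 l]
  have q2 := mgf3_key β (κ * β / n) i j k
    (fun l => β * (cv A l i + cv A l j + cv A l k) - κ * β / n * ∑ m, cv A l m)
  have q3 : ∑ l, u l * (β * (cv A l i + cv A l j + cv A l k) - κ * β / n * ∑ m, cv A l m) =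
      ∑ l, (β * ((if l = i then 1 else 0) + (if l = j then 1 else 0) +
        (if l = k then 1 else 0)) - κ * β / n) *
        (β * (cv A l i + cv A l j + cv A l k) - κ * β / n * ∑ m, cv A l m) := rfl
  rw [q3, q2]
  have q4 : ∑ l, (β * (cv A l i + cv A l j + cv A l k) - κ * β / n * ∑ m, cv A l m) =
      β * (∑ m, cv A i m + ∑ m, cv A j m + ∑ m, cv A k m) - κ * β / n * ∑ l, ∑ m, cv A l m := by
    rw [Finset.sum_sub_distrib, ← Finset.mul_sum, ← Finset.mul_sum, Finset.sum_add_distrib,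
      Finset.sum_add_distrib]
    congr 1
    congr 1
    rw [Finset.sum_congr rfl fun l _ => mgf3_symm A l i,
      Finset.sum_congr rfl fun l _ => mgf3_symm A l j,
      Finset.sum_congr rfl fun l _ => mgf3_symm A l k]
  rw [q4, hA i, hA j, hA k, mgf3_symm A j i, mgf3_symm A k i, mgf3_symm A k j]
  unfold del av av2
  field_simp
  ring
-- END mgf3

-- BEGIN expandN
/-- the expectation of the upper bound of `N` -/
theorem expandN (A : Fin n → ι → ℝ) (hA : ∀ i, cv A i i = 1) (Δ : Fin n → Fin n → ℝ) (β κ : ℝ) :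
    EG A (fun x => exp (-(κ * β * av x)) *
      av (fun i => exp (β * x i) * (av (fun j => Δ i j * exp (β * x j))) ^ 2)) =
    av (fun i => exp (β ^ 2 / 2 * (3 - 2 * κ * av (fun l => cv A i l) + κ ^ 2 * del A)) *
      av2 (fun j k => (Δ i j * exp (β ^ 2 * (cv A i j - κ * av (fun l => cv A j l)))) *
        (Δ i k * exp (β ^ 2 * (cv A i k - κ * av (fun l => cv A k l)))) *
          exp (β ^ 2 * cv A j k))) := by
  have f1 : (fun x : Fin n → ℝ => exp (-(κ * β * av x)) *
      av (fun i => exp (β * x i) * (av (fun j => Δ i j * exp (β * x j))) ^ 2)) =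
      fun x => ∑ i, ∑ j, ∑ k, (1 / (n : ℝ) * (1 / (n : ℝ) ^ 2) * (Δ i j * Δ i k)) *
        (exp (β * x i) * exp (β * x j) * exp (β * x k) * exp (-(κ * β * av x))) := by
    funext x
    have e0 : av (fun i => exp (β * x i) * (av (fun j => Δ i j * exp (β * x j))) ^ 2) =
        ∑ i, ∑ j, ∑ k, (1 / (n : ℝ) * (1 / (n : ℝ) ^ 2) * (Δ i j * Δ i k)) *
          (exp (β * x i) * exp (β * x j) * exp (β * x k)) := by
      have e1 : av (fun i => exp (β * x i) * (av (fun j => Δ i j * exp (β * x j))) ^ 2) =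
          ∑ i, exp (β * x i) * (av (fun j => Δ i j * exp (β * x j))) ^ 2 / n := by
        conv_lhs => unfold av
        rw [Finset.sum_div]
        rfl
      rw [e1]
      refine Finset.sum_congr rfl fun i _ => ?_
      unfold av
      rw [div_pow, _root_.sq (∑ j, Δ i j * exp (β * x j)), Finset.sum_mul_sum]
      rw [mul_div_assoc, div_div, mul_div_assoc', Finset.mul_sum, Finset.sum_div]
      refine Finset.sum_congr rfl fun j _ => ?_
      rw [Finset.mul_sum, Finset.sum_div]
      refine Finset.sum_congr rfl fun k _ => ?_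
      ring
    rw [e0, Finset.mul_sum]
    refine Finset.sum_congr rfl fun i _ => ?_
    rw [Finset.mul_sum]
    refine Finset.sum_congr rfl fun j _ => ?_
    rw [Finset.mul_sum]
    refine Finset.sum_congr rfl fun k _ => ?_
    ring
  have ge : Gr (fun x : Fin n → ℝ => exp (-(κ * β * av x))) := by
    have h := Gr.expbar (n := n) (-(κ * β))
    have e : (fun x : Fin n → ℝ => exp (-(κ * β) * av x)) =
        fun x => exp (-(κ * β * av x)) := by
      funext x
      ring_nf
    rwa [e] at h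
  have g0 : ∀ i j k : Fin n, Gr (fun x : Fin n → ℝ =>
      exp (β * x i) * exp (β * x j) * exp (β * x k) * exp (-(κ * β * av x))) :=
    fun i j k => (((Gr.exp1 β i).mul (Gr.exp1 β j)).mul (Gr.exp1 β k)).mul ge
  have g1 : ∀ i j k : Fin n, Gr (fun x : Fin n → ℝ =>
      (1 / (n : ℝ) * (1 / (n : ℝ) ^ 2) * (Δ i j * Δ i k)) *
      (exp (β * x i) * exp (β * x j) * exp (β * x k) * exp (-(κ * β * av x)))) :=
    fun i j k => (g0 i j k).const_mul _
  have g2 : ∀ i j : Fin n, Gr (fun x : Fin n → ℝ => ∑ k,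
      (1 / (n : ℝ) * (1 / (n : ℝ) ^ 2) * (Δ i j * Δ i k)) *
      (exp (β * x i) * exp (β * x j) * exp (β * x k) * exp (-(κ * β * av x)))) :=
    fun i j => Gr.sum Finset.univ (g1 i j)
  have g3 : ∀ i : Fin n, Gr (fun x : Fin n → ℝ => ∑ j, ∑ k,
      (1 / (n : ℝ) * (1 / (n : ℝ) ^ 2) * (Δ i j * Δ i k)) *
      (exp (β * x i) * exp (β * x j) * exp (β * x k) * exp (-(κ * β * av x)))) :=
    fun i => Gr.sum Finset.univ (g2 i)
  rw [f1, EG_sum Finset.univ g3 A]
  have r1 : ∀ i : Fin n, EG A (fun x : Fin n → ℝ => ∑ j, ∑ k,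
      (1 / (n : ℝ) * (1 / (n : ℝ) ^ 2) * (Δ i j * Δ i k)) *
      (exp (β * x i) * exp (β * x j) * exp (β * x k) * exp (-(κ * β * av x)))) =
      ∑ j, ∑ k, (1 / (n : ℝ) * (1 / (n : ℝ) ^ 2) * (Δ i j * Δ i k)) *
        (exp (β ^ 2 / 2 * (3 - 2 * κ * av (fun l => cv A i l) + κ ^ 2 * del A)) *
        exp (β ^ 2 * (cv A i j - κ * av (fun l => cv A j l))) *
        exp (β ^ 2 * (cv A i k - κ * av (fun l => cv A k l))) * exp (β ^ 2 * cv A j k)) := by
    intro i
    rw [EG_sum Finset.univ (g2 i) A]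
    refine Finset.sum_congr rfl fun j _ => ?_
    rw [EG_sum Finset.univ (g1 i j) A]
    refine Finset.sum_congr rfl fun k _ => ?_
    rw [EG_const_mul, mgf3 A hA]
  rw [Finset.sum_congr rfl fun i _ => r1 i]
  have r2 : ∀ F : Fin n → ℝ, av F = ∑ i, F i / n := by
    intro F
    unfold av
    rw [Finset.sum_div]
  rw [r2]
  refine Finset.sum_congr rfl fun i _ => ?_
  unfold av2
  have r3 : ∀ a b c d : ℝ, a * (b / c) / d = a * b / (c * d) := fun a b c d => by
    rw [mul_div_assoc', div_div]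
  rw [r3, Finset.mul_sum, Finset.sum_div]
  refine Finset.sum_congr rfl fun j _ => ?_
  rw [Finset.mul_sum, Finset.sum_div]
  refine Finset.sum_congr rfl fun k _ => ?_
  ring
-- END expandN

-- BEGIN hs
private theorem hs_exp (x : ℝ) : |exp x - 1| ≤ |x| * exp |x| := by
  rcases le_or_gt 0 x with hx | hx
  · have h1 : 1 ≤ exp x := one_le_exp hx
    rw [abs_of_nonneg (by linarith), abs_of_nonneg hx]
    have h2 := add_one_le_exp (-x)
    have h3 : (-x + 1) * exp x ≤ exp (-x) * exp x := mul_le_mul_of_nonneg_right h2 (exp_pos _).le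
    rw [← exp_add, neg_add_cancel, exp_zero] at h3
    linarith
  · have h1 : exp x < 1 := by
      have := exp_lt_exp.mpr hx
      rwa [exp_zero] at this
    rw [abs_of_neg (by linarith), abs_of_neg hx]
    have h2 := add_one_le_exp x
    have h3 : 1 ≤ exp (-x) := one_le_exp (by linarith)
    nlinarith

/-- Hilbert–Schmidt: the part of the form with `exp (β² r) - 1` -/
theorem hs (A : Fin n → ι → ℝ) (hA : ∀ i, cv A i i = 1) (β : ℝ) (w : Fin n → ℝ) :
    av2 (fun j k => w j * w k * (exp (β ^ 2 * cv A j k) - 1)) ≤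
      av (fun j => w j ^ 2) * (β ^ 2 * exp (β ^ 2) * rho A) := by
  rcases Nat.eq_zero_or_pos n with h0 | hn
  · subst h0
    simp [av, av2]
  have hn' : (0 : ℝ) < n := by exact_mod_cast hn
  have c := Finset.sum_mul_sq_le_sq_mul_sq (Finset.univ : Finset (Fin n × Fin n))
    (fun p => w p.1 * w p.2) (fun p => exp (β ^ 2 * cv A p.1 p.2) - 1)
  have d1 : ∑ p : Fin n × Fin n, (w p.1 * w p.2) * (exp (β ^ 2 * cv A p.1 p.2) - 1) =
      ∑ j, ∑ k, w j * w k * (exp (β ^ 2 * cv A j k) - 1) :=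
    Fintype.sum_prod_type' (fun j k => w j * w k * (exp (β ^ 2 * cv A j k) - 1))
  have d2 : ∑ p : Fin n × Fin n, (w p.1 * w p.2) ^ 2 = (∑ k, w k ^ 2) ^ 2 := by
    rw [_root_.sq (∑ k, w k ^ 2), Finset.sum_mul_sum]
    rw [Fintype.sum_prod_type' (fun k l => (w k * w l) ^ 2)]
    refine Finset.sum_congr rfl fun k _ => Finset.sum_congr rfl fun l _ => by ring
  have d3 : ∑ p : Fin n × Fin n, (exp (β ^ 2 * cv A p.1 p.2) - 1) ^ 2 ≤
      (β ^ 2 * exp (β ^ 2)) ^ 2 * ∑ i, ∑ j, cv A i j ^ 2 := by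
    rw [Fintype.sum_prod_type' (fun j k => (exp (β ^ 2 * cv A j k) - 1) ^ 2), Finset.mul_sum]
    refine Finset.sum_le_sum fun j _ => ?_
    rw [Finset.mul_sum]
    refine Finset.sum_le_sum fun k _ => ?_
    have h1 := hs_exp (β ^ 2 * cv A j k)
    have h2 : |β ^ 2 * cv A j k| ≤ β ^ 2 := by
      rw [abs_mul, abs_of_nonneg (sq_nonneg β)]
      exact mul_le_of_le_one_right (sq_nonneg β) (cv_abs A hA j k)
    have h3 : |β ^ 2 * cv A j k| * exp |β ^ 2 * cv A j k| ≤ |β ^ 2 * cv A j k| * exp (β ^ 2) :=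
      mul_le_mul_of_nonneg_left (exp_le_exp.mpr h2) (abs_nonneg _)
    have h4 : |exp (β ^ 2 * cv A j k) - 1| ≤ β ^ 2 * exp (β ^ 2) * |cv A j k| := by
      calc |exp (β ^ 2 * cv A j k) - 1| ≤ |β ^ 2 * cv A j k| * exp (β ^ 2) := le_trans h1 h3
        _ = β ^ 2 * exp (β ^ 2) * |cv A j k| := by
          rw [abs_mul, abs_of_nonneg (sq_nonneg β)]; ring
    have h5 := pow_le_pow_left₀ (abs_nonneg _) h4 2
    rw [sq_abs, mul_pow, sq_abs] at h5
    exact h5
  rw [d1, d2] at c
  set R : ℝ := ∑ i, ∑ j, cv A i j ^ 2 with hR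
  have hR0 : 0 ≤ R := Finset.sum_nonneg fun k _ => Finset.sum_nonneg fun l _ => sq_nonneg _
  have hW : 0 ≤ ∑ k, w k ^ 2 := Finset.sum_nonneg fun k _ => sq_nonneg _
  have h6 : ∑ j, ∑ k, w j * w k * (exp (β ^ 2 * cv A j k) - 1) ≤
      (∑ k, w k ^ 2) * (β ^ 2 * exp (β ^ 2) * √R) := by
    apply le_of_sq_le_sq _ (by positivity)
    rw [mul_pow, mul_pow (β ^ 2 * exp (β ^ 2)), sq_sqrt hR0]
    exact le_trans c (mul_le_mul_of_nonneg_left d3 (sq_nonneg _))
  have e2 : rho A = √R / n := by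
    unfold rho av2
    rw [sqrt_div' _ (by positivity), sqrt_sq hn'.le]
  rw [e2]
  unfold av av2
  calc (∑ j, ∑ k, w j * w k * (exp (β ^ 2 * cv A j k) - 1)) / (n : ℝ) ^ 2
      ≤ ((∑ k, w k ^ 2) * (β ^ 2 * exp (β ^ 2) * √R)) / (n : ℝ) ^ 2 :=
        div_le_div_of_nonneg_right h6 (by positivity)
    _ = (∑ j, w j ^ 2) / n * (β ^ 2 * exp (β ^ 2) * (√R / n)) := by
        field_simp
-- END hs

-- BEGIN wdev
private theorem wdev_exp (c M : ℝ) (hc : |c| ≤ M) : (exp c - 1) ^ 2 ≤ c ^ 2 * exp (2 * M) := by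
  have hM : 0 ≤ M := (abs_nonneg c).trans hc
  rcases le_total 0 c with h | h
  · have h1 : 0 ≤ exp c - 1 := by linarith [add_one_le_exp c]
    have h2 : exp c - 1 ≤ c * exp c := by
      have h3 := add_one_le_exp (-c)
      have h4 : (-c + 1) * exp c ≤ exp (-c) * exp c :=
        mul_le_mul_of_nonneg_right h3 (exp_pos c).le
      rw [← Real.exp_add, neg_add_cancel, Real.exp_zero] at h4
      linarith
    have h5 : exp c ≤ exp M := exp_le_exp.2 ((le_abs_self c).trans hc)
    have h6 : exp c - 1 ≤ c * exp M := h2.trans (mul_le_mul_of_nonneg_left h5 h)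
    calc (exp c - 1) ^ 2 ≤ (c * exp M) ^ 2 := pow_le_pow_left₀ h1 h6 2
      _ = c ^ 2 * exp (2 * M) := by
        rw [mul_pow, ← Real.exp_nat_mul]
        norm_num
  · have h1 : 0 ≤ 1 - exp c := by linarith [exp_le_one_iff.2 h]
    have h2 : 1 - exp c ≤ -c := by linarith [add_one_le_exp c]
    have h3 : (1 : ℝ) ≤ exp (2 * M) := one_le_exp (by positivity)
    calc (exp c - 1) ^ 2 = (1 - exp c) ^ 2 := by ring
      _ ≤ (-c) ^ 2 := pow_le_pow_left₀ h1 h2 2
      _ = c ^ 2 * 1 := by ring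
      _ ≤ c ^ 2 * exp (2 * M) := mul_le_mul_of_nonneg_left h3 (sq_nonneg c)

/-- the deviation of the weights from one -/
theorem wdev (A : Fin n → ι → ℝ) (hA : ∀ i, cv A i i = 1) (β κ : ℝ) (h0 : 0 ≤ κ) (h3 : κ ≤ 3)
    (i : Fin n) :
    av (fun j => (exp (β ^ 2 * (cv A i j - κ * av (fun l => cv A j l))) - 1) ^ 2) ≤
      20 * β ^ 4 * exp (8 * β ^ 2) * rho A := by
  have hpt : ∀ j, (exp (β ^ 2 * (cv A i j - κ * av (fun l => cv A j l))) - 1) ^ 2 ≤
      (2 * β ^ 4 * exp (8 * β ^ 2)) * cv A i j ^ 2 +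
        (18 * β ^ 4 * exp (8 * β ^ 2)) * (av (fun l => cv A j l)) ^ 2 := by
    intro j
    have hr := cv_abs A hA i j
    have hm := mrow_abs A hA j
    set r := cv A i j
    set m := av (fun l => cv A j l)
    have h4 : |β ^ 2 * (r - κ * m)| ≤ 4 * β ^ 2 := by
      rw [abs_mul, abs_of_nonneg (sq_nonneg β)]
      have h5 : |r - κ * m| ≤ 4 := by
        calc |r - κ * m| ≤ |r| + |κ * m| := abs_sub r (κ * m)
          _ = |r| + κ * |m| := by rw [abs_mul, abs_of_nonneg h0]
          _ ≤ 1 + 3 * 1 := add_le_add hr (mul_le_mul h3 hm (abs_nonneg m) (by norm_num))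
          _ = 4 := by norm_num
      calc β ^ 2 * |r - κ * m| ≤ β ^ 2 * 4 := mul_le_mul_of_nonneg_left h5 (sq_nonneg β)
        _ = 4 * β ^ 2 := by ring
    have h6 := wdev_exp (β ^ 2 * (r - κ * m)) (4 * β ^ 2) h4
    have h7 : (r - κ * m) ^ 2 ≤ 2 * r ^ 2 + 18 * m ^ 2 := by
      have h8 : κ ^ 2 ≤ 9 := by nlinarith
      have h9 : κ ^ 2 * m ^ 2 ≤ 9 * m ^ 2 := mul_le_mul_of_nonneg_right h8 (sq_nonneg m)
      nlinarith [sq_nonneg (r + κ * m)]
    have h10 : 0 ≤ β ^ 4 * exp (8 * β ^ 2) := by positivity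
    calc (exp (β ^ 2 * (r - κ * m)) - 1) ^ 2
        ≤ (β ^ 2 * (r - κ * m)) ^ 2 * exp (2 * (4 * β ^ 2)) := h6
      _ = (β ^ 4 * exp (8 * β ^ 2)) * (r - κ * m) ^ 2 := by
        rw [show 2 * (4 * β ^ 2) = 8 * β ^ 2 by ring]
        ring
      _ ≤ (β ^ 4 * exp (8 * β ^ 2)) * (2 * r ^ 2 + 18 * m ^ 2) :=
        mul_le_mul_of_nonneg_left h7 h10
      _ = (2 * β ^ 4 * exp (8 * β ^ 2)) * r ^ 2 + (18 * β ^ 4 * exp (8 * β ^ 2)) * m ^ 2 := by ring
  have hrow := psd_row A hA i
  have hmean := psd_mean A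
  have hdel := del_le A hA
  have hrho := rho_nonneg A
  have h11 : rho A * del A ≤ rho A := by nlinarith
  have h12 : 0 ≤ 2 * β ^ 4 * exp (8 * β ^ 2) := by positivity
  have h13 : 0 ≤ 18 * β ^ 4 * exp (8 * β ^ 2) := by positivity
  calc av (fun j => (exp (β ^ 2 * (cv A i j - κ * av (fun l => cv A j l))) - 1) ^ 2)
      ≤ av (fun j => (2 * β ^ 4 * exp (8 * β ^ 2)) * cv A i j ^ 2 +
        (18 * β ^ 4 * exp (8 * β ^ 2)) * (av (fun l => cv A j l)) ^ 2) := av_mono hpt
    _ = (2 * β ^ 4 * exp (8 * β ^ 2)) * av (fun j => cv A i j ^ 2) +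
        (18 * β ^ 4 * exp (8 * β ^ 2)) * av (fun j => (av (fun l => cv A j l)) ^ 2) := by
      rw [av_add, av_mul_left, av_mul_left]
    _ ≤ (2 * β ^ 4 * exp (8 * β ^ 2)) * rho A + (18 * β ^ 4 * exp (8 * β ^ 2)) * rho A :=
      add_le_add (mul_le_mul_of_nonneg_left hrow h12)
        (mul_le_mul_of_nonneg_left (hmean.trans h11) h13)
    _ = 20 * β ^ 4 * exp (8 * β ^ 2) * rho A := by ring
-- END wdev

-- BEGIN rowN
private theorem rowN_cs (f g : Fin n → ℝ) :
    (av (fun i => f i * g i)) ^ 2 ≤ av (fun i => f i ^ 2) * av (fun i => g i ^ 2) := by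
  unfold av
  rw [div_pow, div_mul_div_comm, ← _root_.sq]
  exact div_le_div_of_nonneg_right (Finset.sum_mul_sq_le_sq_mul_sq _ _ _) (by positivity)

/-- the bound for one row of `Δ` -/
theorem rowN (A : Fin n → ι → ℝ) (hA : ∀ i, cv A i i = 1) (β κ : ℝ) (h0 : 0 ≤ κ) (h3 : κ ≤ 3)
    (i : Fin n) (d : Fin n → ℝ) :
    av2 (fun j k => (d j * exp (β ^ 2 * (cv A i j - κ * av (fun l => cv A j l)))) *
        (d k * exp (β ^ 2 * (cv A i k - κ * av (fun l => cv A k l)))) * exp (β ^ 2 * cv A j k)) ≤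
      2 * (av d) ^ 2 + 41 * β ^ 2 * exp (9 * β ^ 2) * rho A * av (fun j => d j ^ 2) := by
  set W : Fin n → ℝ := fun j => exp (β ^ 2 * (cv A i j - κ * av (fun l => cv A j l))) with hW
  have hWj : ∀ j, W j ≤ exp (4 * β ^ 2) := by
    intro j
    refine exp_le_exp.2 ?_
    have h1 := (abs_le.1 (cv_abs A hA i j)).2
    have h2 := (abs_le.1 (mrow_abs A hA j)).1
    have h4 : cv A i j - κ * av (fun l => cv A j l) ≤ 4 := by nlinarith
    nlinarith [sq_nonneg β]
  have hW0 : ∀ j, 0 < W j := fun j => exp_pos _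
  have hρ := rho_nonneg A
  set q : ℝ := av (fun j => d j ^ 2) with hq
  have hq0 : 0 ≤ q := av_nonneg fun j => sq_nonneg _
  -- splitting
  have hsplit : av2 (fun j k => (d j * W j) * (d k * W k) * exp (β ^ 2 * cv A j k)) =
      (av (fun j => d j * W j)) ^ 2 +
        av2 (fun j k => (d j * W j) * (d k * W k) * (exp (β ^ 2 * cv A j k) - 1)) := by
    have h1 : (av (fun j => d j * W j)) ^ 2 = av2 (fun j k => (d j * W j) * (d k * W k)) := by
      unfold av av2
      rw [div_pow, _root_.sq (∑ i, d i * W i), Finset.sum_mul_sum]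
    rw [h1]
    unfold av2
    rw [← add_div, ← Finset.sum_add_distrib]
    congr 1
    refine Finset.sum_congr rfl fun j _ => ?_
    rw [← Finset.sum_add_distrib]
    refine Finset.sum_congr rfl fun k _ => ?_
    ring
  -- the part of Hilbert-Schmidt
  have h1 := hs A hA β (fun j => d j * W j)
  have h2 : av (fun j => (d j * W j) ^ 2) ≤ exp (8 * β ^ 2) * q := by
    rw [hq, ← av_mul_left]
    refine av_mono fun j => ?_
    have h4 : W j ^ 2 ≤ exp (8 * β ^ 2) := by
      have h5 : exp (8 * β ^ 2) = exp (4 * β ^ 2) ^ 2 := by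
        rw [← exp_nat_mul]
        congr 1
        push_cast
        ring
      rw [h5]
      exact pow_le_pow_left₀ (hW0 j).le (hWj j) 2
    rw [mul_pow, mul_comm]
    exact mul_le_mul_of_nonneg_right h4 (sq_nonneg _)
  have h89 : exp (8 * β ^ 2) * exp (β ^ 2) = exp (9 * β ^ 2) := by
    rw [← exp_add]
    congr 1
    ring
  have h4 : av (fun j => (d j * W j) ^ 2) * (β ^ 2 * exp (β ^ 2) * rho A) ≤
      β ^ 2 * exp (9 * β ^ 2) * rho A * q := by
    have h5 : 0 ≤ β ^ 2 * exp (β ^ 2) * rho A := by positivity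
    refine (mul_le_mul_of_nonneg_right h2 h5).trans (le_of_eq ?_)
    rw [← h89]
    ring
  -- the square of the mean
  have h5 : av (fun j => d j * W j) = av d + av (fun j => d j * (W j - 1)) := by
    rw [← av_add]
    congr 1
    funext j
    ring
  have h6 := rowN_cs d (fun j => W j - 1)
  have h7 := wdev A hA β κ h0 h3 i
  have h8 : (av (fun j => d j * (W j - 1))) ^ 2 ≤ q * (20 * β ^ 4 * exp (8 * β ^ 2) * rho A) :=
    h6.trans (mul_le_mul_of_nonneg_left h7 hq0)
  have h9 : β ^ 4 * exp (8 * β ^ 2) ≤ β ^ 2 * exp (9 * β ^ 2) := by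
    have h10 : β ^ 2 ≤ exp (β ^ 2) := by
      have := add_one_le_exp (β ^ 2)
      linarith
    have h11 : 0 ≤ β ^ 2 * exp (8 * β ^ 2) := by positivity
    calc β ^ 4 * exp (8 * β ^ 2) = β ^ 2 * exp (8 * β ^ 2) * β ^ 2 := by ring
      _ ≤ β ^ 2 * exp (8 * β ^ 2) * exp (β ^ 2) := mul_le_mul_of_nonneg_left h10 h11
      _ = β ^ 2 * exp (9 * β ^ 2) := by rw [mul_assoc, h89]
  have h12 : q * (20 * β ^ 4 * exp (8 * β ^ 2) * rho A) ≤
      20 * (β ^ 2 * exp (9 * β ^ 2) * rho A * q) := by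
    have h13 : 0 ≤ 20 * rho A * q := by positivity
    have := mul_le_mul_of_nonneg_left h9 h13
    linarith
  have h14 : (av (fun j => d j * W j)) ^ 2 ≤ 2 * (av d) ^ 2 +
      2 * (av (fun j => d j * (W j - 1))) ^ 2 := by
    rw [h5]
    nlinarith [sq_nonneg (av d - av (fun j => d j * (W j - 1)))]
  show av2 (fun j k => (d j * W j) * (d k * W k) * exp (β ^ 2 * cv A j k)) ≤ _
  rw [hsplit]
  linarith
-- END rowN

-- BEGIN E3
/-- the bound for `E N`, `E Z N` -/
theorem E3 (hn : 0 < n) (A : Fin n → ι → ℝ) (hA : ∀ i, cv A i i = 1) (Δ : Fin n → Fin n → ℝ)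
    (β κ : ℝ) (h0 : 0 ≤ κ) (h3 : κ ≤ 3) :
    EG A (fun x => exp (-(κ * β * av x)) *
      av (fun i => exp (β * x i) * (av (fun j => Δ i j * exp (β * x j))) ^ 2)) ≤
    41 * exp (18 * β ^ 2) * (av (fun i => (av (fun j => Δ i j)) ^ 2)
      + β ^ 2 * rho A * av2 (fun i j => Δ i j ^ 2)) := by
  rw [expandN A hA]
  have hδ0 := del_nonneg A
  have hδ1 := del_le A hA
  have hρ := rho_nonneg A
  have e9 : (1 : ℝ) ≤ exp (9 * β ^ 2) := one_le_exp (by positivity)
  have e18 : exp (18 * β ^ 2) = exp (9 * β ^ 2) * exp (9 * β ^ 2) := by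
    rw [← exp_add]; ring_nf
  have key : ∀ i : Fin n, exp (β ^ 2 / 2 * (3 - 2 * κ * av (fun l => cv A i l) + κ ^ 2 * del A)) *
      av2 (fun j k => (Δ i j * exp (β ^ 2 * (cv A i j - κ * av (fun l => cv A j l)))) *
        (Δ i k * exp (β ^ 2 * (cv A i k - κ * av (fun l => cv A k l)))) *
          exp (β ^ 2 * cv A j k)) ≤
      41 * exp (18 * β ^ 2) * ((av (fun j => Δ i j)) ^ 2 + β ^ 2 * rho A * av (fun j => Δ i j ^ 2)) := by
    intro i
    have hr := rowN A hA β κ h0 h3 i (fun j => Δ i j)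
    have hm := (abs_le.1 (mrow_abs A hA i)).1
    have hK : exp (β ^ 2 / 2 * (3 - 2 * κ * av (fun l => cv A i l) + κ ^ 2 * del A)) ≤
        exp (9 * β ^ 2) := by
      apply exp_le_exp.2
      have t1 : 3 - 2 * κ * av (fun l => cv A i l) + κ ^ 2 * del A ≤ 18 := by
        have t2 : -(κ * av (fun l => cv A i l)) ≤ κ := by nlinarith
        have t3 : κ ^ 2 * del A ≤ κ ^ 2 := by nlinarith [sq_nonneg κ]
        have t4 : κ ^ 2 ≤ 9 := by nlinarith
        nlinarith
      have t5 : 0 ≤ β ^ 2 / 2 := by positivity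
      nlinarith [mul_le_mul_of_nonneg_left t1 t5]
    have hv : 0 ≤ av (fun j => Δ i j ^ 2) := av_nonneg fun j => sq_nonneg _
    have hR : 0 ≤ 2 * (av (fun j => Δ i j)) ^ 2 +
        41 * β ^ 2 * exp (9 * β ^ 2) * rho A * av (fun j => Δ i j ^ 2) := by positivity
    calc _ ≤ exp (β ^ 2 / 2 * (3 - 2 * κ * av (fun l => cv A i l) + κ ^ 2 * del A)) *
          (2 * (av (fun j => Δ i j)) ^ 2 +
            41 * β ^ 2 * exp (9 * β ^ 2) * rho A * av (fun j => Δ i j ^ 2)) :=
          mul_le_mul_of_nonneg_left hr (exp_pos _).le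
      _ ≤ exp (9 * β ^ 2) * (2 * (av (fun j => Δ i j)) ^ 2 +
            41 * β ^ 2 * exp (9 * β ^ 2) * rho A * av (fun j => Δ i j ^ 2)) :=
          mul_le_mul_of_nonneg_right hK hR
      _ ≤ _ := by
          rw [e18]
          set E := exp (9 * β ^ 2)
          have s1 : 0 ≤ (av (fun j => Δ i j)) ^ 2 := sq_nonneg _
          have s2 : E * (2 * (av (fun j => Δ i j)) ^ 2) ≤ 41 * (E * E) * (av (fun j => Δ i j)) ^ 2 := by
            have : E * 2 ≤ 41 * (E * E) := by nlinarith
            nlinarith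
          nlinarith
  calc _ ≤ av (fun i => 41 * exp (18 * β ^ 2) *
        ((av (fun j => Δ i j)) ^ 2 + β ^ 2 * rho A * av (fun j => Δ i j ^ 2))) := av_mono key
    _ = _ := by
      rw [av_mul_left, av_add, av_mul_left, av2_eq]
-- END E3

-- BEGIN lowA
private theorem lowA_sum (A : Fin n → ι → ℝ) (Δ : Fin n → Fin n → ℝ) (β : ℝ)
    {f : (Fin n → ℝ) → ℝ} (hf : Gr f) :
    EG A (fun x => f x * qD Δ β x) =
      ∑ i, ∑ j, Δ i j ^ 2 * EG A (fun x => f x * (pw β x i * pw β x j)) := by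
  have e : (fun x : Fin n → ℝ => f x * qD Δ β x) =
      fun x => ∑ i, ∑ j, Δ i j ^ 2 * (f x * (pw β x i * pw β x j)) := by
    funext x
    unfold qD
    rw [Finset.mul_sum]
    apply Finset.sum_congr rfl
    intro i _
    rw [Finset.mul_sum]
    apply Finset.sum_congr rfl
    intro j _
    ring
  rw [e, EG_sum Finset.univ (fun i => Gr.sum Finset.univ fun j =>
    (hf.mul ((Gr.pw β i).mul (Gr.pw β j))).const_mul (Δ i j ^ 2)) A]
  apply Finset.sum_congr rfl
  intro i _
  rw [EG_sum Finset.univ (fun j => (hf.mul ((Gr.pw β i).mul (Gr.pw β j))).const_mul (Δ i j ^ 2)) A]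
  apply Finset.sum_congr rfl
  intro j _
  rw [EG_const_mul]

/-- the lower bound of the second derivative in expectation -/
theorem lowA (hn : 0 < n) (A : Fin n → ι → ℝ) (hA : ∀ i, cv A i i = 1) (Δ : Fin n → Fin n → ℝ)
    (β : ℝ) (hβ : 0 ≤ β) :
    av2 (fun i j => Δ i j ^ 2) * (2 * log n * exp (-β ^ 2) - 2 * β * √(del A) * exp (16 * β ^ 2)) -
      (8 * log n + 9) * (41 * exp (18 * β ^ 2)) * (av (fun i => (av (fun j => Δ i j)) ^ 2)
        + β ^ 2 * rho A * av2 (fun i j => Δ i j ^ 2)) ≤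
    EG A (fun x => 2 * Lg β x * qD Δ β x
        - 8 * Lg β x * qN Δ β x + 6 * Lg β x * qA Δ β x ^ 2
        + 4 * qN Δ β x - 5 * qA Δ β x ^ 2) := by
  have hlog : 0 ≤ log n := log_natCast_nonneg n
  have gL : Gr (fun x : Fin n → ℝ => Lg β x) := Gr.Lg β
  have gA := Gr.qA Δ β
  have gD := Gr.qD Δ β
  have gN := Gr.qN Δ β
  have gZ : Gr (fun x : Fin n → ℝ => Zf β x) := Gr.Zf β
  have gab : Gr (fun x : Fin n → ℝ => |av x|) := Gr.av.abs
  have gabD : Gr (fun x : Fin n → ℝ => |av x| * qD Δ β x) := gab.mul gD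
  have gZN : Gr (fun x : Fin n → ℝ => Zf β x * qN Δ β x) := gZ.mul gN
  have gR : Gr (fun x : Fin n → ℝ => 2 * Lg β x * qD Δ β x
        - 8 * Lg β x * qN Δ β x + 6 * Lg β x * qA Δ β x ^ 2
        + 4 * qN Δ β x - 5 * qA Δ β x ^ 2) :=
    (((((gL.const_mul 2).mul gD).sub ((gL.const_mul 8).mul gN)).add
      ((gL.const_mul 6).mul gA.sq)).add (gN.const_mul 4)).sub (gA.sq.const_mul 5)
  have hqD : ∀ x : Fin n → ℝ, 0 ≤ qD Δ β x := fun x => by
    unfold qD
    exact Finset.sum_nonneg fun i _ => Finset.sum_nonneg fun j _ =>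
      mul_nonneg (sq_nonneg _) (mul_nonneg (pw_nonneg β x i) (pw_nonneg β x j))
  -- pointwise
  have hpt : ∀ x : Fin n → ℝ, (2 * log n * qD Δ β x - 2 * β * (|av x| * qD Δ β x)) -
      ((8 * log n + 1) * qN Δ β x + 8 * (Zf β x * qN Δ β x)) ≤
      2 * Lg β x * qD Δ β x - 8 * Lg β x * qN Δ β x + 6 * Lg β x * qA Δ β x ^ 2
        + 4 * qN Δ β x - 5 * qA Δ β x ^ 2 := by
    intro x
    refine le_trans ?_ (ptw hn Δ β x)
    have h1 : -|av x| ≤ av x := neg_abs_le _
    have h2 : 0 ≤ β * qD Δ β x := mul_nonneg hβ (hqD x)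
    nlinarith [mul_le_mul_of_nonneg_left h1 h2]
  have g1 : Gr (fun x : Fin n → ℝ => 2 * log n * qD Δ β x - 2 * β * (|av x| * qD Δ β x)) :=
    (gD.const_mul (2 * log n)).sub (gabD.const_mul (2 * β))
  have g2 : Gr (fun x : Fin n → ℝ => (8 * log n + 1) * qN Δ β x + 8 * (Zf β x * qN Δ β x)) :=
    (gN.const_mul (8 * log n + 1)).add (gZN.const_mul 8)
  have h := EG_mono (g1.sub g2) gR hpt A
  rw [EG_sub g1 g2, EG_sub (gD.const_mul (2 * log n)) (gabD.const_mul (2 * β)),
    EG_add (gN.const_mul (8 * log n + 1)) (gZN.const_mul 8), EG_const_mul, EG_const_mul,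
    EG_const_mul, EG_const_mul] at h
  refine le_trans ?_ h
  -- D
  have hn2 : (0 : ℝ) < (n : ℝ) ^ 2 := by positivity
  have hD : av2 (fun i j => Δ i j ^ 2) * exp (-β ^ 2) ≤ EG A (fun x => qD Δ β x) := by
    have e := lowA_sum A Δ β (Gr.const (ι := Fin n) 1)
    simp only [one_mul] at e
    rw [e]
    unfold av2
    rw [div_mul_eq_mul_div, div_le_iff₀ hn2, Finset.sum_mul, Finset.sum_mul]
    apply Finset.sum_le_sum
    intro i _
    rw [Finset.sum_mul, Finset.sum_mul]
    apply Finset.sum_le_sum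
    intro j _
    have := E1 hn A hA β i j
    rw [div_le_iff₀ hn2] at this
    have h4 := mul_le_mul_of_nonneg_left this (sq_nonneg (Δ i j))
    linarith
  have hX : EG A (fun x => |av x| * qD Δ β x) ≤
      av2 (fun i j => Δ i j ^ 2) * (√(del A) * exp (16 * β ^ 2)) := by
    rw [lowA_sum A Δ β gab]
    unfold av2
    rw [div_mul_eq_mul_div, le_div_iff₀ hn2, Finset.sum_mul, Finset.sum_mul]
    apply Finset.sum_le_sum
    intro i _
    rw [Finset.sum_mul, Finset.sum_mul]
    apply Finset.sum_le_sum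
    intro j _
    have := E2 hn A hA β i j
    rw [le_div_iff₀ hn2] at this
    have h4 := mul_le_mul_of_nonneg_left this (sq_nonneg (Δ i j))
    linarith
  -- N
  have gB : ∀ κ : ℝ, Gr (fun x : Fin n → ℝ => exp (-(κ * β * av x)) *
      av (fun i => exp (β * x i) * (av (fun j => Δ i j * exp (β * x j))) ^ 2)) := by
    intro κ
    have e : (fun x : Fin n → ℝ => exp (-(κ * β * av x))) = fun x => exp ((-(κ * β)) * av x) := by
      funext x; ring_nf
    refine Gr.mul (e ▸ Gr.expbar (-(κ * β))) ?_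
    exact Gr.avf fun i => (Gr.exp1 β i).mul (Gr.avf fun j => (Gr.exp1 β j).const_mul (Δ i j)).sq
  set B := 41 * exp (18 * β ^ 2) * (av (fun i => (av (fun j => Δ i j)) ^ 2)
      + β ^ 2 * rho A * av2 (fun i j => Δ i j ^ 2)) with hB
  have hN : EG A (fun x => qN Δ β x) ≤ B :=
    (EG_mono gN (gB 3) (fun x => N_le hn Δ β x) A).trans
      (E3 hn A hA Δ β 3 (by norm_num) le_rfl)
  have hZN : EG A (fun x => Zf β x * qN Δ β x) ≤ B :=
    (EG_mono gZN (gB 2) (fun x => ZN_le hn Δ β x) A).trans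
      (E3 hn A hA Δ β 2 (by norm_num) (by norm_num))
  have t1 := mul_le_mul_of_nonneg_left hD (by positivity : 0 ≤ 2 * log n)
  have t2 := mul_le_mul_of_nonneg_left hX (by positivity : 0 ≤ 2 * β)
  have t3 := mul_le_mul_of_nonneg_left hN (by positivity : 0 ≤ 8 * log n + 1)
  have e3 : (8 * log n + 9) * (41 * exp (18 * β ^ 2)) * (av (fun i => (av (fun j => Δ i j)) ^ 2)
        + β ^ 2 * rho A * av2 (fun i j => Δ i j ^ 2)) = (8 * log n + 9) * B := by
    rw [hB]; ring
  rw [e3]
  linarith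
-- END lowA

/-! the simplex -/

-- BEGIN spx_cv
theorem spx_cv_col (hn : 2 ≤ n) (k : Fin n) : ∑ i, spx n i k = 0 := by
  have hn0 : (n : ℝ) ≠ 0 := by
    have : n ≠ 0 := by omega
    exact_mod_cast this
  unfold spx
  rw [← Finset.sum_mul, Finset.sum_sub_distrib, Finset.sum_ite_eq' Finset.univ k (fun _ => (1 : ℝ)),
    if_pos (Finset.mem_univ k), Finset.sum_const, Finset.card_univ, Fintype.card_fin, nsmul_eq_mul,
    mul_one_div_cancel hn0, sub_self, zero_mul]

theorem spx_cv_symm (i k : Fin n) : spx n i k = spx n k i := by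
  unfold spx
  simp only [eq_comm (a := i)]

theorem spx_cv_row (hn : 2 ≤ n) (i : Fin n) : ∑ k, spx n i k = 0 := by
  rw [← spx_cv_col hn i]
  exact Finset.sum_congr rfl fun k _ => spx_cv_symm i k

theorem spx_cv (hn : 2 ≤ n) (i j : Fin n) :
    cv (spx n) i j = if i = j then 1 else -1 / ((n : ℝ) - 1) := by
  have h2 : (2 : ℝ) ≤ n := by exact_mod_cast hn
  have hn0 : (n : ℝ) ≠ 0 := by linarith
  have hn1 : (n : ℝ) - 1 ≠ 0 := by linarith
  have hc : √((n : ℝ) / (n - 1)) * √((n : ℝ) / (n - 1)) = n / (n - 1) :=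
    Real.mul_self_sqrt (div_nonneg (by linarith) (by linarith))
  have e1 : cv (spx n) i j = √((n : ℝ) / (n - 1)) * spx n j i := by
    unfold cv
    have e : ∀ k, spx n i k * spx n j k = √((n : ℝ) / (n - 1)) * ((if i = k then 1 else 0) * spx n j k) -
        1 / n * √((n : ℝ) / (n - 1)) * spx n j k := by
      intro k
      rw [spx]
      ring
    rw [Finset.sum_congr rfl fun k _ => e k, Finset.sum_sub_distrib, ← Finset.mul_sum,
      ← Finset.mul_sum, spx_cv_row hn, mul_zero, sub_zero]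
    congr 1
    simp only [ite_mul, one_mul, zero_mul]
    rw [Finset.sum_ite_eq Finset.univ i (fun k => spx n j k), if_pos (Finset.mem_univ i)]
  have e2 : cv (spx n) i j = ((if j = i then 1 else 0) - 1 / (n : ℝ)) * ((n : ℝ) / (n - 1)) := by
    rw [e1, spx]
    linear_combination ((if j = i then 1 else 0) - 1 / (n : ℝ)) * hc
  rw [e2]
  by_cases hij : i = j
  · rw [if_pos hij, if_pos hij.symm]
    field_simp
  · rw [if_neg hij, if_neg (Ne.symm hij)]
    field_simp
    ring

theorem spx_rowsum (hn : 2 ≤ n) (i : Fin n) : ∑ j, cv (spx n) i j = 0 := by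
  unfold cv
  rw [Finset.sum_comm]
  apply Finset.sum_eq_zero
  intro k _
  rw [← Finset.mul_sum, spx_cv_col hn, mul_zero]

theorem spx_bar (hn : 2 ≤ n) (z : Fin n → ℝ) : av (lin (spx n) z) = 0 := by
  unfold av lin
  rw [Finset.sum_comm]
  have : ∑ y, ∑ x, spx n x y * z y = 0 := by
    apply Finset.sum_eq_zero
    intro k _
    rw [← Finset.sum_mul, spx_cv_col hn, zero_mul]
  rw [this, zero_div]

theorem spx_rho (hn : 2 ≤ n) : rho (spx n) ≤ √(2 / n) := by
  have h2 : (2 : ℝ) ≤ n := by exact_mod_cast hn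
  have hn0 : (0 : ℝ) < n := by linarith
  have hn1 : (0 : ℝ) < (n : ℝ) - 1 := by linarith
  unfold rho
  apply Real.sqrt_le_sqrt
  unfold av2
  have e : ∀ i : Fin n, ∑ j, cv (spx n) i j ^ 2 = 1 + 1 / ((n : ℝ) - 1) := by
    intro i
    have e1 : ∀ j, cv (spx n) i j ^ 2 = 1 / ((n : ℝ) - 1) ^ 2 +
        (if i = j then 1 - 1 / ((n : ℝ) - 1) ^ 2 else 0) := by
      intro j
      rw [spx_cv hn]
      by_cases hij : i = j
      · rw [if_pos hij, if_pos hij]
        ring
      · rw [if_neg hij, if_neg hij, div_pow]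
        ring
    rw [Finset.sum_congr rfl fun j _ => e1 j, Finset.sum_add_distrib,
      Finset.sum_ite_eq Finset.univ i (fun _ => 1 - 1 / ((n : ℝ) - 1) ^ 2),
      if_pos (Finset.mem_univ i), Finset.sum_const, Finset.card_univ, Fintype.card_fin, nsmul_eq_mul]
    field_simp
    ring
  rw [Finset.sum_congr rfl fun i _ => e i, Finset.sum_const, Finset.card_univ, Fintype.card_fin,
    nsmul_eq_mul]
  rw [div_le_div_iff₀ (by positivity) hn0]
  have e3 : (n : ℝ) * (1 + 1 / ((n : ℝ) - 1)) * n = (n : ℝ) ^ 2 * (n / (n - 1)) := by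
    field_simp
    ring
  rw [e3, mul_comm]
  apply mul_le_mul_of_nonneg_right _ (by positivity)
  rw [div_le_iff₀ hn1]
  linarith
-- END spx_cv

-- BEGIN spx_exch
/-- exchangeability of the simplex vector -/
theorem spx_exch (g : (Fin n → ℝ) → ℝ) (σ : Equiv.Perm (Fin n)) :
    EG (spx n) (fun x => g (fun i => x (σ i))) = EG (spx n) g := by
  have h := measurePreserving_piCongrLeft (fun _ : Fin n => gaussianReal 0 1) σ.symm
  have h2 := h.integral_comp' (g := fun z => g (lin (spx n) z))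
  unfold EG γ
  rw [← h2]
  apply integral_congr_ae
  refine Filter.Eventually.of_forall fun z => ?_
  show g (fun i => lin (spx n) z (σ i)) = g (lin (spx n) _)
  congr 1
  funext i
  unfold lin
  rw [← Equiv.sum_comp σ]
  apply Finset.sum_congr rfl
  intro k _
  have e1 : spx n (σ i) (σ k) = spx n i k := by
    unfold spx
    simp
  rw [e1]
  congr 1
  have := MeasurableEquiv.piCongrLeft_apply_apply (β := fun _ : Fin n => ℝ) σ.symm z (σ k)
  rw [Equiv.symm_apply_apply] at this
  exact this.symm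
-- END spx_exch

-- BEGIN spx_pair
/-- `E_S L π_i π_j` does not depend on the pair -/
theorem spx_pair (β : ℝ) (i j k l : Fin n) (hij : i ≠ j) (hkl : k ≠ l) :
    EG (spx n) (fun x => Lg β x * (pw β x i * pw β x j)) =
      EG (spx n) (fun x => Lg β x * (pw β x k * pw β x l)) := by
  obtain ⟨σ, hσi, hσj⟩ : ∃ σ : Equiv.Perm (Fin n), σ i = k ∧ σ j = l := by
    refine ⟨(Equiv.swap i k).trans (Equiv.swap (Equiv.swap i k j) l), ?_, ?_⟩
    · rw [Equiv.trans_apply, Equiv.swap_apply_left]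
      refine Equiv.swap_apply_of_ne_of_ne ?_ hkl
      intro h
      have h1 : Equiv.swap i k i = Equiv.swap i k j := by rw [Equiv.swap_apply_left]; exact h
      exact hij ((Equiv.swap i k).injective h1)
    · rw [Equiv.trans_apply, Equiv.swap_apply_left]
  have hS : ∀ x : Fin n → ℝ, Sm β (fun m => x (σ m)) = Sm β x := by
    intro x
    unfold Sm
    exact Equiv.sum_comp σ (fun m => exp (β * x m))
  have h1 := spx_exch (n := n) (fun x => Lg β x * (pw β x i * pw β x j)) σ
  rw [← h1]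
  congr 1
  funext x
  simp only [Lg, pw, hS, hσi, hσj]
-- END spx_pair

-- BEGIN spx_low
/-- `E_S L π_i π_j ≥ log n e^{-β²} / n²` -/
theorem spx_low (hn : 2 ≤ n) (β : ℝ) (i j : Fin n) :
    log n * exp (-β ^ 2) / (n : ℝ) ^ 2 ≤
      EG (spx n) (fun x => Lg β x * (pw β x i * pw β x j)) := by
  have hn0 : 0 < n := by omega
  have h1 := E1 hn0 (spx n) (fun i => by rw [spx_cv hn]; simp) β i j
  have hlog : 0 ≤ log (n : ℝ) := log_natCast_nonneg n
  have gp : Gr (fun x : Fin n → ℝ => pw β x i * pw β x j) := (Gr.pw β i).mul (Gr.pw β j)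
  have g1 : Gr (fun x : Fin n → ℝ => log (n : ℝ) * (pw β x i * pw β x j)) := gp.const_mul _
  have g2 : Gr (fun x : Fin n → ℝ => Lg β x * (pw β x i * pw β x j)) := (Gr.Lg β).mul gp
  have h2 : EG (spx n) (fun x => log (n : ℝ) * (pw β x i * pw β x j)) ≤
      EG (spx n) (fun x => Lg β x * (pw β x i * pw β x j)) := by
    refine integral_mono (g1.integrable (spx n)) (g2.integrable (spx n)) fun z => ?_
    have h3 := Lg_ge hn0 β (lin (spx n) z)
    rw [spx_bar hn z, mul_zero, add_zero] at h3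
    exact mul_le_mul_of_nonneg_right h3 (mul_nonneg (pw_nonneg _ _ _) (pw_nonneg _ _ _))
  rw [EG_const_mul (log (n : ℝ)) (fun x => pw β x i * pw β x j) (spx n)] at h2
  refine le_trans ?_ h2
  rw [mul_div_assoc]
  exact mul_le_mul_of_nonneg_left h1 hlog
-- END spx_low

-- BEGIN hend
/-- the value at the end of the path -/
theorem hend (hn : 2 ≤ n) (a : Fin n → Fin n → ℝ) (ha : ∀ i, cv a i i = 1) (β : ℝ) :
    EG (spx n) (fun x => Lg β x * qA (dl a (spx n)) β x) ≤
      -(del a * log n * exp (-β ^ 2)) := by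
  have hdl : ∀ i, dl a (spx n) i i = 0 := by
    intro i
    unfold dl
    rw [ha i, spx_cv hn i i, if_pos rfl, sub_self]
  have gL : Gr (fun x : Fin n → ℝ => Lg β x) := Gr.Lg β
  have gP : ∀ i j : Fin n, Gr (fun x : Fin n → ℝ => Lg β x * (pw β x i * pw β x j)) := fun i j =>
    gL.mul ((Gr.pw β i).mul (Gr.pw β j))
  have e1 : EG (spx n) (fun x => Lg β x * qA (dl a (spx n)) β x) =
      ∑ i, ∑ j, dl a (spx n) i j * EG (spx n) (fun x => Lg β x * (pw β x i * pw β x j)) := by
    have e : (fun x : Fin n → ℝ => Lg β x * qA (dl a (spx n)) β x) =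
        fun x => ∑ i, ∑ j, dl a (spx n) i j * (Lg β x * (pw β x i * pw β x j)) := by
      funext x
      unfold qA
      rw [Finset.mul_sum]
      apply Finset.sum_congr rfl
      intro i _
      rw [Finset.mul_sum]
      apply Finset.sum_congr rfl
      intro j _
      ring
    rw [e, EG_sum Finset.univ (fun i => Gr.sum Finset.univ fun j => (gP i j).const_mul _) (spx n)]
    apply Finset.sum_congr rfl
    intro i _
    rw [EG_sum Finset.univ (fun j => (gP i j).const_mul _) (spx n)]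
    apply Finset.sum_congr rfl
    intro j _
    rw [EG_const_mul]
  set k : Fin n := ⟨0, by omega⟩ with hk
  set l : Fin n := ⟨1, by omega⟩ with hl
  have hkl : k ≠ l := by
    intro h
    have := congrArg Fin.val h
    simp [hk, hl] at this
  set c := EG (spx n) (fun x => Lg β x * (pw β x k * pw β x l)) with hc
  have e2 : ∑ i, ∑ j, dl a (spx n) i j * EG (spx n) (fun x => Lg β x * (pw β x i * pw β x j)) =
      (∑ i, ∑ j, dl a (spx n) i j) * c := by
    rw [Finset.sum_mul]
    apply Finset.sum_congr rfl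
    intro i _
    rw [Finset.sum_mul]
    apply Finset.sum_congr rfl
    intro j _
    by_cases hij : i = j
    · subst hij
      rw [hdl, zero_mul, zero_mul]
    · rw [spx_pair β i j k l hij hkl]
  have hn2 : (0 : ℝ) < (n : ℝ) ^ 2 := by positivity
  have e3 : ∑ i, ∑ j, dl a (spx n) i j = -((n : ℝ) ^ 2 * del a) := by
    have s1 : ∑ i : Fin n, ∑ j, dl a (spx n) i j = ∑ i : Fin n, -(∑ j, cv a i j) := by
      apply Finset.sum_congr rfl
      intro i _
      unfold dl
      rw [Finset.sum_sub_distrib, spx_rowsum hn i, zero_sub]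
    rw [s1, Finset.sum_neg_distrib]
    unfold del av2
    field_simp
  have hlow := spx_low hn β k l
  rw [e1, e2, e3]
  rw [← hc] at hlow
  have hδ := del_nonneg a
  have h1 := mul_le_mul_of_nonneg_left hlow (mul_nonneg hn2.le hδ)
  have e4 : (n : ℝ) ^ 2 * del a * (log n * exp (-β ^ 2) / (n : ℝ) ^ 2) =
      del a * log n * exp (-β ^ 2) := by
    field_simp
  rw [e4] at h1
  linarith
-- END hend

-- BEGIN path_bounds
/-- the parameters along the path to the simplex -/
theorem path_unit (hn : 2 ≤ n) (a : Fin n → Fin n → ℝ) (ha : ∀ i, cv a i i = 1) (θ : ℝ)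
    (i : Fin n) : cv (path a (spx n) θ) i i = 1 := by
  rw [pathcv, ha i, spx_cv hn i i, if_pos rfl]
  have := sin_sq_add_cos_sq θ
  linarith

private theorem path_del_eq (hn : 2 ≤ n) (a : Fin n → Fin n → ℝ) (θ : ℝ) :
    del (path a (spx n) θ) = cos θ ^ 2 * del a := by
  unfold del
  rw [av2_eq, av2_eq]
  have e : ∀ i : Fin n, av (fun j => cv (path a (spx n) θ) i j) = cos θ ^ 2 * av (fun j => cv a i j) := by
    intro i
    simp only [pathcv]
    rw [av_add, av_mul_left, av_mul_left]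
    have : av (fun j => cv (spx n) i j) = 0 := by
      unfold av
      rw [spx_rowsum hn i, zero_div]
    rw [this, mul_zero, add_zero]
  simp only [e]
  rw [av_mul_left]

theorem path_del (hn : 2 ≤ n) (a : Fin n → Fin n → ℝ) (θ : ℝ) :
    del (path a (spx n) θ) ≤ del a := by
  rw [path_del_eq hn a θ]
  have h0 := del_nonneg a
  have h1 := cos_sq_le_one θ
  nlinarith

theorem path_rho (hn : 2 ≤ n) (a : Fin n → Fin n → ℝ) (θ : ℝ) :
    rho (path a (spx n) θ) ≤ rho a + √(2 / n) := by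
  have hs := spx_rho hn
  have hra := rho_nonneg a
  have hrs := rho_nonneg (spx n)
  have hc1 := cos_sq_le_one θ
  have hs1 := sin_sq_le_one θ
  have hc0 := sq_nonneg (cos θ)
  have hs0 := sq_nonneg (sin θ)
  have key : rho (path a (spx n) θ) ≤ rho a + rho (spx n) := by
    have e1 : av2 (fun i j => cv a i j ^ 2) = rho a ^ 2 := by
      unfold rho
      rw [sq_sqrt]
      rw [av2_eq]
      exact av_nonneg fun i => av_nonneg fun j => sq_nonneg _
    have e2 : av2 (fun i j => cv (spx n) i j ^ 2) = rho (spx n) ^ 2 := by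
      unfold rho
      rw [sq_sqrt]
      rw [av2_eq]
      exact av_nonneg fun i => av_nonneg fun j => sq_nonneg _
    have e3 : av2 (fun i j => cv (path a (spx n) θ) i j ^ 2) ≤ (rho a + rho (spx n)) ^ 2 := by
      -- Cauchy–Schwarz for the mixed term
      have hmix : av2 (fun i j => |cv a i j| * |cv (spx n) i j|) ≤ rho a * rho (spx n) := by
        have hn2 : (0 : ℝ) < (n : ℝ) ^ 2 := by positivity
        have hcs := Finset.sum_mul_sq_le_sq_mul_sq (Finset.univ : Finset (Fin n × Fin n))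
          (fun q => |cv a q.1 q.2|) (fun q => |cv (spx n) q.1 q.2|)
        simp only [sq_abs] at hcs
        rw [← Finset.univ_product_univ, Finset.sum_product, Finset.sum_product,
          Finset.sum_product] at hcs
        have f1 : ∑ i : Fin n, ∑ j : Fin n, cv a i j ^ 2 = (n : ℝ) ^ 2 * rho a ^ 2 := by
          rw [← e1]; unfold av2; field_simp
        have f2 : ∑ i : Fin n, ∑ j : Fin n, cv (spx n) i j ^ 2 = (n : ℝ) ^ 2 * rho (spx n) ^ 2 := by
          rw [← e2]; unfold av2; field_simp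
        rw [f1, f2] at hcs
        unfold av2
        rw [div_le_iff₀ hn2]
        apply le_of_sq_le_sq _ (by positivity)
        refine hcs.trans (le_of_eq ?_)
        ring
      have hpt : ∀ i j, cv (path a (spx n) θ) i j ^ 2 ≤
          cv a i j ^ 2 + 2 * (|cv a i j| * |cv (spx n) i j|) + cv (spx n) i j ^ 2 := by
        intro i j
        have h1 : |cv (path a (spx n) θ) i j| ≤ |cv a i j| + |cv (spx n) i j| := by
          rw [pathcv]
          refine (abs_add_le _ _).trans ?_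
          rw [abs_mul, abs_mul, abs_of_nonneg hc0, abs_of_nonneg hs0]
          have := abs_nonneg (cv a i j)
          have := abs_nonneg (cv (spx n) i j)
          nlinarith
        have h2 : cv (path a (spx n) θ) i j ^ 2 ≤ (|cv a i j| + |cv (spx n) i j|) ^ 2 := by
          rw [← sq_abs]
          exact pow_le_pow_left₀ (abs_nonneg _) h1 2
        refine h2.trans (le_of_eq ?_)
        rw [add_sq, sq_abs, sq_abs]
        ring
      have hsum : av2 (fun i j => cv (path a (spx n) θ) i j ^ 2) ≤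
          av2 (fun i j => cv a i j ^ 2) + 2 * av2 (fun i j => |cv a i j| * |cv (spx n) i j|) +
            av2 (fun i j => cv (spx n) i j ^ 2) := by
        simp only [av2_eq]
        rw [← av_mul_left, ← av_add, ← av_add]
        apply av_mono
        intro i
        rw [← av_mul_left, ← av_add, ← av_add]
        exact av_mono fun j => hpt i j
      rw [e1, e2] at hsum
      nlinarith
    unfold rho
    rw [sqrt_le_left (by
      have := rho_nonneg a
      have := rho_nonneg (spx n)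
      unfold rho at *
      positivity)]
    exact e3
  linarith

theorem dl_mean (hn : 2 ≤ n) (a : Fin n → Fin n → ℝ) (i : Fin n) :
    av (fun j => dl a (spx n) i j) = -av (fun j => cv a i j) := by
  unfold dl av
  rw [Finset.sum_sub_distrib, spx_rowsum hn i, zero_sub, neg_div]
-- END path_bounds

-- BEGIN hprime
/-- under (C1) the derivative of `h` is bounded below -/
theorem hprime (hn : 2 ≤ n) (a : Fin n → Fin n → ℝ) (ha : ∀ i, cv a i i = 1) (β : ℝ) (hβ : 0 < β)
    (hC : C1 n β (del a) (rho a)) (θ : ℝ) :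
    -(2 * del a * log n * exp (-β ^ 2)) ≤
      β ^ 2 * EG (path a (spx n) θ) (fun x => 2 * Lg β x * qD (dl a (spx n)) β x
        - 8 * Lg β x * qN (dl a (spx n)) β x + 6 * Lg β x * qA (dl a (spx n)) β x ^ 2
        + 4 * qN (dl a (spx n)) β x - 5 * qA (dl a (spx n)) β x ^ 2) := by
  have h1 := lowA (by omega : 0 < n) (path a (spx n) θ) (path_unit hn a ha θ) (dl a (spx n)) β hβ.le
  have hδ := path_del hn a θ
  have hρ := path_rho hn a θ
  have hδ0 := del_nonneg a
  have hρ0 := rho_nonneg (path a (spx n) θ)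
  have hra := rho_nonneg a
  have hM : av (fun i => (av (fun j => dl a (spx n) i j)) ^ 2) ≤ rho a * del a := by
    have := psd_mean a
    simp only [dl_mean hn a, neg_sq]
    exact this
  unfold C1 at hC
  set D0 := av2 (fun i j => dl a (spx n) i j ^ 2) with hD0
  have hD0n : 0 ≤ D0 := by
    rw [hD0, av2_eq]
    exact av_nonneg fun i => av_nonneg fun j => sq_nonneg _
  set M := av (fun i => (av (fun j => dl a (spx n) i j)) ^ 2) with hMd
  set K := (8 * log n + 9) * (41 * exp (18 * β ^ 2)) with hK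
  have hlog : 0 ≤ log n := log_natCast_nonneg n
  have hK0 : 0 ≤ K := by positivity
  have hsq : √(del (path a (spx n) θ)) ≤ √(del a) := sqrt_le_sqrt hδ
  have hr2 : 0 ≤ √(2 / (n : ℝ)) := sqrt_nonneg _
  have hb : 0 ≤ 2 * β * exp (16 * β ^ 2) := by positivity
  -- lower bound of the bracket
  have s1 : 2 * β * √(del (path a (spx n) θ)) * exp (16 * β ^ 2) ≤
      2 * β * √(del a) * exp (16 * β ^ 2) := by
    have := mul_le_mul_of_nonneg_left hsq hb
    nlinarith
  have s2 : K * (M + β ^ 2 * rho (path a (spx n) θ) * D0) ≤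
      K * (rho a * del a) + K * β ^ 2 * (rho a + √(2 / n)) * D0 := by
    have t1 : K * M ≤ K * (rho a * del a) := mul_le_mul_of_nonneg_left hM hK0
    have t2 : K * β ^ 2 * rho (path a (spx n) θ) * D0 ≤ K * β ^ 2 * (rho a + √(2 / n)) * D0 := by
      apply mul_le_mul_of_nonneg_right _ hD0n
      exact mul_le_mul_of_nonneg_left hρ (by positivity)
    nlinarith
  have s3 : 0 ≤ D0 * (2 * log n * exp (-β ^ 2) - 2 * β * √(del a) * exp (16 * β ^ 2) -
      K * β ^ 2 * (rho a + √(2 / n))) := by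
    apply mul_nonneg hD0n
    linarith
  have s4 : D0 * (2 * β * √(del (path a (spx n) θ)) * exp (16 * β ^ 2)) ≤
      D0 * (2 * β * √(del a) * exp (16 * β ^ 2)) := mul_le_mul_of_nonneg_left s1 hD0n
  have s5 : -(K * (rho a * del a)) ≤ EG (path a (spx n) θ) (fun x => 2 * Lg β x * qD (dl a (spx n)) β x
        - 8 * Lg β x * qN (dl a (spx n)) β x + 6 * Lg β x * qA (dl a (spx n)) β x ^ 2
        + 4 * qN (dl a (spx n)) β x - 5 * qA (dl a (spx n)) β x ^ 2) := by
    refine le_trans ?_ h1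
    nlinarith
  have s6 : β ^ 2 * (K * (rho a * del a)) ≤ 2 * del a * log n * exp (-β ^ 2) := by
    have t1 : K * β ^ 2 * rho a ≤ 2 * log n * exp (-β ^ 2) := by
      have t2 : 0 ≤ 2 * β * √(del a) * exp (16 * β ^ 2) := by positivity
      have t3 : 0 ≤ K * β ^ 2 * √(2 / n) := by positivity
      nlinarith
    have := mul_le_mul_of_nonneg_right t1 hδ0
    nlinarith
  have s7 := mul_le_mul_of_nonneg_left s5 (sq_nonneg β)
  linarith
-- END hprime

-- BEGIN hneg
/-- `h ≤ 0` along the path -/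
theorem hneg (hn : 2 ≤ n) (a : Fin n → Fin n → ℝ) (ha : ∀ i, cv a i i = 1) (β : ℝ) (hβ : 0 < β)
    (hC : C1 n β (del a) (rho a)) (θ : ℝ) (h0 : 0 ≤ θ) (h1 : θ ≤ π / 2) :
    EG (path a (spx n) θ) (fun x => Lg β x * qA (dl a (spx n)) β x) ≤ 0 := by
  have hdl : ∀ i, dl a (spx n) i i = 0 := by
    intro i
    unfold dl
    rw [ha i, spx_cv hn i i, if_pos rfl, sub_self]
  set c := del a * log n * exp (-β ^ 2) with hc
  have hc0 : 0 ≤ c := by
    have := del_nonneg a
    have := log_natCast_nonneg n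
    positivity
  set f : ℝ → ℝ := fun t => EG (path a (spx n) t) (fun x => Lg β x * qA (dl a (spx n)) β x) +
    c * sin t ^ 2 with hf
  have hderiv : ∀ t, HasDerivAt f (β ^ 2 * (sin t * cos t) * EG (path a (spx n) t)
      (fun x => 2 * Lg β x * qD (dl a (spx n)) β x
        - 8 * Lg β x * qN (dl a (spx n)) β x + 6 * Lg β x * qA (dl a (spx n)) β x ^ 2
        + 4 * qN (dl a (spx n)) β x - 5 * qA (dl a (spx n)) β x ^ 2) +
      c * (2 * sin t * cos t)) t := by
    intro t
    have e1 := derA (by omega : 0 < n) a (spx n) hdl β t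
    have e2 : HasDerivAt (fun t => c * sin t ^ 2) (c * (2 * sin t * cos t)) t := by
      have := ((hasDerivAt_sin t).pow 2).const_mul c
      simpa [mul_assoc] using this
    exact e1.add e2
  have hmono : MonotoneOn f (Set.Icc 0 (π / 2)) := by
    apply monotoneOn_of_deriv_nonneg (convex_Icc _ _)
    · exact fun t _ => (hderiv t).continuousAt.continuousWithinAt
    · exact fun t _ => (hderiv t).differentiableAt.differentiableWithinAt
    · intro t ht
      rw [interior_Icc] at ht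
      rw [(hderiv t).deriv]
      have hs : 0 ≤ sin t := sin_nonneg_of_nonneg_of_le_pi ht.1.le (by linarith [ht.2, pi_pos])
      have hcs : 0 ≤ cos t := cos_nonneg_of_neg_pi_div_two_le_of_le (by linarith [ht.1, pi_pos]) ht.2.le
      have h2 := hprime hn a ha β hβ hC t
      have h3 := mul_le_mul_of_nonneg_left h2 (mul_nonneg hs hcs)
      have e : sin t * cos t * -(2 * del a * log n * exp (-β ^ 2)) = -(c * (2 * sin t * cos t)) := by
        rw [hc]; ring
      rw [e] at h3
      linarith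
  have hend1 : EG (path a (spx n) (π / 2)) (fun x => Lg β x * qA (dl a (spx n)) β x) ≤ -c := by
    rw [path_pi a (spx n) ((Gr.Lg β).mul (Gr.qA _ β))]
    exact hend hn a ha β
  have h5 : f θ ≤ f (π / 2) := hmono ⟨h0, h1⟩ ⟨by positivity, le_rfl⟩ h1
  simp only [hf] at h5
  rw [sin_pi_div_two] at h5
  have h6 : 0 ≤ c * sin θ ^ 2 := by positivity
  linarith
-- END hneg

-- BEGIN loc
/-- the local lemma -/
theorem loc (hn : 2 ≤ n) (a : Fin n → Fin n → ℝ) (ha : ∀ i, cv a i i = 1) (β : ℝ) (hβ : 0 < β)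
    (hC : C1 n β (del a) (rho a)) :
    EG a (fun x => (Lg β x + 1) ^ 2) ≤ EG (spx n) (fun x => (Lg β x + 1) ^ 2) := by
  have hdl : ∀ i, dl a (spx n) i i = 0 := by
    intro i
    unfold dl
    rw [ha i, spx_cv hn i i, if_pos rfl, sub_self]
  have gG : Gr (fun x : Fin n → ℝ => (Lg β x + 1) ^ 2) := ((Gr.Lg β).add (Gr.const 1)).sq
  have hderiv := derG (by omega : 0 < n) a (spx n) hdl β
  have hmono : MonotoneOn (fun t => EG (path a (spx n) t) (fun x => (Lg β x + 1) ^ 2))
      (Set.Icc 0 (π / 2)) := by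
    apply monotoneOn_of_deriv_nonneg (convex_Icc _ _)
    · exact fun t _ => (hderiv t).continuousAt.continuousWithinAt
    · exact fun t _ => (hderiv t).differentiableAt.differentiableWithinAt
    · intro t ht
      rw [interior_Icc] at ht
      rw [(hderiv t).deriv]
      have hs : 0 ≤ sin t := sin_nonneg_of_nonneg_of_le_pi ht.1.le (by linarith [ht.2, pi_pos])
      have hcs : 0 ≤ cos t := cos_nonneg_of_neg_pi_div_two_le_of_le (by linarith [ht.1, pi_pos]) ht.2.le
      have h2 := hneg hn a ha β hβ hC t ht.1.le ht.2.le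
      have h3 : 0 ≤ 2 * β ^ 2 * (sin t * cos t) := by positivity
      nlinarith [mul_nonneg h3 (neg_nonneg.2 h2)]
  have h5 := hmono ⟨le_rfl, by positivity⟩ ⟨by positivity, le_rfl⟩ (by positivity : (0 : ℝ) ≤ π / 2)
  simp only at h5
  rw [path_zero a (spx n) gG, path_pi a (spx n) gG] at h5
  exact h5
-- END loc

end SMx
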