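import Pool.Agent.SMx.C

/-! MP_72ffec_pr: the far and the near regime, numerics, the main inequality for `A z`. -/

open MeasureTheory ProbabilityTheory Real
open scoped BigOperators ENNReal

namespace SMx

variable {n : ℕ} {ι : Type} [Fintype ι]

/-! inequalities in one variable -/

-- BEGIN psi1
theorem psi_log (w : ℝ) (hw : 0 < w) :
    log w ^ 2 ≤ (2 + max (-log w) 0) * (w - 1 - log w) := by
  rcases le_total 1 w with h1 | h1
  · have hs : 0 ≤ log w := Real.log_nonneg h1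
    rw [max_eq_right (by linarith), add_zero]
    have h2 := Real.quadratic_le_exp_of_nonneg hs
    rw [Real.exp_log hw] at h2
    nlinarith
  · have hs : log w ≤ 0 := Real.log_nonpos hw.le h1
    rw [max_eq_left (by linarith)]
    have hx : 0 ≤ 1 / w - 1 := by
      rw [sub_nonneg, le_div_iff₀ hw]
      linarith
    have h2 := Real.le_log_one_add_of_nonneg hx
    rw [show 1 + (1 / w - 1) = w⁻¹ by ring, Real.log_inv] at h2
    have h3 : 2 * (1 / w - 1) / (1 / w - 1 + 2) = 2 * (1 - w) / (1 + w) := by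
      field_simp
      ring
    rw [h3, div_le_iff₀ (by linarith)] at h2
    nlinarith
-- END psi1

-- BEGIN psi2
private theorem psi2_mono (f f' : ℝ → ℝ) (hf : ∀ x, 0 < x → HasDerivAt f (f' x) x) (h1 : ∀ x, 1 ≤ x → 0 ≤ f' x)
    (h2 : ∀ x, 0 < x → x ≤ 1 → f' x ≤ 0) (w : ℝ) (hw : 0 < w) : f 1 ≤ f w := by
  rcases le_total 1 w with h | h
  · have hm : MonotoneOn f (Set.Ici 1) := by
      refine monotoneOn_of_deriv_nonneg (convex_Ici 1)
        (fun x hx => (hf x (lt_of_lt_of_le one_pos hx)).continuousAt.continuousWithinAt) ?_ ?_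
      · intro x hx
        rw [interior_Ici] at hx
        exact (hf x (one_pos.trans hx)).differentiableAt.differentiableWithinAt
      · intro x hx
        rw [interior_Ici] at hx
        rw [(hf x (one_pos.trans hx)).deriv]
        exact h1 x (le_of_lt hx)
    exact hm Set.self_mem_Ici h h
  · have hm : AntitoneOn f (Set.Icc w 1) := by
      refine antitoneOn_of_deriv_nonpos (convex_Icc w 1)
        (fun x hx => (hf x (lt_of_lt_of_le hw hx.1)).continuousAt.continuousWithinAt) ?_ ?_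
      · intro x hx
        rw [interior_Icc] at hx
        exact (hf x (hw.trans hx.1)).differentiableAt.differentiableWithinAt
      · intro x hx
        rw [interior_Icc] at hx
        rw [(hf x (hw.trans hx.1)).deriv]
        exact h2 x (hw.trans hx.1) hx.2.le
    exact hm ⟨le_rfl, h⟩ ⟨h, le_rfl⟩ h

theorem psi_sq (w : ℝ) (hw : 0 < w) : (w - 1) ^ 2 ≤ 2 * (1 + w) * (w - 1 - log w) := by
  have hd : ∀ x : ℝ, 0 < x → HasDerivAt (fun x : ℝ => x / 2 + 1 / 2 - 2 / (x + 1) - log x)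
      (1 / 2 + 2 / (x + 1) ^ 2 - 1 / x) x := by
    intro x hx
    have hx1 : x + 1 ≠ 0 := by linarith
    have h1 : HasDerivAt (fun x : ℝ => x / 2 + 1 / 2) (1 / 2) x :=
      ((hasDerivAt_id x).div_const 2).add_const _
    have h2 : HasDerivAt (fun x : ℝ => 2 / (x + 1)) (-(2 / (x + 1) ^ 2)) x := by
      have h3 := ((hasDerivAt_id x).add_const 1).inv hx1
      have h4 := h3.const_mul 2
      refine (h4.congr_deriv ?_).congr_of_eventuallyEq (Filter.Eventually.of_forall fun y => ?_)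
      · simp only [id]; ring
      · simp only [id, Pi.inv_apply]; ring
    have h5 := (h1.sub h2).sub (Real.hasDerivAt_log hx.ne')
    refine h5.congr_deriv ?_
    ring
  have key := psi2_mono _ _ hd (fun x hx => ?_) (fun x hx hx1 => ?_) w hw
  · simp only [Real.log_one] at key
    have hw1 : 0 < w + 1 := by linarith
    have h6 : 0 ≤ (w / 2 + 1 / 2 - 2 / (w + 1) - log w) * (2 * (w + 1)) := by
      refine mul_nonneg ?_ (by linarith)
      linarith
    have h7 : (w / 2 + 1 / 2 - 2 / (w + 1) - log w) * (2 * (w + 1)) =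
        2 * (1 + w) * (w - 1 - log w) - (w - 1) ^ 2 := by
      field_simp
      ring
    linarith
  · have h8 : 1 / 2 + 2 / (x + 1) ^ 2 - 1 / x = (x - 1) * (x ^ 2 + x + 2) / (2 * x * (x + 1) ^ 2) := by
      have : x ≠ 0 := by linarith
      have : x + 1 ≠ 0 := by linarith
      field_simp
      ring
    rw [h8]
    have : 0 ≤ x - 1 := by linarith
    positivity
  · have h8 : 1 / 2 + 2 / (x + 1) ^ 2 - 1 / x = -((1 - x) * (x ^ 2 + x + 2) / (2 * x * (x + 1) ^ 2)) := by
      have : x ≠ 0 := by linarith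
      have : x + 1 ≠ 0 := by linarith
      field_simp
      ring
    rw [h8, neg_nonpos]
    have : 0 ≤ 1 - x := by linarith
    positivity
-- END psi2

-- BEGIN psi3
theorem psi_inv (w : ℝ) (hw : 0 < w) : -log w ≤ (w - 1) ^ 2 / w - (w - 1) := by
  have h1 := Real.log_le_sub_one_of_pos (inv_pos.2 hw)
  rw [Real.log_inv] at h1
  have h2 : (w - 1) ^ 2 / w - (w - 1) = w⁻¹ - 1 := by
    field_simp
    ring
  rw [h2]
  exact h1

theorem exp_quad (x y : ℝ) (h : |x| ≤ y) : x + x ^ 2 / 2 * exp (-y) ≤ exp x - 1 := by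
  have hy : 0 ≤ y := (abs_nonneg x).trans h
  rcases le_total 0 x with hx | hx
  · have h1 := Real.quadratic_le_exp_of_nonneg hx
    have h2 : exp (-y) ≤ 1 := Real.exp_le_one_iff.2 (by linarith)
    have h3 : x ^ 2 / 2 * exp (-y) ≤ x ^ 2 / 2 * 1 := mul_le_mul_of_nonneg_left h2 (by positivity)
    linarith
  · obtain ⟨t, rfl⟩ : ∃ t, x = -t := ⟨-x, by ring⟩
    have ht : 0 ≤ t := by linarith
    rw [abs_neg, abs_of_nonneg ht] at h
    have h1 : exp (-y) ≤ exp (-t) := Real.exp_le_exp.2 (by linarith)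
    have h2 : (-t) ^ 2 / 2 * exp (-y) ≤ t ^ 2 / 2 * exp (-t) := by
      rw [neg_sq]
      exact mul_le_mul_of_nonneg_left h1 (by positivity)
    have hpos := Real.exp_pos t
    have key : (1 - t) * exp t ≤ 1 - t ^ 2 / 2 := by
      rcases le_total t 1 with ht1 | ht1
      · have h3 := Real.exp_bound' ht ht1 (n := 3) (by norm_num)
        simp only [Finset.sum_range_succ, Finset.sum_range_zero, Nat.factorial] at h3
        norm_num at h3
        have h4 : (1 - t) * exp t ≤ (1 - t) * (1 + t + t ^ 2 / 2 + t ^ 3 * (4 / 18)) := by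
          refine mul_le_mul_of_nonneg_left ?_ (by linarith)
          linarith
        have h5 : 0 ≤ t ^ 3 := by positivity
        have h6 : 0 ≤ t ^ 4 := by positivity
        nlinarith
      · have h3 := Real.quadratic_le_exp_of_nonneg ht
        have h4 : (t - 1) * (1 + t + t ^ 2 / 2) ≤ (t - 1) * exp t :=
          mul_le_mul_of_nonneg_left h3 (by linarith)
        have h5 : 0 ≤ t ^ 2 * t := by positivity
        nlinarith
    have h7 : (1 - t) * exp t * exp (-t) ≤ (1 - t ^ 2 / 2) * exp (-t) :=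
      mul_le_mul_of_nonneg_right key (Real.exp_pos _).le
    rw [mul_assoc, ← Real.exp_add, add_neg_cancel, Real.exp_zero, mul_one] at h7
    linarith
-- END psi3

/-! the mean one variable `W` -/

-- BEGIN W_basic
theorem W_pos (hn : 0 < n) (β : ℝ) (x : Fin n → ℝ) : 0 < Wf β x :=
  mul_pos (Zf_pos hn β x) (Real.exp_pos _)

theorem EW (hn : 0 < n) (A : Fin n → ι → ℝ) (hA : ∀ i, cv A i i = 1) (β : ℝ) :
    EG A (fun x => Wf β x) = 1 := by
  have h1 : (fun x : Fin n → ℝ => Wf β x) = fun x => exp (-(β ^ 2 / 2)) * Zf β x := by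
    funext x
    unfold Wf
    ring
  rw [h1, EG_const_mul, mgfZ hn A hA β, ← Real.exp_add, neg_add_cancel, Real.exp_zero]

/-- `-log W ≤ β²/2 + |β| |x̄|` -/
theorem neglogW (hn : 0 < n) (β : ℝ) (hβ : 0 ≤ β) (x : Fin n → ℝ) :
    -log (Wf β x) ≤ β ^ 2 / 2 + β * |av x| := by
  have hZ := Zf_pos hn β x
  unfold Wf
  rw [Real.log_mul hZ.ne' (Real.exp_pos _).ne', Real.log_exp]
  have h1 := (Real.le_log_iff_exp_le hZ).2 (exp_bar_le_Zf hn β x)
  have h2 : -(β * |av x|) ≤ β * av x := by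
    have h3 := mul_le_mul_of_nonneg_left (neg_abs_le (av x)) hβ
    linarith
  linarith
-- END W_basic

-- BEGIN EW2
private theorem EW2_mgf (A : Fin n → ι → ℝ) (hA : ∀ i, cv A i i = 1) (β : ℝ) (i j : Fin n) :
    EG A (fun x => exp (β * x i) * exp (β * x j)) = exp (β ^ 2) * exp (β ^ 2 * cv A i j) := by
  have h := mgf A (fun l => (if l = i then β else 0) + (if l = j then β else 0))
  have e1 : ∀ x : Fin n → ℝ, ∑ l, ((if l = i then β else 0) + (if l = j then β else 0)) * x l =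
      β * x i + β * x j := by
    intro x
    simp [add_mul, Finset.sum_add_distrib]
  have e2 : ∑ k, ∑ l, ((if k = i then β else 0) + (if k = j then β else 0)) *
      ((if l = i then β else 0) + (if l = j then β else 0)) * cv A k l =
      β ^ 2 * (cv A i i + cv A i j + cv A j i + cv A j j) := by
    have e3 : ∀ k, ∑ l, ((if k = i then β else 0) + (if k = j then β else 0)) *
        ((if l = i then β else 0) + (if l = j then β else 0)) * cv A k l =
        ((if k = i then β else 0) + (if k = j then β else 0)) * (β * cv A k i + β * cv A k j) := by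
      intro k
      have := e1 (fun l => cv A k l)
      rw [← this, Finset.mul_sum]
      apply Finset.sum_congr rfl
      intro l _
      ring
    rw [Finset.sum_congr rfl fun k _ => e3 k]
    have := e1 (fun k => β * cv A k i + β * cv A k j)
    rw [this]
    ring
  simp only [e1] at h
  rw [e2, hA i, hA j] at h
  have e4 : cv A j i = cv A i j := by
    unfold cv
    exact Finset.sum_congr rfl fun k _ => mul_comm _ _
  rw [e4] at h
  have e5 : (fun x : Fin n → ℝ => exp (β * x i) * exp (β * x j)) =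
      fun x => exp (β * x i + β * x j) := by
    funext x; rw [exp_add]
  rw [e5, h, ← exp_add]
  congr 1
  ring

/-- the variance of `W` -/
theorem EW2 (hn : 0 < n) (A : Fin n → ι → ℝ) (hA : ∀ i, cv A i i = 1) (β : ℝ) :
    EG A (fun x => (Wf β x - 1) ^ 2) = av2 (fun i j => exp (β ^ 2 * cv A i j) - 1) := by
  have hn0 : (n : ℝ) ≠ 0 := by positivity
  have gW : Gr (fun x : Fin n → ℝ => Wf β x) := Gr.Wf β
  have gE : ∀ i j : Fin n, Gr (fun x : Fin n → ℝ => exp (β * x i) * exp (β * x j)) := fun i j =>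
    (Gr.exp1 β i).mul (Gr.exp1 β j)
  have e1 : (fun x : Fin n → ℝ => (Wf β x - 1) ^ 2) =
      fun x => (Wf β x ^ 2 - 2 * Wf β x) + 1 := by
    funext x; ring
  have hEW := EW hn A hA β
  rw [e1, EG_add (gW.sq.sub (gW.const_mul 2)) (Gr.const 1), EG_sub gW.sq (gW.const_mul 2),
    EG_const_mul, EG_const, hEW]
  have e2 : (fun x : Fin n → ℝ => Wf β x ^ 2) =
      fun x => (exp (-(β ^ 2)) / (n : ℝ) ^ 2) * ∑ i, ∑ j, exp (β * x i) * exp (β * x j) := by
    funext x
    unfold Wf Zf Sm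
    rw [← Finset.sum_mul_sum]
    have : exp (-(β ^ 2)) = exp (-(β ^ 2 / 2)) * exp (-(β ^ 2 / 2)) := by
      rw [← exp_add]; ring_nf
    rw [this]
    field_simp
  have e3 : EG A (fun x => Wf β x ^ 2) =
      (exp (-(β ^ 2)) / (n : ℝ) ^ 2) * ∑ i, ∑ j, exp (β ^ 2) * exp (β ^ 2 * cv A i j) := by
    rw [e2, EG_const_mul, EG_sum Finset.univ (fun i => Gr.sum Finset.univ fun j => gE i j)]
    congr 1
    apply Finset.sum_congr rfl
    intro i _
    rw [EG_sum Finset.univ (fun j => gE i j)]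
    exact Finset.sum_congr rfl fun j _ => EW2_mgf A hA β i j
  rw [e3]
  unfold av2
  simp only [← Finset.mul_sum, Finset.sum_sub_distrib, Finset.sum_const, Finset.card_univ,
    Fintype.card_fin, nsmul_eq_mul, mul_one]
  have e4 : exp (-(β ^ 2)) * exp (β ^ 2) = 1 := by rw [← exp_add]; simp
  field_simp
  rw [e4]
  ring
-- END EW2

-- BEGIN EW2low
theorem EW2low (hn : 0 < n) (A : Fin n → ι → ℝ) (hA : ∀ i, cv A i i = 1) (β : ℝ) :
    β ^ 2 * del A + β ^ 4 / 2 * exp (-β ^ 2) * rho A ^ 2 ≤ EG A (fun x => (Wf β x - 1) ^ 2) := by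
  rw [EW2 hn A hA β]
  have hr : rho A ^ 2 = av2 (fun i j => cv A i j ^ 2) := by
    unfold rho
    refine Real.sq_sqrt ?_
    unfold av2
    exact div_nonneg (Finset.sum_nonneg fun i _ => Finset.sum_nonneg fun j _ => sq_nonneg _) (sq_nonneg _)
  have h1 : β ^ 2 * del A + β ^ 4 / 2 * exp (-β ^ 2) * rho A ^ 2 =
      av2 (fun i j => β ^ 2 * cv A i j + β ^ 4 / 2 * exp (-β ^ 2) * cv A i j ^ 2) := by
    rw [hr]
    unfold del av2
    simp only [Finset.sum_add_distrib, ← Finset.mul_sum]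
    ring
  rw [h1]
  unfold av2
  refine div_le_div_of_nonneg_right (Finset.sum_le_sum fun i _ => Finset.sum_le_sum fun j _ => ?_)
    (sq_nonneg _)
  have h2 : |β ^ 2 * cv A i j| ≤ β ^ 2 := by
    rw [abs_mul, abs_of_nonneg (sq_nonneg β)]
    exact mul_le_of_le_one_right (sq_nonneg β) (cv_abs A hA i j)
  have h3 := exp_quad _ _ h2
  refine le_trans (le_of_eq ?_) h3
  ring
-- END EW2low

-- BEGIN EW3
/-- third moment -/
theorem EW3 (hn : 0 < n) (A : Fin n → ι → ℝ) (hA : ∀ i, cv A i i = 1) (β : ℝ) :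
    EG A (fun x => Wf β x ^ 3) ≤ exp (3 * β ^ 2) := by
  have hn0 : (0 : ℝ) < n := by positivity
  have gW : Gr (fun x : Fin n → ℝ => Wf β x) := Gr.Wf β
  have gW3 : Gr (fun x : Fin n → ℝ => Wf β x ^ 3) := by
    have e : (fun x : Fin n → ℝ => Wf β x ^ 3) = fun x => Wf β x * Wf β x ^ 2 := by
      funext x; ring
    rw [e]
    exact gW.mul gW.sq
  have gE : ∀ i : Fin n, Gr (fun x : Fin n → ℝ => exp (3 * β * x i)) := fun i => Gr.exp1 (3 * β) i
  have hpt : ∀ x : Fin n → ℝ, Wf β x ^ 3 ≤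
      exp (-(3 / 2 * β ^ 2)) / n * ∑ i, exp (3 * β * x i) := by
    intro x
    have h1 := Real.pow_arith_mean_le_arith_mean_pow Finset.univ (fun _ : Fin n => 1 / (n : ℝ))
      (fun i => exp (β * x i)) (fun _ _ => by positivity) (by
        rw [Finset.sum_const, Finset.card_univ, Fintype.card_fin, nsmul_eq_mul]
        field_simp) (fun _ _ => (exp_pos _).le) 3
    rw [← Finset.mul_sum, ← Finset.mul_sum] at h1
    have e1 : Wf β x ^ 3 = exp (-(3 / 2 * β ^ 2)) * (1 / (n : ℝ) * ∑ i, exp (β * x i)) ^ 3 := by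
      unfold Wf Zf Sm
      rw [mul_pow, ← exp_nat_mul]
      have : ((3 : ℕ) : ℝ) * -(β ^ 2 / 2) = -(3 / 2 * β ^ 2) := by push_cast; ring
      rw [this]
      ring
    have e2 : ∀ i, exp (β * x i) ^ 3 = exp (3 * β * x i) := by
      intro i
      rw [← exp_nat_mul]
      congr 1
      push_cast
      ring
    rw [e1]
    refine (mul_le_mul_of_nonneg_left h1 (exp_pos _).le).trans (le_of_eq ?_)
    rw [Finset.sum_congr rfl fun i _ => e2 i]
    ring
  refine (EG_mono gW3 ((Gr.sum Finset.univ gE).const_mul _) hpt A).trans ?_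
  rw [EG_const_mul, EG_sum Finset.univ gE]
  have h2 : ∀ i, EG A (fun x => exp (3 * β * x i)) = exp (9 / 2 * β ^ 2) := by
    intro i
    have h := mgf A (fun l => if l = i then 3 * β else 0)
    have e1 : ∀ x : Fin n → ℝ, ∑ l, (if l = i then 3 * β else 0) * x l = 3 * β * x i := by
      intro x; simp
    have e2 : ∑ k, ∑ l, (if k = i then 3 * β else 0) * (if l = i then 3 * β else 0) * cv A k l =
        9 * β ^ 2 := by
      have e3 : ∀ k, ∑ l, (if k = i then 3 * β else 0) * (if l = i then 3 * β else 0) * cv A k l =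
          (if k = i then 3 * β else 0) * (3 * β * cv A k i) := by
        intro k
        rw [← e1 (fun l => cv A k l), Finset.mul_sum]
        apply Finset.sum_congr rfl
        intro l _
        ring
      rw [Finset.sum_congr rfl fun k _ => e3 k, e1 (fun k => 3 * β * cv A k i), hA i]
      ring
    simp only [e1] at h
    rw [e2] at h
    rw [h]
    congr 1
    ring
  rw [Finset.sum_congr rfl fun i _ => h2 i, Finset.sum_const, Finset.card_univ, Fintype.card_fin,
    nsmul_eq_mul]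
  have e : exp (-(3 / 2 * β ^ 2)) / n * (n * exp (9 / 2 * β ^ 2)) =
      exp (-(3 / 2 * β ^ 2)) * exp (9 / 2 * β ^ 2) := by
    field_simp
  rw [e, ← exp_add]
  apply le_of_eq
  congr 1
  ring
-- END EW3

-- BEGIN eps_psi
theorem eps_psi (hn : 0 < n) (A : Fin n → ι → ℝ) (hA : ∀ i, cv A i i = 1) (β : ℝ) :
    eps β A = EG A (fun x => Wf β x - 1 - log (Wf β x)) := by
  rw [EG_sub ((Gr.Wf β).sub (Gr.const 1)) (Gr.logW hn β), EG_sub (Gr.Wf β) (Gr.const 1), EG_const,
    EW hn A hA β, sub_self, zero_sub]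
  exact integral_neg _

theorem eps_nonneg (hn : 0 < n) (A : Fin n → ι → ℝ) (hA : ∀ i, cv A i i = 1) (β : ℝ) :
    0 ≤ eps β A := by
  rw [eps_psi hn A hA β, ← EG_const (0 : ℝ) A]
  refine EG_mono (Gr.const 0) (((Gr.Wf β).sub (Gr.const 1)).sub (Gr.logW hn β)) (fun x => ?_) A
  have h := Real.log_le_sub_one_of_pos (W_pos hn β x)
  linarith
-- END eps_psi

-- BEGIN G_eq
/-- `E (L+1)²` in terms of `W` -/
theorem G_eq (hn : 0 < n) (A : Fin n → ι → ℝ) (β : ℝ) :
    EG A (fun x => (Lg β x + 1) ^ 2) = (log n + 1 + β ^ 2 / 2) ^ 2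
      - 2 * (log n + 1 + β ^ 2 / 2) * eps β A + EG A (fun x => log (Wf β x) ^ 2) := by
  have gW : Gr (fun x : Fin n → ℝ => log (Wf β x)) := Gr.logW hn β
  have e : (fun x : Fin n → ℝ => (Lg β x + 1) ^ 2) = fun x =>
      ((log n + 1 + β ^ 2 / 2) ^ 2 - 2 * (log n + 1 + β ^ 2 / 2) * (-log (Wf β x))) +
        log (Wf β x) ^ 2 := by
    funext x
    have h1 : log (Wf β x) = log (Zf β x) - β ^ 2 / 2 := by
      unfold Wf
      rw [log_mul (Zf_pos hn β x).ne' (exp_pos _).ne', log_exp]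
      ring
    rw [Lg_eq hn β x, h1]
    ring
  rw [e, EG_add ((Gr.const _).sub (gW.neg.const_mul _)) gW.sq, EG_sub (Gr.const _) (gW.neg.const_mul _),
    EG_const, EG_const_mul]
  rfl
-- END G_eq

-- BEGIN near
private theorem near_pt (s w ψ : ℝ) (hs : 0 < s) (hw : 0 < w) (h : (w - 1) ^ 2 ≤ 2 * (1 + w) * ψ) :
    (w - 1) ^ 2 ≤ s * (1 + w ^ 3) + 1 / (2 * s) * ψ := by
  have hc : 0 < s * (1 + w) := by positivity
  have h1 : (w - 1) ^ 2 / (2 * (1 + w)) ≤ ψ := by
    rw [div_le_iff₀ (by positivity)]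
    linarith
  have h2 : (1 : ℝ) ≤ s * (1 + w) + 1 / (4 * (s * (1 + w))) := by
    have h3 : s * (1 + w) + 1 / (4 * (s * (1 + w))) - 1 =
        (2 * (s * (1 + w)) - 1) ^ 2 / (4 * (s * (1 + w))) := by
      field_simp
      ring
    have h4 : 0 ≤ (2 * (s * (1 + w)) - 1) ^ 2 / (4 * (s * (1 + w))) := by positivity
    linarith
  have h5 : (w - 1) ^ 2 ≤ (w - 1) ^ 2 * (s * (1 + w) + 1 / (4 * (s * (1 + w)))) :=
    le_mul_of_one_le_right (sq_nonneg _) h2
  have h6 : (w - 1) ^ 2 * (s * (1 + w) + 1 / (4 * (s * (1 + w)))) =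
      s * ((1 + w) * (w - 1) ^ 2) + 1 / (2 * s) * ((w - 1) ^ 2 / (2 * (1 + w))) := by
    field_simp
    ring
  have h7 : (1 + w) * (w - 1) ^ 2 ≤ 1 + w ^ 3 := by nlinarith [sq_nonneg w]
  have h8 : s * ((1 + w) * (w - 1) ^ 2) ≤ s * (1 + w ^ 3) := mul_le_mul_of_nonneg_left h7 hs.le
  have h9 : 1 / (2 * s) * ((w - 1) ^ 2 / (2 * (1 + w))) ≤ 1 / (2 * s) * ψ :=
    mul_le_mul_of_nonneg_left h1 (by positivity)
  linarith

/-- near regime: Cauchy–Schwarz -/
theorem near (hn : 0 < n) (A : Fin n → ι → ℝ) (hA : ∀ i, cv A i i = 1) (β : ℝ) :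
    EG A (fun x => (Wf β x - 1) ^ 2) ≤ 2 * exp (3 / 2 * β ^ 2) * √(eps β A) := by
  have hG1 : Gr (fun x : Fin n → ℝ => (Wf β x - 1) ^ 2) := ((Gr.Wf β).sub (Gr.const 1)).sq
  have hG2 : Gr (fun x : Fin n → ℝ => Wf β x ^ 3) := by
    have h := (Gr.Wf (n := n) β).sq.mul (Gr.Wf β)
    have h' : (fun x : Fin n → ℝ => Wf β x ^ 3) = fun x => Wf β x ^ 2 * Wf β x := by
      funext x; ring
    rw [h']; exact h
  have hψ : Gr (fun x : Fin n → ℝ => Wf β x - 1 - log (Wf β x)) :=
    ((Gr.Wf β).sub (Gr.const 1)).sub (Gr.logW hn β)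
  have hG3 : Gr (fun x : Fin n → ℝ => 1 + Wf β x ^ 3) := (Gr.const 1).add hG2
  have key : ∀ s : ℝ, 0 < s →
      EG A (fun x => (Wf β x - 1) ^ 2) ≤ 2 * s * exp (3 * β ^ 2) + 1 / (2 * s) * eps β A := by
    intro s hs
    have h1 : EG A (fun x => (Wf β x - 1) ^ 2) ≤ EG A (fun x => s * (1 + Wf β x ^ 3) +
        1 / (2 * s) * (Wf β x - 1 - log (Wf β x))) :=
      EG_mono hG1 ((hG3.const_mul s).add (hψ.const_mul _))
        (fun x => near_pt s _ _ hs (W_pos hn β x) (psi_sq _ (W_pos hn β x))) A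
    rw [EG_add (hG3.const_mul s) (hψ.const_mul _), EG_const_mul, EG_const_mul,
      EG_add (Gr.const 1) hG2, EG_const, ← eps_psi hn A hA β] at h1
    have h2 := EW3 hn A hA β
    have h3 : (1 : ℝ) ≤ exp (3 * β ^ 2) := Real.one_le_exp (by positivity)
    have h4 : s * (1 + EG A (fun x => Wf β x ^ 3)) ≤ s * (2 * exp (3 * β ^ 2)) :=
      mul_le_mul_of_nonneg_left (by linarith) hs.le
    linarith
  have he := eps_nonneg hn A hA β
  have hM : exp (3 * β ^ 2) = exp (3 / 2 * β ^ 2) ^ 2 := by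
    rw [← Real.exp_nat_mul]
    congr 1
    push_cast
    ring
  have hm : 0 < exp (3 / 2 * β ^ 2) := Real.exp_pos _
  rcases he.eq_or_lt with h0 | h0
  · rw [← h0, Real.sqrt_zero, mul_zero]
    refine le_of_forall_pos_le_add fun ε hε => ?_
    have h5 := key (ε / (2 * exp (3 * β ^ 2))) (by positivity)
    rw [← h0, mul_zero, add_zero] at h5
    refine h5.trans (le_of_eq ?_)
    have : exp (3 * β ^ 2) ≠ 0 := (Real.exp_pos _).ne'
    field_simp
    ring
  · have hq : 0 < √(eps β A) := Real.sqrt_pos.2 h0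
    have h5 := key (√(eps β A) / (2 * exp (3 / 2 * β ^ 2))) (by positivity)
    refine h5.trans (le_of_eq ?_)
    have h6 : eps β A = √(eps β A) ^ 2 := (Real.sq_sqrt he).symm
    rw [hM]
    nth_rewrite 3 [h6]
    field_simp
    ring
-- END near

-- BEGIN mgfbar
/-- exponential moments of the mean -/
theorem mgfbar (A : Fin n → ι → ℝ) (hA : ∀ i, cv A i i = 1) (T : ℝ) :
    EG A (fun x => exp (T * av x)) ≤ exp (T ^ 2 / 2) := by
  have h1 := mgf A (fun _ => T / (n : ℝ))
  have h2 : (fun x : Fin n → ℝ => exp (T * av x)) = fun x => exp (∑ i, T / (n : ℝ) * x i) := by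
    funext x
    rw [← Finset.mul_sum]
    unfold av
    congr 1
    ring
  rw [h2, h1, Real.exp_le_exp]
  have h3 : ∑ i : Fin n, ∑ j : Fin n, T / (n : ℝ) * (T / (n : ℝ)) * cv A i j = T ^ 2 * del A := by
    simp only [← Finset.mul_sum]
    unfold del av2
    ring
  rw [h3]
  have h4 := del_le A hA
  have h5 : T ^ 2 * del A ≤ T ^ 2 * 1 := mul_le_mul_of_nonneg_left h4 (sq_nonneg _)
  linarith
-- END mgfbar

-- BEGIN logW2_pt
/-- pointwise bound of `(log W)²` -/
theorem logW2_pt (hn : 0 < n) (β T : ℝ) (hβ : 0 ≤ β) (hT : 1 ≤ T) (hβT : β ≤ T)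
    (x : Fin n → ℝ) :
    log (Wf β x) ^ 2 ≤ (2 + β ^ 2 / 2 + β * T) * (Wf β x - 1 - log (Wf β x)) +
      9 / 2 * β ^ 2 * exp (T - T ^ 2) * (exp (T * av x) + exp (-T * av x)) := by
  have hw := W_pos hn β x
  have hpsi := psi_log _ hw
  have hneg := neglogW hn β hβ x
  have h0 : 0 ≤ Wf β x - 1 - log (Wf β x) := by
    have := Real.log_le_sub_one_of_pos hw
    linarith
  generalize Wf β x = w at hw hpsi hneg h0 ⊢
  generalize av x = X at hneg ⊢
  have hk : 0 ≤ 9 / 2 * β ^ 2 * exp (T - T ^ 2) * (exp (T * X) + exp (-T * X)) := by positivity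
  by_cases hc : |X| ≤ T ∨ 1 ≤ w
  · have hl : max (-log w) 0 ≤ β ^ 2 / 2 + β * T := by
      refine max_le ?_ (by positivity)
      rcases hc with hc | hc
      · have : β * |X| ≤ β * T := mul_le_mul_of_nonneg_left hc hβ
        linarith
      · have := Real.log_nonneg hc
        have : 0 ≤ β ^ 2 / 2 + β * T := by positivity
        linarith
    have h1 : (2 + max (-log w) 0) * (w - 1 - log w) ≤
        (2 + β ^ 2 / 2 + β * T) * (w - 1 - log w) := by
      refine mul_le_mul_of_nonneg_right ?_ h0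
      linarith
    linarith
  · push Not at hc
    obtain ⟨hX, hw1⟩ := hc
    have h2 : 0 ≤ -log w := by
      have := Real.log_nonpos hw.le hw1.le
      linarith
    have h3 : -log w ≤ 3 / 2 * β * |X| := by
      have h4 : β * β ≤ β * |X| := mul_le_mul_of_nonneg_left (by linarith) hβ
      nlinarith
    have h5 : log w ^ 2 ≤ (3 / 2 * β * |X|) ^ 2 := by
      rw [← neg_sq (log w)]
      exact pow_le_pow_left₀ h2 h3 2
    have h6 : |X| ≤ T - T ^ 2 + T * |X| := by nlinarith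
    have h7 : exp |X| ≤ exp (T - T ^ 2) * (exp (T * X) + exp (-T * X)) := by
      have h8 : exp (T * |X|) ≤ exp (T * X) + exp (-T * X) := by
        rcases abs_cases X with ⟨hh, -⟩ | ⟨hh, -⟩
        · rw [hh]
          have := Real.exp_pos (-T * X)
          linarith
        · rw [hh, show T * -X = -T * X by ring]
          have := Real.exp_pos (T * X)
          linarith
      calc exp |X| ≤ exp (T - T ^ 2 + T * |X|) := Real.exp_le_exp.2 h6
        _ = exp (T - T ^ 2) * exp (T * |X|) := Real.exp_add _ _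
        _ ≤ _ := mul_le_mul_of_nonneg_left h8 (Real.exp_pos _).le
    have h9 := Real.quadratic_le_exp_of_nonneg (abs_nonneg X)
    have h10 : |X| ^ 2 / 2 ≤ exp (T - T ^ 2) * (exp (T * X) + exp (-T * X)) := by
      have := abs_nonneg X
      linarith
    have h11 : (3 / 2 * β * |X|) ^ 2 ≤
        9 / 2 * β ^ 2 * exp (T - T ^ 2) * (exp (T * X) + exp (-T * X)) := by
      have h12 : 9 / 2 * β ^ 2 * (|X| ^ 2 / 2) ≤
          9 / 2 * β ^ 2 * (exp (T - T ^ 2) * (exp (T * X) + exp (-T * X))) :=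
        mul_le_mul_of_nonneg_left h10 (by positivity)
      linarith
    have h13 : 0 ≤ (2 + β ^ 2 / 2 + β * T) * (w - 1 - log w) := by positivity
    linarith
-- END logW2_pt

-- BEGIN logW2
/-- far regime: the second moment of `log W` -/
theorem logW2 (hn : 0 < n) (A : Fin n → ι → ℝ) (hA : ∀ i, cv A i i = 1) (β T : ℝ) (hβ : 0 ≤ β)
    (hT : 1 ≤ T) (hβT : β ≤ T) :
    EG A (fun x => log (Wf β x) ^ 2) ≤
      (2 + β ^ 2 / 2 + β * T) * eps β A + 9 * β ^ 2 * exp (T - T ^ 2 / 2) := by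
  have hψ : Gr (fun x : Fin n → ℝ => Wf β x - 1 - log (Wf β x)) :=
    ((Gr.Wf β).sub (Gr.const 1)).sub (Gr.logW hn β)
  have he : Gr (fun x : Fin n → ℝ => exp (T * av x) + exp (-T * av x)) :=
    (Gr.expbar T).add (Gr.expbar (-T))
  have h1 : EG A (fun x => log (Wf β x) ^ 2) ≤
      EG A (fun x => (2 + β ^ 2 / 2 + β * T) * (Wf β x - 1 - log (Wf β x)) +
        9 / 2 * β ^ 2 * exp (T - T ^ 2) * (exp (T * av x) + exp (-T * av x))) :=
    EG_mono (Gr.logW hn β).sq ((hψ.const_mul _).add (he.const_mul _))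
      (fun x => logW2_pt hn β T hβ hT hβT x) A
  rw [EG_add (hψ.const_mul _) (he.const_mul _), EG_const_mul, EG_const_mul,
    EG_add (Gr.expbar T) (Gr.expbar (-T)), ← eps_psi hn A hA β] at h1
  have h2 := mgfbar A hA T
  have h3 := mgfbar A hA (-T)
  rw [neg_sq] at h3
  have h4 : 9 / 2 * β ^ 2 * exp (T - T ^ 2) *
      (EG A (fun x => exp (T * av x)) + EG A (fun x => exp (-T * av x))) ≤
      9 / 2 * β ^ 2 * exp (T - T ^ 2) * (exp (T ^ 2 / 2) + exp (T ^ 2 / 2)) :=
    mul_le_mul_of_nonneg_left (by linarith) (by positivity)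
  have h5 : 9 / 2 * β ^ 2 * exp (T - T ^ 2) * (exp (T ^ 2 / 2) + exp (T ^ 2 / 2)) =
      9 * β ^ 2 * exp (T - T ^ 2 / 2) := by
    rw [show T - T ^ 2 / 2 = (T - T ^ 2) + T ^ 2 / 2 by ring, Real.exp_add]
    ring
  linarith
-- END logW2

-- BEGIN eps_spx
private theorem eps_spx_av (hn : 2 ≤ n) (β : ℝ) :
    av2 (fun i j => exp (β ^ 2 * cv (spx n) i j) - 1) ≤ exp (β ^ 2) / n := by
  have hn0 : (0 : ℝ) < n := by exact_mod_cast (by omega : 0 < n)
  have hn1 : (0 : ℝ) < (n : ℝ) - 1 := by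
    have : (2 : ℝ) ≤ n := by exact_mod_cast hn
    linarith
  have h1 : ∀ i j : Fin n, exp (β ^ 2 * cv (spx n) i j) - 1 ≤ if i = j then exp (β ^ 2) else 0 := by
    intro i j
    rw [spx_cv hn i j]
    split
    · rw [mul_one]
      linarith
    · have h2 : β ^ 2 * (-1 / ((n : ℝ) - 1)) ≤ 0 := by
        have h3 : -1 / ((n : ℝ) - 1) ≤ 0 := div_nonpos_of_nonpos_of_nonneg (by norm_num) hn1.le
        exact mul_nonpos_of_nonneg_of_nonpos (sq_nonneg β) h3
      have h4 := Real.exp_le_one_iff.2 h2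
      linarith
  unfold av2
  have h5 : ∑ i : Fin n, ∑ j : Fin n, (exp (β ^ 2 * cv (spx n) i j) - 1) ≤ n * exp (β ^ 2) := by
    refine (Finset.sum_le_sum fun i _ => Finset.sum_le_sum fun j _ => h1 i j).trans (le_of_eq ?_)
    simp
  rw [div_le_div_iff₀ (by positivity) hn0]
  calc (∑ i : Fin n, ∑ j : Fin n, (exp (β ^ 2 * cv (spx n) i j) - 1)) * n ≤ n * exp (β ^ 2) * n :=
        mul_le_mul_of_nonneg_right h5 hn0.le
    _ = exp (β ^ 2) * (n : ℝ) ^ 2 := by ring

/-- the simplex has small `eps` -/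
theorem eps_spx (hn : 2 ≤ n) (β : ℝ) : eps β (spx n) ≤ exp (3 / 2 * β ^ 2) / n := by
  have hn' : 0 < n := by omega
  have hn0 : (0 : ℝ) < n := by exact_mod_cast hn'
  have hA : ∀ i, cv (spx n) i i = 1 := fun i => by rw [spx_cv hn i i, if_pos rfl]
  have hG1 : Gr (fun x : Fin n → ℝ => (Wf β x - 1) ^ 2) := ((Gr.Wf β).sub (Gr.const 1)).sq
  have hG2 : Gr (fun x : Fin n → ℝ => Wf β x - 1) := (Gr.Wf β).sub (Gr.const 1)
  have h1 : eps β (spx n) ≤
      EG (spx n) (fun x => exp (β ^ 2 / 2) * (Wf β x - 1) ^ 2 - (Wf β x - 1)) := by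
    unfold eps EG
    refine integral_mono ((Gr.logW hn' β).neg.integrable (spx n))
      (((hG1.const_mul _).sub hG2).integrable (spx n)) fun z => ?_
    have hw := W_pos hn' β (lin (spx n) z)
    have h2 := psi_inv _ hw
    have h3 : exp (-(β ^ 2 / 2)) ≤ Wf β (lin (spx n) z) := by
      have h4 := exp_bar_le_Zf hn' β (lin (spx n) z)
      rw [spx_bar hn z, mul_zero, Real.exp_zero] at h4
      unfold Wf
      exact le_mul_of_one_le_left (Real.exp_pos _).le h4
    have h5 : (Wf β (lin (spx n) z) - 1) ^ 2 / Wf β (lin (spx n) z) ≤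
        exp (β ^ 2 / 2) * (Wf β (lin (spx n) z) - 1) ^ 2 := by
      rw [div_le_iff₀ hw]
      have h6 : 1 ≤ exp (β ^ 2 / 2) * Wf β (lin (spx n) z) := by
        have h7 := mul_le_mul_of_nonneg_left h3 (Real.exp_pos (β ^ 2 / 2)).le
        rw [← Real.exp_add, add_neg_cancel, Real.exp_zero] at h7
        exact h7
      have h8 := mul_le_mul_of_nonneg_left h6 (sq_nonneg (Wf β (lin (spx n) z) - 1))
      linarith
    show -log (Wf β (lin (spx n) z)) ≤ _
    linarith
  rw [EG_sub (hG1.const_mul _) hG2, EG_const_mul, EG_sub (Gr.Wf β) (Gr.const 1), EG_const,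
    EW hn' _ hA β, EW2 hn' _ hA β, sub_self, sub_zero] at h1
  refine h1.trans ?_
  have h9 := mul_le_mul_of_nonneg_left (eps_spx_av hn β) (Real.exp_pos (β ^ 2 / 2)).le
  refine h9.trans (le_of_eq ?_)
  rw [← mul_div_assoc, ← Real.exp_add]
  congr 2
  ring
-- END eps_spx

/-! numerics -/

-- BEGIN num_small
/-- (C1) holds for `β ≤ 1/40` -/
theorem num_small (hn : 2 ≤ n) (β δ ρ : ℝ) (hβ : 0 < β) (h : β ≤ 1 / 40) (hδ : δ ≤ 1)
    (hρ : ρ ≤ 1) : C1 n β δ ρ := by
  have hn2 : (2 : ℝ) ≤ n := by exact_mod_cast hn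
  have hL : 0.69 ≤ log (n : ℝ) := by
    have h1 : log 2 ≤ log (n : ℝ) := Real.log_le_log (by norm_num) hn2
    have h2 := Real.log_two_gt_d9
    linarith
  have hb2 : β ^ 2 ≤ 1 / 1600 := by nlinarith
  have hex : ∀ x : ℝ, 0 ≤ x → x ≤ 1 / 50 → exp x ≤ 1 + x + x ^ 2 := by
    intro x h0 h1
    have h2 := Real.exp_bound' h0 (by linarith) (n := 2) (by norm_num)
    simp only [Finset.sum_range_succ, Finset.sum_range_zero, Nat.factorial] at h2
    norm_num at h2
    nlinarith [sq_nonneg x]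
  have he1 : exp (16 * β ^ 2) ≤ 1.011 := by
    have h1 := hex (16 * β ^ 2) (by positivity) (by linarith)
    have h2 : 16 * β ^ 2 ≤ 0.01 := by linarith
    have h3 : 0 ≤ 16 * β ^ 2 := by positivity
    nlinarith
  have he2 : exp (18 * β ^ 2) ≤ 1.012 := by
    have h1 := hex (18 * β ^ 2) (by positivity) (by linarith)
    have h2 : 18 * β ^ 2 ≤ 0.01125 := by linarith
    have h3 : 0 ≤ 18 * β ^ 2 := by positivity
    nlinarith
  have he3 : 0.999 ≤ exp (-β ^ 2) := by
    have h1 := Real.add_one_le_exp (-β ^ 2)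
    linarith
  have hs1 : √δ ≤ 1 := by
    rw [show (1 : ℝ) = √1 by simp]
    exact Real.sqrt_le_sqrt hδ
  have hs2 : √(2 / (n : ℝ)) ≤ 1 := by
    rw [show (1 : ℝ) = √1 by simp]
    refine Real.sqrt_le_sqrt ?_
    rw [div_le_one (by linarith)]
    exact hn2
  have hA : 2 * β * √δ * exp (16 * β ^ 2) ≤ 0.051 := by
    have h1 : 2 * β * √δ ≤ 1 / 20 := by
      have h2 : β * √δ ≤ 1 / 40 * 1 := mul_le_mul h hs1 (Real.sqrt_nonneg _) (by norm_num)
      linarith
    have h3 : 2 * β * √δ * exp (16 * β ^ 2) ≤ 1 / 20 * 1.011 :=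
      mul_le_mul h1 he1 (Real.exp_pos _).le (by norm_num)
    linarith
  have hB : (8 * log n + 9) * (41 * exp (18 * β ^ 2)) * β ^ 2 * (ρ + √(2 / n)) ≤
      (8 * log n + 9) * 0.052 := by
    have hc : 0 ≤ 8 * log (n : ℝ) + 9 := by linarith
    have h1 : 41 * exp (18 * β ^ 2) * β ^ 2 ≤ 0.026 := by
      have h2 : exp (18 * β ^ 2) * β ^ 2 ≤ 1.012 * (1 / 1600) :=
        mul_le_mul he2 hb2 (sq_nonneg β) (by norm_num)
      nlinarith
    have h0 : 0 ≤ 41 * exp (18 * β ^ 2) * β ^ 2 := by positivity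
    have h3 : ρ + √(2 / (n : ℝ)) ≤ 2 := by linarith
    have h4 : 41 * exp (18 * β ^ 2) * β ^ 2 * (ρ + √(2 / n)) ≤ 0.052 := by
      have h5 : 41 * exp (18 * β ^ 2) * β ^ 2 * (ρ + √(2 / n)) ≤ 41 * exp (18 * β ^ 2) * β ^ 2 * 2 :=
        mul_le_mul_of_nonneg_left h3 h0
      linarith
    have h6 := mul_le_mul_of_nonneg_left h4 hc
    refine le_trans (le_of_eq ?_) h6
    ring
  have hC : 2 * log (n : ℝ) * 0.999 ≤ 2 * log n * exp (-β ^ 2) :=
    mul_le_mul_of_nonneg_left he3 (by linarith)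
  unfold C1
  linarith
-- END num_small

-- BEGIN num_near
/-- (C1) holds in the near regime for large `n` -/
theorem num_near (hn : 256 ≤ log n) (β δ ρ : ℝ) (hβ : 0 < β) (h : β ≤ √(log n) / 640)
    (hδ : 0 ≤ δ) (hρ : 0 ≤ ρ)
    (hs : β ^ 2 * δ + β ^ 4 / 2 * exp (-β ^ 2) * ρ ^ 2 ≤ 2 * exp (3 / 2 * β ^ 2) * exp (-(log n / 4))) :
    C1 n β δ ρ := by
  have hn0 : (0 : ℝ) < n := by
    rcases Nat.eq_zero_or_pos n with h0 | h0
    · subst h0; norm_num at hn
    · exact_mod_cast h0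
  set l : ℝ := log n with hl
  set t : ℝ := β ^ 2 with ht
  have hl0 : 0 < l := by linarith
  have ht0 : 0 < t := by positivity
  have hexpn : exp l = n := by rw [hl, exp_log hn0]
  have ht1 : t ≤ l / 409600 := by
    have h1 : β ^ 2 ≤ (√l / 640) ^ 2 := pow_le_pow_left₀ hβ.le h 2
    rw [div_pow, sq_sqrt hl0.le] at h1
    rw [ht]; linarith
  -- the three small quantities
  have e1 : β * √δ ≤ 2 * exp (3 / 4 * t - l / 8) := by
    have h1 : 0 ≤ β ^ 4 / 2 * exp (-t) * ρ ^ 2 := by positivity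
    have h2 : (β * √δ) ^ 2 ≤ (2 * exp (3 / 4 * t - l / 8)) ^ 2 := by
      have h3 : (exp (3 / 4 * t - l / 8)) ^ 2 = exp (3 / 2 * t) * exp (-(l / 4)) := by
        rw [← exp_nat_mul, ← exp_add]
        congr 1
        push_cast
        ring
      rw [mul_pow, mul_pow, sq_sqrt hδ, h3]
      have h4 : 0 < exp (3 / 2 * t) * exp (-(l / 4)) := by positivity
      have h5 : β ^ 2 * δ ≤ 2 * (exp (3 / 2 * t) * exp (-(l / 4))) := by
        have : t * δ ≤ 2 * exp (3 / 2 * t) * exp (-(l / 4)) := by linarith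
        rw [← ht]; linarith
      linarith
    exact (sq_le_sq₀ (by positivity) (by positivity)).1 h2
  have e2 : t * ρ ≤ 2 * exp (5 / 4 * t - l / 8) := by
    have h1 : 0 ≤ t * δ := by positivity
    have h2 : (t * ρ) ^ 2 ≤ (2 * exp (5 / 4 * t - l / 8)) ^ 2 := by
      have h3 : (exp (5 / 4 * t - l / 8)) ^ 2 = exp t * (exp (3 / 2 * t) * exp (-(l / 4))) := by
        rw [← exp_nat_mul, ← exp_add, ← exp_add]
        congr 1
        push_cast
        ring
      have h6 : β ^ 4 = t ^ 2 := by rw [ht]; ring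
      rw [h6] at hs
      have h7 : t ^ 2 / 2 * exp (-t) * ρ ^ 2 ≤ 2 * (exp (3 / 2 * t) * exp (-(l / 4))) := by linarith
      have h8 : exp t * exp (-t) = 1 := by rw [← exp_add]; simp
      have h9 := mul_le_mul_of_nonneg_left h7 (exp_pos t).le
      have h10 : exp t * (t ^ 2 / 2 * exp (-t) * ρ ^ 2) = (exp t * exp (-t)) * (t ^ 2 * ρ ^ 2 / 2) := by
        ring
      rw [h10, h8] at h9
      rw [mul_pow, mul_pow, h3]
      linarith
    exact (sq_le_sq₀ (by positivity) (by positivity)).1 h2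
  have e3 : √(2 / n) ≤ 2 * exp (-(l / 2)) := by
    rw [Real.sqrt_le_iff]
    refine ⟨by positivity, ?_⟩
    have h1 : (2 * exp (-(l / 2))) ^ 2 = 4 * exp (-l) := by
      rw [mul_pow, ← exp_nat_mul]
      have : ((2 : ℕ) : ℝ) * -(l / 2) = -l := by push_cast; ring
      rw [this]; norm_num
    rw [h1, exp_neg, hexpn, div_eq_mul_inv]
    have : 0 < (n : ℝ)⁻¹ := inv_pos.2 hn0
    linarith
  -- exponents
  have m0 : 0 < exp (-(l / 9)) := exp_pos _
  have m1 : exp (3 / 4 * t - l / 8) * exp (16 * t) ≤ exp (-(l / 9)) := by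
    rw [← exp_add]; apply exp_le_exp.2; linarith
  have m2 : exp (18 * t) * exp (5 / 4 * t - l / 8) ≤ exp (-(l / 9)) := by
    rw [← exp_add]; apply exp_le_exp.2; linarith
  have m3 : exp (18 * t) * exp (-(l / 2)) ≤ exp (-(l / 9)) := by
    rw [← exp_add]; apply exp_le_exp.2; linarith
  have f1 : 2 * β * √δ * exp (16 * t) ≤ 4 * exp (-(l / 9)) := by
    have h1 := mul_le_mul_of_nonneg_right e1 (exp_pos (16 * t)).le
    have h2 : 2 * exp (3 / 4 * t - l / 8) * exp (16 * t) =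
        2 * (exp (3 / 4 * t - l / 8) * exp (16 * t)) := by ring
    rw [h2] at h1
    have h3 : 2 * β * √δ * exp (16 * t) = 2 * (β * √δ * exp (16 * t)) := by ring
    rw [h3]; linarith
  have f2 : exp (18 * t) * (t * ρ) ≤ 2 * exp (-(l / 9)) := by
    have h1 := mul_le_mul_of_nonneg_left e2 (exp_pos (18 * t)).le
    have h2 : exp (18 * t) * (2 * exp (5 / 4 * t - l / 8)) =
        2 * (exp (18 * t) * exp (5 / 4 * t - l / 8)) := by ring
    rw [h2] at h1
    linarith
  have f3 : exp (18 * t) * (t * √(2 / n)) ≤ l * exp (-(l / 9)) := by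
    have h1 : t * √(2 / n) ≤ t * (2 * exp (-(l / 2))) := mul_le_mul_of_nonneg_left e3 ht0.le
    have h2 := mul_le_mul_of_nonneg_left h1 (exp_pos (18 * t)).le
    have h3 : exp (18 * t) * (t * (2 * exp (-(l / 2)))) =
        2 * t * (exp (18 * t) * exp (-(l / 2))) := by ring
    rw [h3] at h2
    have h4 : 2 * t * (exp (18 * t) * exp (-(l / 2))) ≤ 2 * t * exp (-(l / 9)) :=
      mul_le_mul_of_nonneg_left m3 (by positivity)
    have h5 : 2 * t * exp (-(l / 9)) ≤ l * exp (-(l / 9)) :=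
      mul_le_mul_of_nonneg_right (by linarith) m0.le
    linarith
  have f4 : (8 * l + 9) * (41 * exp (18 * t)) * t * (ρ + √(2 / n)) ≤
      41 * (8 * l + 9) * ((2 + l) * exp (-(l / 9))) := by
    have h1 : (8 * l + 9) * (41 * exp (18 * t)) * t * (ρ + √(2 / n)) =
        41 * (8 * l + 9) * (exp (18 * t) * (t * ρ) + exp (18 * t) * (t * √(2 / n))) := by ring
    rw [h1]
    apply mul_le_mul_of_nonneg_left _ (by positivity)
    linarith
  -- the last inequality
  have g1 : exp (-t) ≥ exp (-(l / 9)) * exp (l / 10) := by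
    rw [← exp_add]; apply exp_le_exp.2; linarith
  have g2 : l ^ 6 / 720000000 ≤ exp (l / 10) := by
    have h1 := Real.pow_div_factorial_le_exp (l / 10) (by positivity) 6
    have h2 : ((Nat.factorial 6 : ℕ) : ℝ) = 720 := by norm_num [Nat.factorial]
    rw [h2] at h1
    have h3 : (l / 10) ^ 6 / 720 = l ^ 6 / 720000000 := by ring
    rw [h3] at h1; exact h1
  have g3 : 4 + 41 * (8 * l + 9) * (2 + l) ≤ 2 * l * (l ^ 6 / 720000000) := by
    have h1 : 4 + 41 * (8 * l + 9) * (2 + l) ≤ 400 * l ^ 2 := by nlinarith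
    have h2 : (256 : ℝ) ^ 5 ≤ l ^ 5 := pow_le_pow_left₀ (by norm_num) hn 5
    have h3 : 400 * l ^ 2 ≤ 2 * l * (l ^ 6 / 720000000) := by
      have h4 : 2 * l * (l ^ 6 / 720000000) = l ^ 2 * (l ^ 5 / 360000000) := by ring
      rw [h4]
      have h5 : (400 : ℝ) ≤ l ^ 5 / 360000000 := by
        rw [le_div_iff₀ (by norm_num)]
        refine le_trans ?_ h2
        norm_num
      have h6 : 0 < l ^ 2 := by positivity
      nlinarith
    linarith
  show 2 * β * √δ * exp (16 * t) + (8 * l + 9) * (41 * exp (18 * t)) * t * (ρ + √(2 / n)) ≤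
    2 * l * exp (-t)
  have k1 : 4 * exp (-(l / 9)) + 41 * (8 * l + 9) * ((2 + l) * exp (-(l / 9))) =
      (4 + 41 * (8 * l + 9) * (2 + l)) * exp (-(l / 9)) := by ring
  have k2 : (4 + 41 * (8 * l + 9) * (2 + l)) * exp (-(l / 9)) ≤
      2 * l * exp (l / 10) * exp (-(l / 9)) := by
    apply mul_le_mul_of_nonneg_right _ m0.le
    refine g3.trans ?_
    exact mul_le_mul_of_nonneg_left g2 (by positivity)
  have k3 : 2 * l * exp (l / 10) * exp (-(l / 9)) ≤ 2 * l * exp (-t) := by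
    have := mul_le_mul_of_nonneg_left g1 (by positivity : (0:ℝ) ≤ 2 * l)
    calc 2 * l * exp (l / 10) * exp (-(l / 9)) = 2 * l * (exp (-(l / 9)) * exp (l / 10)) := by ring
      _ ≤ 2 * l * exp (-t) := this
  calc _ ≤ 4 * exp (-(l / 9)) + 41 * (8 * l + 9) * ((2 + l) * exp (-(l / 9))) := add_le_add f1 f4
    _ = _ := k1
    _ ≤ _ := k2
    _ ≤ _ := k3
-- END num_near

-- BEGIN num_far
/-- the far regime for large `n` -/
theorem num_far (hn : 256 ≤ log n) (β e : ℝ) (hβ : 0 < β) (h : β ≤ √(log n) / 640)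
    (he : exp (-(log n / 2)) ≤ e) :
    -(2 * (log n + 1 + β ^ 2 / 2) * e) + ((2 + β ^ 2 / 2 + β * (4 * √(log n))) * e +
      9 * β ^ 2 * exp (4 * √(log n) - (4 * √(log n)) ^ 2 / 2)) ≤
    -(2 * (log n + 1 + β ^ 2 / 2) * (exp (3 / 2 * β ^ 2) / n)) := by
  have hn0 : (0 : ℝ) < n := by
    rcases Nat.eq_zero_or_pos n with h0 | h0
    · subst h0
      simp only [Nat.cast_zero, Real.log_zero] at hn
      norm_num at hn
    · exact_mod_cast h0
  have hexp : (n : ℝ) = exp (log n) := (Real.exp_log hn0).symm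
  rw [hexp]
  rw [Real.log_exp]
  generalize log (n : ℝ) = l at *
  obtain ⟨s, hs0, hs⟩ : ∃ s : ℝ, 0 ≤ s ∧ s ^ 2 = l := ⟨√l, Real.sqrt_nonneg l, Real.sq_sqrt (by linarith)⟩
  have hsq : √l = s := by rw [← hs]; exact Real.sqrt_sq hs0
  rw [hsq] at h ⊢
  have hs16 : 16 ≤ s := by nlinarith
  have hb2 : β ^ 2 ≤ l / 409600 := by
    have : β ^ 2 ≤ (s / 640) ^ 2 := pow_le_pow_left₀ hβ.le h 2
    rw [← hs]; nlinarith
  have hbs : β * (4 * s) ≤ l / 160 := by
    have : β * (4 * s) ≤ (s / 640) * (4 * s) := mul_le_mul_of_nonneg_right h (by linarith)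
    rw [← hs]; nlinarith
  have hE0 : 0 < exp (-(l / 2)) := Real.exp_pos _
  set E := exp (-(l / 2)) with hE
  -- the tail term
  have h1 : exp (4 * s - (4 * s) ^ 2 / 2) ≤ E := by
    rw [hE]
    apply Real.exp_le_exp.2
    nlinarith
  have h2 : 9 * β ^ 2 * exp (4 * s - (4 * s) ^ 2 / 2) ≤ (l / 1000) * E := by
    have hb : 9 * β ^ 2 ≤ l / 1000 := by linarith
    calc 9 * β ^ 2 * exp (4 * s - (4 * s) ^ 2 / 2) ≤ (l / 1000) * exp (4 * s - (4 * s) ^ 2 / 2) :=
          mul_le_mul_of_nonneg_right hb (Real.exp_pos _).le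
      _ ≤ (l / 1000) * E := mul_le_mul_of_nonneg_left h1 (by linarith)
  -- the right side
  have h3 : exp (3 / 2 * β ^ 2) / exp l ≤ E * (1 / 65) := by
    rw [← Real.exp_sub]
    have h4 : exp (3 / 2 * β ^ 2 - l) ≤ exp (-(l / 2) + -(l / 4)) := by
      apply Real.exp_le_exp.2; linarith
    rw [Real.exp_add, ← hE] at h4
    have h5 : exp (-(l / 4)) ≤ 1 / 65 := by
      rw [Real.exp_neg, ← one_div]
      apply one_div_le_one_div_of_le (by norm_num)
      have := Real.add_one_le_exp (l / 4)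
      linarith
    exact h4.trans (mul_le_mul_of_nonneg_left h5 hE0.le)
  have h6 : 2 * (l + 1 + β ^ 2 / 2) ≤ 3 * l := by linarith
  have h7 : 2 * (l + 1 + β ^ 2 / 2) * (exp (3 / 2 * β ^ 2) / exp l) ≤ 3 * l * (E * (1 / 65)) := by
    apply mul_le_mul h6 h3 (by positivity) (by linarith)
  -- the main term
  have h8 : (2 * (l + 1 + β ^ 2 / 2) - (2 + β ^ 2 / 2 + β * (4 * s))) * E ≤
      (2 * (l + 1 + β ^ 2 / 2) - (2 + β ^ 2 / 2 + β * (4 * s))) * e := by
    apply mul_le_mul_of_nonneg_left he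
    have := sq_nonneg β
    linarith
  have h9 : (19 / 10 * l) * E ≤ (2 * (l + 1 + β ^ 2 / 2) - (2 + β ^ 2 / 2 + β * (4 * s))) * E := by
    apply mul_le_mul_of_nonneg_right _ hE0.le
    have := sq_nonneg β
    linarith
  have h10 : 0 ≤ l * E := mul_nonneg (by linarith) hE0.le
  linarith
-- END num_far

-- BEGIN far
/-- the far regime -/
theorem far (hn : 256 ≤ log n) (a : Fin n → Fin n → ℝ) (ha : ∀ i, cv a i i = 1) (β : ℝ)
    (hβ : 0 < β) (h : β ≤ √(log n) / 640) (he : exp (-(log n / 2)) ≤ eps β a) :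
    EG a (fun x => (Lg β x + 1) ^ 2) ≤ EG (spx n) (fun x => (Lg β x + 1) ^ 2) := by
  have hn2 : 2 ≤ n := by
    by_contra hcon
    push Not at hcon
    interval_cases n
    · simp at hn; norm_num at hn
    · simp at hn; norm_num at hn
  have hn0 : 0 < n := by omega
  have hsq : (16 : ℝ) ≤ √(log n) := by
    have : (16 : ℝ) = √256 := by
      rw [show (256 : ℝ) = 16 ^ 2 by norm_num, sqrt_sq (by norm_num)]
    rw [this]
    exact sqrt_le_sqrt hn
  have h1 := logW2 hn0 a ha β (4 * √(log n)) hβ.le (by linarith) (by linarith)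
  have h2 := num_far hn β (eps β a) hβ h he
  rw [G_eq hn0 a β, G_eq hn0 (spx n) β]
  have h3 := eps_spx hn2 β
  have h4 : 0 ≤ EG (spx n) (fun x => log (Wf β x) ^ 2) :=
    integral_nonneg fun z => sq_nonneg _
  have h5 : 0 ≤ 2 * (log n + 1 + β ^ 2 / 2) := by positivity
  have h6 := mul_le_mul_of_nonneg_left h3 h5
  linarith
-- END far

-- BEGIN core
/-- the main inequality for `A z` -/
theorem core (hn : 2 ≤ n) (a : Fin n → Fin n → ℝ) (ha : ∀ i, cv a i i = 1) (β : ℝ)
    (hβ : 0 < β) (h : β ≤ max (1 / 40) (√(log n) / 640)) :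
    EG a (fun x => (Lg β x + 1) ^ 2) ≤ EG (spx n) (fun x => (Lg β x + 1) ^ 2) := by
  have hn0 : 0 < n := by omega
  by_cases hb : β ≤ 1 / 40
  · exact loc hn a ha β hβ (num_small hn β _ _ hβ hb (del_le a ha) (rho_le a ha))
  · push Not at hb
    have h2 : β ≤ √(log n) / 640 := by
      rcases le_max_iff.1 h with h3 | h3
      · exact absurd h3 (not_le.2 hb)
      · exact h3
    have hsq : (16 : ℝ) ≤ √(log n) := by linarith
    have hl : 256 ≤ log n := by
      have h0 : 0 ≤ log n := log_natCast_nonneg n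
      have := sq_sqrt h0
      nlinarith
    by_cases he : exp (-(log n / 2)) ≤ eps β a
    · exact far hl a ha β hβ h2 he
    · push Not at he
      have h3 : √(eps β a) ≤ exp (-(log n / 4)) := by
        have e1 : exp (-(log n / 4)) = √(exp (-(log n / 2))) := by
          rw [show -(log n / 2) = -(log n / 4) + -(log n / 4) by ring, exp_add,
            sqrt_mul_self (exp_pos _).le]
        rw [e1]
        exact sqrt_le_sqrt he.le
      have h4 := (EW2low hn0 a ha β).trans (near hn0 a ha β)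
      have h5 : 2 * exp (3 / 2 * β ^ 2) * √(eps β a) ≤
          2 * exp (3 / 2 * β ^ 2) * exp (-(log n / 4)) :=
        mul_le_mul_of_nonneg_left h3 (by positivity)
      exact loc hn a ha β hβ (num_near hl β _ _ hβ h2 (del_nonneg a) (rho_nonneg a) (h4.trans h5))
-- END core

end SMx
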