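import Pool.Agent.SMx.Stmt

/-! MP_72ffec_pr: the soft-max projection inequality for `β ≤ c √(log n)`.  Definitions. -/

open MeasureTheory ProbabilityTheory Real
open scoped BigOperators ENNReal

namespace SMx

/-- the standard Gaussian measure on `ι → ℝ` -/
noncomputable def γ (ι : Type) [Fintype ι] : Measure (ι → ℝ) :=
  Measure.pi (fun _ : ι => gaussianReal 0 1)

instance (ι : Type) [Fintype ι] : IsProbabilityMeasure (γ ι) := by unfold γ; infer_instance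

/-- the linear image `A z` -/
def lin {n : ℕ} {ι : Type} [Fintype ι] (A : Fin n → ι → ℝ) (z : ι → ℝ) (i : Fin n) : ℝ :=
  ∑ k, A i k * z k

/-- the expectation of `g` at the Gaussian vector `A z` -/
noncomputable def EG {n : ℕ} {ι : Type} [Fintype ι] (A : Fin n → ι → ℝ)
    (g : (Fin n → ℝ) → ℝ) : ℝ := ∫ z, g (lin A z) ∂(γ ι)

/-- the covariance matrix of `A z` -/
def cv {n : ℕ} {ι : Type} [Fintype ι] (A : Fin n → ι → ℝ) (i j : Fin n) : ℝ :=
  ∑ k, A i k * A j k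

/-- the interpolation path `cos θ a z + sin θ b w` -/
noncomputable def path {n : ℕ} (a b : Fin n → Fin n → ℝ) (θ : ℝ) (i : Fin n) : Fin n ⊕ Fin n → ℝ :=
  Sum.elim (fun k => cos θ * a i k) (fun k => sin θ * b i k)

/-- its velocity -/
noncomputable def path' {n : ℕ} (a b : Fin n → Fin n → ℝ) (θ : ℝ) (i : Fin n) :
    Fin n ⊕ Fin n → ℝ :=
  Sum.elim (fun k => -(sin θ * a i k)) (fun k => cos θ * b i k)

/-- the difference of the covariances -/
def dl {n : ℕ} (a b : Fin n → Fin n → ℝ) (i j : Fin n) : ℝ := cv b i j - cv a i j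

/-- average of a vector -/
noncomputable def av {n : ℕ} (f : Fin n → ℝ) : ℝ := (∑ i, f i) / n

/-- average of a matrix -/
noncomputable def av2 {n : ℕ} (f : Fin n → Fin n → ℝ) : ℝ := (∑ i, ∑ j, f i j) / (n : ℝ) ^ 2

/-- sum of the exponentials -/
noncomputable def Sm {n : ℕ} (β : ℝ) (x : Fin n → ℝ) : ℝ := ∑ k, exp (β * x k)

/-- the average of the exponentials -/
noncomputable def Zf {n : ℕ} (β : ℝ) (x : Fin n → ℝ) : ℝ := Sm β x / n

/-- `β` times the soft-max -/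
noncomputable def Lg {n : ℕ} (β : ℝ) (x : Fin n → ℝ) : ℝ := log (Sm β x)

/-- the Gibbs weights -/
noncomputable def pw {n : ℕ} (β : ℝ) (x : Fin n → ℝ) (i : Fin n) : ℝ := exp (β * x i) / Sm β x

/-- `π · Δ π` -/
noncomputable def qA {n : ℕ} (Δ : Fin n → Fin n → ℝ) (β : ℝ) (x : Fin n → ℝ) : ℝ :=
  ∑ i, ∑ j, Δ i j * (pw β x i * pw β x j)

/-- `∑ π_i π_j Δ_ij ^ 2` -/
noncomputable def qD {n : ℕ} (Δ : Fin n → Fin n → ℝ) (β : ℝ) (x : Fin n → ℝ) : ℝ :=
  ∑ i, ∑ j, Δ i j ^ 2 * (pw β x i * pw β x j)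

/-- `∑ π_i (Δ π)_i ^ 2` -/
noncomputable def qN {n : ℕ} (Δ : Fin n → Fin n → ℝ) (β : ℝ) (x : Fin n → ℝ) : ℝ :=
  ∑ i, pw β x i * (∑ j, Δ i j * pw β x j) ^ 2

/-- continuous with at most exponential growth -/
def Gr {ι : Type} [Fintype ι] (g : (ι → ℝ) → ℝ) : Prop :=
  Continuous g ∧ ∃ C K : ℝ, 0 ≤ C ∧ 0 ≤ K ∧ ∀ x, |g x| ≤ C * exp (K * ∑ i, |x i|)

/-- `g1 i` are the partial derivatives of `g` -/
def Der {n : ℕ} (g : (Fin n → ℝ) → ℝ) (g1 : Fin n → (Fin n → ℝ) → ℝ) : Prop :=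
  ∀ x, HasFDerivAt g (∑ i, g1 i x • (ContinuousLinearMap.proj i : (Fin n → ℝ) →L[ℝ] ℝ)) x

/-- the normalised average of exponentials (mean one) -/
noncomputable def Wf {n : ℕ} (β : ℝ) (x : Fin n → ℝ) : ℝ := Zf β x * exp (-(β ^ 2 / 2))

/-- minus the mean of `log W` -/
noncomputable def eps {n : ℕ} {ι : Type} [Fintype ι] (β : ℝ) (A : Fin n → ι → ℝ) : ℝ :=
  EG A (fun x => -log (Wf β x))

/-- `√(avg r_ij²)` -/
noncomputable def rho {n : ℕ} {ι : Type} [Fintype ι] (A : Fin n → ι → ℝ) : ℝ :=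
  √(av2 (fun i j => cv A i j ^ 2))

/-- the variance of the mean `avg r_ij` -/
noncomputable def del {n : ℕ} {ι : Type} [Fintype ι] (A : Fin n → ι → ℝ) : ℝ :=
  av2 (fun i j => cv A i j)

/-- rows of the regular simplex in `ℝⁿ` -/
noncomputable def spx (n : ℕ) (i k : Fin n) : ℝ :=
  ((if i = k then 1 else 0) - 1 / n) * √(n / (n - 1))

/-- the local condition (C1) -/
def C1 (n : ℕ) (β δ ρ : ℝ) : Prop :=
  2 * β * √δ * exp (16 * β ^ 2) + (8 * log n + 9) * (41 * exp (18 * β ^ 2)) * β ^ 2 * (ρ + √(2 / n)) ≤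
    2 * log n * exp (-β ^ 2)

end SMx
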