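import Pool.Agent.SMx.D

/-! MP_72ffec_pr: transfer of the law, projections, the result. -/

open MeasureTheory ProbabilityTheory Real
open scoped BigOperators ENNReal

namespace SMx

variable {n : ℕ} {Ω : Type*} [MeasurableSpace Ω]

-- BEGIN law
private theorem law_meas (a : Fin n → Fin n → ℝ) : Measurable (lin a) := by
  refine measurable_pi_iff.2 fun i => ?_
  unfold lin
  fun_prop

private theorem law_dual (L : StrongDual ℝ (Fin n → ℝ)) (x : Fin n → ℝ) :
    L x = ∑ i, L (Pi.single i 1) * x i := by
  conv_lhs => rw [← Finset.univ_sum_single x]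
  rw [map_sum]
  refine Finset.sum_congr rfl fun i _ => ?_
  have h : (Pi.single i (x i) : Fin n → ℝ) = x i • Pi.single i 1 := by
    rw [← Pi.single_smul, smul_eq_mul, mul_one]
  rw [h, map_smul, smul_eq_mul, mul_comm]

private theorem law_gauss (v : Fin n → ℝ) :
    ∫ z : Fin n → ℝ, Complex.exp (((∑ k, v k * z k : ℝ) : ℂ) * Complex.I) ∂(γ (Fin n)) =
      Complex.exp (-(((∑ k, v k ^ 2 : ℝ) : ℂ) / 2)) := by
  have h1 : ∀ z : Fin n → ℝ, Complex.exp (((∑ k, v k * z k : ℝ) : ℂ) * Complex.I) =
      ∏ k, Complex.exp ((v k : ℂ) * (z k : ℂ) * Complex.I) := by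
    intro z
    rw [← Complex.exp_sum, ← Finset.sum_mul]
    congr 2
    push_cast
    rfl
  simp_rw [h1]
  unfold γ
  rw [integral_fintype_prod_eq_prod (f := fun k (x : ℝ) => Complex.exp ((v k : ℂ) * (x : ℂ) * Complex.I))]
  have h2 : ∀ k, ∫ x : ℝ, Complex.exp ((v k : ℂ) * (x : ℂ) * Complex.I) ∂(gaussianReal 0 1) =
      Complex.exp (-((v k : ℂ) ^ 2 / 2)) := by
    intro k
    rw [← charFun_apply_real, charFun_gaussianReal]
    congr 1
    simp
  rw [Finset.prod_congr rfl fun k _ => h2 k, ← Complex.exp_sum]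
  congr 1
  push_cast
  rw [Finset.sum_neg_distrib, Finset.sum_div]

/-- a centered Gaussian vector with covariance `a aᵀ` has the law of `a z` -/
theorem law (P : Measure Ω) [IsProbabilityMeasure P] (X : Ω → Fin n → ℝ) (hX : CG P X)
    (a : Fin n → Fin n → ℝ) (ha : ∀ i j, cv a i j = ∫ ω, X ω i * X ω j ∂P) :
    P.map X = (γ (Fin n)).map (lin a) := by
  obtain ⟨hG, hm⟩ := hX
  have hG1 : ∀ i, HasGaussianLaw (fun ω => X ω i) P := fun i =>
    HasGaussianLaw.eval (X := fun i ω => X ω i) hG i
  have hL2 : ∀ i, MemLp (fun ω => X ω i) 2 P := fun i => (hG1 i).memLp_two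
  have hint : ∀ i, Integrable (fun ω => X ω i) P := fun i => (hG1 i).integrable
  have hint2 : ∀ i j, Integrable (fun ω => X ω i * X ω j) P := fun i j =>
    (hL2 i).integrable_mul (hL2 j)
  haveI : IsProbabilityMeasure (P.map X) := Measure.isProbabilityMeasure_map hG.aemeasurable
  haveI : IsProbabilityMeasure ((γ (Fin n)).map (lin a)) :=
    Measure.isProbabilityMeasure_map (law_meas a).aemeasurable
  apply Measure.ext_of_charFunDual
  ext L
  set u : Fin n → ℝ := fun i => L (Pi.single i 1) with hu
  set v : Fin n → ℝ := fun k => ∑ i, u i * a i k with hv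
  -- the right side
  have hR : charFunDual ((γ (Fin n)).map (lin a)) L = Complex.exp (-(((∑ k, v k ^ 2 : ℝ) : ℂ) / 2)) := by
    rw [charFunDual_apply, integral_map (law_meas a).aemeasurable
      (Measurable.aestronglyMeasurable (by fun_prop)), ← law_gauss v]
    congr 1
    funext z
    congr 3
    rw [law_dual L, hv]
    unfold lin
    simp only [Finset.mul_sum, Finset.sum_mul]
    rw [Finset.sum_comm]
    refine Finset.sum_congr rfl fun k _ => Finset.sum_congr rfl fun i _ => ?_
    ring
  -- the left side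
  have hmean : P[L ∘ X] = 0 := by
    have h1 : (L ∘ X) = fun ω => ∑ i, u i * X ω i := by
      funext ω
      exact law_dual L (X ω)
    rw [h1, integral_finsetSum _ fun i _ => (hint i).const_mul _]
    refine Finset.sum_eq_zero fun i _ => ?_
    rw [integral_const_mul, hm, mul_zero]
  have hvar : Var[L ∘ X; P] = ∑ k, v k ^ 2 := by
    rw [variance_of_integral_eq_zero (L.continuous.measurable.comp_aemeasurable hG.aemeasurable) hmean]
    have h1 : ∀ ω, (L ∘ X) ω ^ 2 = ∑ i, ∑ j, u i * u j * (X ω i * X ω j) := by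
      intro ω
      show L (X ω) ^ 2 = _
      rw [law_dual L, _root_.sq, Finset.sum_mul_sum]
      refine Finset.sum_congr rfl fun i _ => Finset.sum_congr rfl fun j _ => ?_
      show u i * X ω i * (u j * X ω j) = _
      ring
    simp_rw [h1]
    rw [integral_finsetSum _ fun i _ => integrable_finsetSum _ fun j _ => (hint2 i j).const_mul _]
    have h2 : ∀ i, ∫ ω, ∑ j, u i * u j * (X ω i * X ω j) ∂P = ∑ j, u i * u j * cv a i j := by
      intro i
      rw [integral_finsetSum _ fun j _ => (hint2 i j).const_mul _]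
      refine Finset.sum_congr rfl fun j _ => ?_
      rw [integral_const_mul, ha]
    rw [Finset.sum_congr rfl fun i _ => h2 i]
    have h3 : ∀ k, v k ^ 2 = ∑ i, ∑ j, u i * u j * (a i k * a j k) := by
      intro k
      rw [hv, _root_.sq, Finset.sum_mul_sum]
      refine Finset.sum_congr rfl fun i _ => Finset.sum_congr rfl fun j _ => ?_
      ring
    symm
    calc ∑ k, v k ^ 2 = ∑ k, ∑ i, ∑ j, u i * u j * (a i k * a j k) := Finset.sum_congr rfl fun k _ => h3 k
      _ = ∑ i, ∑ k, ∑ j, u i * u j * (a i k * a j k) := Finset.sum_comm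
      _ = ∑ i, ∑ j, ∑ k, u i * u j * (a i k * a j k) := Finset.sum_congr rfl fun i _ => Finset.sum_comm
      _ = ∑ i, ∑ j, u i * u j * cv a i j := by
        refine Finset.sum_congr rfl fun i _ => Finset.sum_congr rfl fun j _ => ?_
        unfold cv
        rw [Finset.mul_sum]
  rw [hG.charFunDual_map_eq L, hmean, hvar, hR]
  congr 1
  push_cast
  ring
-- END law

-- BEGIN root
theorem root_memLp (P : Measure Ω) [IsProbabilityMeasure P] (X : Ω → Fin n → ℝ) (hX : CG P X)
    (i : Fin n) : MemLp (fun ω => X ω i) 2 P := by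
  have h := hX.1.memLp_two
  exact (ContinuousLinearMap.proj (R := ℝ) (φ := fun _ : Fin n => ℝ) i).comp_memLp' h

open scoped MatrixOrder in
theorem root_mat (M : Matrix (Fin n) (Fin n) ℝ) (hM : M.PosSemidef) :
    ∃ B : Matrix (Fin n) (Fin n) ℝ, M = star B * B :=
  CStarAlgebra.nonneg_iff_eq_star_mul_self.mp hM.nonneg

/-- the covariance matrix has a square root -/
theorem root (P : Measure Ω) [IsProbabilityMeasure P] (X : Ω → Fin n → ℝ) (hX : CG P X) :
    ∃ a : Fin n → Fin n → ℝ, ∀ i j, cv a i j = ∫ ω, X ω i * X ω j ∂P := by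
  have hint : ∀ i j, Integrable (fun ω => X ω i * X ω j) P := fun i j =>
    (root_memLp P X hX i).integrable_mul (root_memLp P X hX j)
  set M : Matrix (Fin n) (Fin n) ℝ := Matrix.of fun i j => ∫ ω, X ω i * X ω j ∂P with hMdef
  have hH : M.IsHermitian := by
    ext i j
    simp only [Matrix.conjTranspose_apply, star_trivial]
    change ∫ ω, X ω j * X ω i ∂P = ∫ ω, X ω i * X ω j ∂P
    simp only [mul_comm]
  have hM : M.PosSemidef := by
    refine Matrix.PosSemidef.of_dotProduct_mulVec_nonneg hH fun x => ?_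
    have e : star x ⬝ᵥ (M.mulVec x) = ∫ ω, (∑ i, x i * X ω i) ^ 2 ∂P := by
      have e1 : ∀ ω, (∑ i, x i * X ω i) ^ 2 = ∑ i, ∑ j, x i * x j * (X ω i * X ω j) := by
        intro ω
        rw [sq, Finset.sum_mul_sum]
        exact Finset.sum_congr rfl fun i _ => Finset.sum_congr rfl fun j _ => by ring
      simp only [e1]
      rw [integral_finsetSum _ fun i _ => integrable_finsetSum _ fun j _ => (hint i j).const_mul _]
      unfold dotProduct
      apply Finset.sum_congr rfl
      intro i _
      rw [integral_finsetSum _ fun j _ => (hint i j).const_mul _]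
      simp only [Pi.star_apply, star_trivial, Matrix.mulVec, dotProduct]
      rw [Finset.mul_sum]
      apply Finset.sum_congr rfl
      intro j _
      rw [integral_const_mul]
      change x i * ((∫ ω, X ω i * X ω j ∂P) * x j) = _
      ring
    rw [e]
    exact integral_nonneg fun ω => sq_nonneg _
  obtain ⟨B, hB⟩ := root_mat M hM
  refine ⟨fun i k => B k i, fun i j => ?_⟩
  have h1 : M i j = ∑ k, B k i * B k j := by
    rw [hB, Matrix.mul_apply]
    simp [Matrix.star_apply]
  exact h1.symm
-- END root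

-- BEGIN transfer
private theorem transfer_lin (a : Fin n → Fin n → ℝ) : Continuous (lin a) := by
  unfold lin; fun_prop

theorem transfer (P : Measure Ω) [IsProbabilityMeasure P] (X : Ω → Fin n → ℝ) (hX : CG P X)
    (a : Fin n → Fin n → ℝ) (ha : ∀ i j, cv a i j = ∫ ω, X ω i * X ω j ∂P)
    {g : (Fin n → ℝ) → ℝ} (hg : Gr g) : ∫ ω, g (X ω) ∂P = EG a g := by
  have h1 := law P X hX a ha
  have h2 : ∫ ω, g (X ω) ∂P = ∫ x, g x ∂(P.map X) :=
    (integral_map hX.1.aemeasurable hg.1.aestronglyMeasurable).symm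
  rw [h2, h1, integral_map (transfer_lin a).measurable.aemeasurable hg.1.aestronglyMeasurable]
  rfl

theorem memLp_gr (P : Measure Ω) [IsProbabilityMeasure P] (X : Ω → Fin n → ℝ) (hX : CG P X)
    {g : (Fin n → ℝ) → ℝ} (hg : Gr g) : MemLp (fun ω => g (X ω)) 2 P := by
  obtain ⟨a, ha⟩ := root P X hX
  have h1 := law P X hX a ha
  have hm : AEStronglyMeasurable (fun ω => g (X ω)) P :=
    hg.1.comp_aestronglyMeasurable hX.1.aemeasurable.aestronglyMeasurable
  rw [memLp_two_iff_integrable_sq hm]
  have h2 : Integrable (fun x => g x ^ 2) (P.map X) := by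
    rw [h1, integrable_map_measure hg.sq.1.aestronglyMeasurable
      (transfer_lin a).measurable.aemeasurable]
    exact hg.sq.integrable a
  exact (integrable_map_measure hg.sq.1.aestronglyMeasurable hX.1.aemeasurable).1 h2
-- END transfer


-- BEGIN orthS
/-- the soft-max of the simplex vector is orthogonal to its coordinates -/
theorem orthS (hn : 2 ≤ n) (β : ℝ) (i : Fin n) :
    EG (spx n) (fun x => Lg β x * x i) = 0 := by
  have hgr : ∀ j : Fin n, Gr (fun x : Fin n → ℝ => Lg β x * x j) :=
    fun j => (Gr.Lg β).mul (Gr.coord j)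
  have hall : ∀ j : Fin n, EG (spx n) (fun x => Lg β x * x j) = EG (spx n) (fun x => Lg β x * x i) := by
    intro j
    have h := spx_exch (n := n) (fun x => Lg β x * x j) (Equiv.swap i j)
    rw [← h]
    congr 1
    funext x
    have e1 : Lg β (fun k => x (Equiv.swap i j k)) = Lg β x := by
      unfold Lg Sm
      congr 1
      exact Equiv.sum_comp (Equiv.swap i j) (fun k => exp (β * x k))
    rw [e1]
    change Lg β x * x (Equiv.swap i j j) = _
    rw [Equiv.swap_apply_right]
  have hsum : EG (spx n) (fun x => ∑ j, Lg β x * x j) = (n : ℝ) * EG (spx n) (fun x => Lg β x * x i) := by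
    rw [EG_sum Finset.univ hgr (spx n), Finset.sum_congr rfl (fun j _ => hall j), Finset.sum_const,
      Finset.card_univ, Fintype.card_fin, nsmul_eq_mul]
  have hn0 : (n : ℝ) ≠ 0 := by
    have : n ≠ 0 := by omega
    exact_mod_cast this
  have hz : EG (spx n) (fun x => ∑ j, Lg β x * x j) = 0 := by
    unfold EG
    have e : (fun z : Fin n → ℝ => ∑ j, Lg β (lin (spx n) z) * lin (spx n) z j) = fun _ => 0 := by
      funext z
      rw [← Finset.mul_sum]
      have h1 := spx_bar hn z
      unfold av at h1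
      rw [div_eq_zero_iff] at h1
      rw [h1.resolve_right hn0, mul_zero]
    rw [e, integral_zero]
  rw [hz] at hsum
  exact (mul_eq_zero.1 hsum.symm).resolve_left hn0
-- END orthS

end SMx
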