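import Pool.Agent.SMx.F

/-! MP_72ffec_pr: the result in terms of `IsPerp`. -/

open MeasureTheory ProbabilityTheory Real
open scoped BigOperators ENNReal

namespace SMx

variable {n : ℕ} {Ω : Type*} [MeasurableSpace Ω]

/-- the projection of the soft-max onto the span is `∑ E[π_i] X_i` -/
theorem stein_sm (hn : 0 < n) (β : ℝ) (hβ : β ≠ 0) (a : Fin n → Fin n → ℝ) (j : Fin n) :
    EG a (fun x => sm β x * x j) = ∑ i, EG a (fun x => pw β x i) * cv a i j := by
  have h1 : EG a (fun x => Lg β x * x j) = ∑ i, β * (EG a (fun x => pw β x i) * cv a i j) := by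
    have e1 : ∀ z : Fin n → ℝ, Lg β (lin a z) * lin a z j = ∑ k, a j k * (z k * Lg β (lin a z)) := by
      intro z
      unfold lin
      rw [Finset.mul_sum]
      apply Finset.sum_congr rfl
      intro k _
      ring
    have gI : ∀ k : Fin n, Integrable (fun z : Fin n → ℝ => a j k * (z k * Lg β (lin a z)))
        (γ (Fin n)) := fun k =>
      (((Gr.coord k).mul ((Gr.Lg β).comp_lin a)).const_mul _).int
    have e2 : ∀ k : Fin n, ∫ z, a j k * (z k * Lg β (lin a z)) ∂(γ (Fin n)) =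
        ∑ i, a j k * a i k * (β * EG a (fun x => pw β x i)) := by
      intro k
      rw [integral_const_mul, steinlin a (fun x => Lg β x) _ (der_Lg hn β) (Gr.Lg β)
        (fun i => (Gr.pw β i).const_mul β) k, Finset.mul_sum]
      apply Finset.sum_congr rfl
      intro i _
      rw [EG_const_mul]
      ring
    unfold EG at e2 ⊢
    rw [integral_congr_ae (Filter.Eventually.of_forall e1), integral_finsetSum _ fun k _ => gI k,
      Finset.sum_congr rfl fun k _ => e2 k, Finset.sum_comm]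
    apply Finset.sum_congr rfl
    intro i _
    rw [← Finset.sum_mul]
    have e3 : ∑ k, a j k * a i k = cv a i j := by
      unfold cv
      exact Finset.sum_congr rfl fun k _ => mul_comm _ _
    rw [e3]
    ring
  have e : (fun x : Fin n → ℝ => sm β x * x j) = fun x => 1 / β * (Lg β x * x j) := by
    funext x
    unfold sm Lg Sm
    ring
  rw [e, EG_const_mul, h1, ← Finset.mul_sum]
  field_simp

theorem exists_perp (hn : 0 < n) (β : ℝ) (hβ : β ≠ 0) (P : Measure Ω) [IsProbabilityMeasure P]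
    (X : Ω → Fin n → ℝ) (hX : CG P X) : ∃ G, IsPerp P X (fun ω => sm β (X ω)) G := by
  obtain ⟨a, ha⟩ := root P X hX
  have gs : Gr (fun x : Fin n → ℝ => sm β x) := by
    have e : (fun x : Fin n → ℝ => sm β x) = fun x => 1 / β * Lg β x := rfl
    rw [e]
    exact (Gr.Lg β).const_mul _
  refine ⟨fun ω => sm β (X ω) - ∑ i, EG a (fun x => pw β x i) * X ω i, ⟨_, ae_of_all _ fun ω => rfl⟩,
    fun j => ?_⟩
  have g1 : Gr (fun x : Fin n → ℝ => sm β x * x j) := gs.mul (Gr.coord j)
  have g2 : ∀ i : Fin n, Gr (fun x : Fin n → ℝ => EG a (fun x => pw β x i) * (x i * x j)) :=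
    fun i => ((Gr.coord i).mul (Gr.coord j)).const_mul _
  have h := transfer P X hX a ha (g1.sub (Gr.sum Finset.univ g2))
  rw [EG_sub g1 (Gr.sum Finset.univ g2), EG_sum Finset.univ g2, stein_sm hn β hβ a j] at h
  have e1 : ∀ i, EG a (fun x => EG a (fun x => pw β x i) * (x i * x j)) =
      EG a (fun x => pw β x i) * cv a i j := by
    intro i
    rw [EG_const_mul, mom2]
  rw [Finset.sum_congr rfl fun i _ => e1 i, sub_self] at h
  rw [← h]
  apply integral_congr_ae
  refine Filter.Eventually.of_forall fun ω => ?_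
  show (sm β (X ω) - ∑ i, EG a (fun x => pw β x i) * X ω i) * X ω j =
    sm β (X ω) * X ω j - ∑ i, EG a (fun x => pw β x i) * (X ω i * X ω j)
  rw [sub_mul, Finset.sum_mul]
  congr 1
  exact Finset.sum_congr rfl fun i _ => mul_assoc _ _ _

section perp

variable (P : Measure Ω) [IsProbabilityMeasure P] (X : Ω → Fin n → ℝ)

/-- the projection does not increase the second moment after adding a constant -/
theorem perp_le (hX : CG P X) (F G : Ω → ℝ) (hF : MemLp F 2 P) (b : ℝ) (h : IsPerp P X F G) :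
    ∫ ω, (G ω + b) ^ 2 ∂P ≤ ∫ ω, (F ω + b) ^ 2 ∂P := by
  obtain ⟨⟨c, hc⟩, ho⟩ := h
  have hXi : ∀ i, MemLp (fun ω => X ω i) 2 P := fun i => memLp_gr P X hX (Gr.coord i)
  have hY : MemLp (fun ω => ∑ i, c i * X ω i) 2 P :=
    memLp_finsetSum _ fun i _ => (hXi i).const_mul (c i)
  have hG : MemLp G 2 P := (memLp_congr_ae hc).2 (hF.sub hY)
  have hGb : MemLp (fun ω => G ω + b) 2 P := hG.add (memLp_const b)
  have i1 : Integrable (fun ω => (G ω + b) ^ 2) P := hGb.integrable_sq
  have i2 : Integrable (fun ω => (∑ i, c i * X ω i) ^ 2) P := hY.integrable_sq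
  have i3 : Integrable (fun ω => (G ω + b) * ∑ i, c i * X ω i) P := hGb.integrable_mul hY
  have hcross : ∫ ω, (G ω + b) * ∑ i, c i * X ω i ∂P = 0 := by
    have e : (fun ω => (G ω + b) * ∑ i, c i * X ω i) =
        fun ω => ∑ i, (c i * (G ω * X ω i) + c i * b * X ω i) := by
      funext ω
      rw [Finset.mul_sum]
      apply Finset.sum_congr rfl
      intro i _
      ring
    have j1 : ∀ i, Integrable (fun ω => c i * (G ω * X ω i)) P := fun i =>
      (hG.integrable_mul (hXi i)).const_mul (c i)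
    have j2 : ∀ i, Integrable (fun ω => c i * b * X ω i) P := fun i =>
      ((hXi i).integrable one_le_two).const_mul _
    have j3 : ∀ i, Integrable (fun ω => c i * (G ω * X ω i) + c i * b * X ω i) P := fun i =>
      (j1 i).add (j2 i)
    rw [e, integral_finsetSum _ fun i _ => j3 i]
    apply Finset.sum_eq_zero
    intro i _
    rw [integral_add (j1 i) (j2 i), integral_const_mul, integral_const_mul, ho i, hX.2 i]
    ring
  have hF2 : ∫ ω, (F ω + b) ^ 2 ∂P =
      ∫ ω, (G ω + b) ^ 2 ∂P + ∫ ω, (∑ i, c i * X ω i) ^ 2 ∂P := by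
    have e : ∫ ω, (F ω + b) ^ 2 ∂P =
        ∫ ω, ((G ω + b) ^ 2 + 2 * ((G ω + b) * ∑ i, c i * X ω i)) + (∑ i, c i * X ω i) ^ 2 ∂P := by
      apply integral_congr_ae
      filter_upwards [hc] with ω hω
      rw [hω]
      ring
    have i4 : Integrable (fun ω => (G ω + b) ^ 2 + 2 * ((G ω + b) * ∑ i, c i * X ω i)) P :=
      i1.add (i3.const_mul 2)
    rw [e, integral_add i4 i2, integral_add i1 (i3.const_mul 2),
      integral_const_mul, hcross]
    ring
  rw [hF2]
  have : 0 ≤ ∫ ω, (∑ i, c i * X ω i) ^ 2 ∂P := integral_nonneg fun ω => sq_nonneg _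
  linarith

/-- if `F` is orthogonal to the coordinates, the projection changes nothing -/
theorem perp_eq (hX : CG P X) (F G : Ω → ℝ) (hF : MemLp F 2 P) (b : ℝ) (h : IsPerp P X F G)
    (h0 : ∀ j, ∫ ω, F ω * X ω j ∂P = 0) :
    ∫ ω, (G ω + b) ^ 2 ∂P = ∫ ω, (F ω + b) ^ 2 ∂P := by
  obtain ⟨⟨c, hc⟩, ho⟩ := h
  have hXi : ∀ i, MemLp (fun ω => X ω i) 2 P := fun i => memLp_gr P X hX (Gr.coord i)
  have hY : MemLp (fun ω => ∑ i, c i * X ω i) 2 P :=
    memLp_finsetSum _ fun i _ => (hXi i).const_mul (c i)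
  have hYX : ∀ j, ∫ ω, (∑ i, c i * X ω i) * X ω j ∂P = 0 := by
    intro j
    have e : ∫ ω, G ω * X ω j ∂P = ∫ ω, F ω * X ω j - (∑ i, c i * X ω i) * X ω j ∂P := by
      apply integral_congr_ae
      filter_upwards [hc] with ω hω
      rw [hω]
      ring
    have k1 : Integrable (fun ω => F ω * X ω j) P := hF.integrable_mul (hXi j)
    have k2 : Integrable (fun ω => (∑ i, c i * X ω i) * X ω j) P := hY.integrable_mul (hXi j)
    rw [ho j, integral_sub k1 k2, h0 j] at e
    linarith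
  have hY2 : ∫ ω, (∑ i, c i * X ω i) ^ 2 ∂P = 0 := by
    have e : (fun ω => (∑ i, c i * X ω i) ^ 2) =
        fun ω => ∑ j, c j * ((∑ i, c i * X ω i) * X ω j) := by
      funext ω
      rw [pow_two, Finset.mul_sum]
      apply Finset.sum_congr rfl
      intro j _
      ring
    have k2 : ∀ j, Integrable (fun ω => c j * ((∑ i, c i * X ω i) * X ω j)) P := fun j =>
      (hY.integrable_mul (hXi j)).const_mul (c j)
    rw [e, integral_finsetSum _ fun j _ => k2 j]
    apply Finset.sum_eq_zero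
    intro j _
    rw [integral_const_mul, hYX j, mul_zero]
  have hY0 : ∀ᵐ ω ∂P, (∑ i, c i * X ω i) ^ 2 = 0 :=
    (integral_eq_zero_iff_of_nonneg (fun ω => sq_nonneg _) hY.integrable_sq).1 hY2
  apply integral_congr_ae
  filter_upwards [hc, hY0] with ω h1 h2
  have h3 : ∑ i, c i * X ω i = 0 := by
    exact pow_eq_zero_iff two_ne_zero |>.1 h2
  rw [h1, h3, sub_zero]

end perp

/-- the main inequality -/
theorem final (hn : 2 ≤ n) (β : ℝ) (hβ : 0 < β) (h : β ≤ max (1 / 40) (√(log n) / 640))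
    (P : Measure Ω) [IsProbabilityMeasure P] {Ω' : Type*} [MeasurableSpace Ω'] (P' : Measure Ω')
    [IsProbabilityMeasure P'] (X : Ω → Fin n → ℝ) (S : Ω' → Fin n → ℝ) (hX : CG P X) (hS : CG P' S)
    (hX1 : ∀ i, ∫ ω, X ω i ^ 2 ∂P = 1)
    (hS1 : ∀ i j, ∫ ω, S ω i * S ω j ∂P' = if i = j then 1 else -1 / ((n : ℝ) - 1))
    (G : Ω → ℝ) (G' : Ω' → ℝ) (hG : IsPerp P X (fun ω => sm β (X ω)) G)
    (hG' : IsPerp P' S (fun ω => sm β (S ω)) G') :
    ∫ ω, (G ω + 1 / β) ^ 2 ∂P ≤ ∫ ω, (G' ω + 1 / β) ^ 2 ∂P' := by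
  obtain ⟨a, ha⟩ := root P X hX
  have ha1 : ∀ i, cv a i i = 1 := by
    intro i
    rw [ha i i, ← hX1 i]
    apply integral_congr_ae
    exact Filter.Eventually.of_forall fun ω => by ring
  have hs : ∀ i j, cv (spx n) i j = ∫ ω, S ω i * S ω j ∂P' := by
    intro i j
    rw [hS1 i j, spx_cv hn i j]
  have gs : Gr (fun x : Fin n → ℝ => sm β x) := by
    have e : (fun x : Fin n → ℝ => sm β x) = fun x => 1 / β * Lg β x := rfl
    rw [e]
    exact (Gr.Lg β).const_mul _
  have gG : Gr (fun x : Fin n → ℝ => (Lg β x + 1) ^ 2) := ((Gr.Lg β).add (Gr.const 1)).sq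
  have gO : ∀ i : Fin n, Gr (fun x : Fin n → ℝ => Lg β x * x i) := fun i => (Gr.Lg β).mul (Gr.coord i)
  have e : ∀ x : Fin n → ℝ, (sm β x + 1 / β) ^ 2 = (1 / β) ^ 2 * (Lg β x + 1) ^ 2 := by
    intro x
    unfold sm Lg Sm
    ring
  have eX : ∫ ω, (sm β (X ω) + 1 / β) ^ 2 ∂P = (1 / β) ^ 2 * EG a (fun x => (Lg β x + 1) ^ 2) := by
    rw [← transfer P X hX a ha gG, ← integral_const_mul]
    exact integral_congr_ae (Filter.Eventually.of_forall fun ω => e (X ω))
  have eS : ∫ ω, (sm β (S ω) + 1 / β) ^ 2 ∂P' =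
      (1 / β) ^ 2 * EG (spx n) (fun x => (Lg β x + 1) ^ 2) := by
    rw [← transfer P' S hS (spx n) hs gG, ← integral_const_mul]
    exact integral_congr_ae (Filter.Eventually.of_forall fun ω => e (S ω))
  have hO : ∀ i, ∫ ω, sm β (S ω) * S ω i ∂P' = 0 := by
    intro i
    have h1 : ∫ ω, sm β (S ω) * S ω i ∂P' = 1 / β * ∫ ω, Lg β (S ω) * S ω i ∂P' := by
      rw [← integral_const_mul]
      apply integral_congr_ae
      exact Filter.Eventually.of_forall fun ω => by
        show sm β (S ω) * S ω i = 1 / β * (Lg β (S ω) * S ω i)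
        unfold sm Lg Sm
        ring
    rw [h1, transfer P' S hS (spx n) hs (gO i), orthS hn β i, mul_zero]
  rw [perp_eq P' S hS (fun ω => sm β (S ω)) G' (memLp_gr P' S hS gs) (1 / β) hG' hO, eS]
  refine (perp_le P X hX (fun ω => sm β (X ω)) G (memLp_gr P X hX gs) (1 / β) hG).trans ?_
  rw [eX]
  exact mul_le_mul_of_nonneg_left (core hn a ha1 β hβ h) (sq_nonneg _)

end SMx
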