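import Mathlib

/-! MP_72ffec_pr: the definitions used in the final statement. -/

open MeasureTheory ProbabilityTheory Real
open scoped BigOperators ENNReal

namespace SMx

/-- the soft-max -/
noncomputable def sm {n : ℕ} (β : ℝ) (x : Fin n → ℝ) : ℝ := 1 / β * log (∑ k, exp (β * x k))

/-- centered Gaussian vector -/
def CG {Ω : Type*} [MeasurableSpace Ω] (P : Measure Ω) {n : ℕ} (X : Ω → Fin n → ℝ) : Prop :=
  HasGaussianLaw X P ∧ ∀ i, ∫ ω, X ω i ∂P = 0

/-- `G` is the orthogonal projection (in `L²(P)`) of `F` onto the orthogonal complement of the span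
`H_X` of the coordinates of `X`: `G = F - ∑ c_i X_i` almost surely for some real `c_i`, and `G` is
orthogonal to all coordinates -/
def IsPerp {Ω : Type*} [MeasurableSpace Ω] (P : Measure Ω) {n : ℕ} (X : Ω → Fin n → ℝ)
    (F G : Ω → ℝ) : Prop :=
  (∃ c : Fin n → ℝ, ∀ᵐ ω ∂P, G ω = F ω - ∑ i, c i * X ω i) ∧ ∀ j, ∫ ω, G ω * X ω j ∂P = 0

end SMx
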